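import Pool.Agent.TH794.HK.LatK
import Pool.Agent.TH794.QE.FinA
import Pool.Agent.TH794.QE.NumB

/-! The characteristic function of the resolvent, for all scales simultaneously. -/

set_option autoImplicit false
set_option linter.unusedSectionVars false

open scoped BigOperators Topology
open MeasureTheory Filter Set

namespace Pool.Agent.TH794.HK

open Pool.Agent.W788.BK
open Pool.Agent.H4R2.LO (Zd)
open Pool.Agent.W788.BK.Num
open Pool.Agent.TH794.LL2 (hexle)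
open Pool.Agent.TH794.QE

/-- the law for the energies `B`, for one scale -/
def EngK (d : ℕ) (B : ℝ → Prop) (γ0 γ1 : ℝ → ℂ) (b v Kp : ℝ) : Prop :=
  ∃ y0 : ℝ, ∀ y : ℝ, y0 ≤ y →
    ∀ (ν : Measure ℝ), IsProbabilityMeasure ν → (∀ᵐ s ∂ν, |s| ≤ b) → ∫ s, s ∂ν = 0 →
    ∀ Vv : ℝ, ∫ s, s ^ 2 ∂ν = Vv → v ≤ Vv →
    ∀ t : ℝ, Real.exp (-(81 / 40) * y) ≤ t → t ≤ Real.exp (-(161 / 80) * y) →
    ∃ G : Set (Zd d → ℝ), MeasurableSet G ∧
      1 - Real.exp (-Real.exp (y / 100)) ≤ (Measure.infinitePi fun _ : Zd d => ν).real G ∧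
      ∀ ξ ∈ G, QLawK d B (Tg γ0 γ1 t (Real.exp (-2 * y) * Vv))
        (Real.exp (-1 * y)) (Real.exp (Real.exp (y / 100))) t (Real.exp (-10 * y))
        (Kp * (t * (Real.exp (-2 * y) * Vv))) (Real.exp (-(1 / 180) * y)) ξ

theorem Tg_diff {d : ℕ} (γ0 γ1 : ℝ → ℂ) (t t' s2 E ζ K : ℝ) (p : Fin d → ℝ) (ht : 0 < t)
    (htt : t ≤ t') (htζ : t' ≤ t + ζ) (hs : 0 < s2) (hK : 0 ≤ K)
    (hp : ∑ i, p i ^ 2 ≤ K * (t' * s2)) (h0 : 0 < (γ0 E).im) (h1 : 0 ≤ (γ1 E).im)
    (h10 : (γ1 E).im ≤ (γ0 E).im) :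
    |Tg γ0 γ1 t s2 E p - Tg γ0 γ1 t' s2 E p| ≤ K * (ζ * t⁻¹) := by
  have ht' : 0 < t' := ht.trans_le htt
  obtain ⟨S, hS⟩ : ∃ S, S = ∑ i, p i ^ 2 := ⟨_, rfl⟩
  obtain ⟨G, hG⟩ : ∃ G, G = (γ0 E).im := ⟨_, rfl⟩
  obtain ⟨G1, hG1⟩ : ∃ G1, G1 = (γ1 E).im := ⟨_, rfl⟩
  unfold Tg
  rw [← hS] at hp ⊢
  rw [← hG] at h0 h10 ⊢
  rw [← hG1] at h1 h10 ⊢
  have hS0 : 0 ≤ S := by rw [hS]; exact Finset.sum_nonneg fun i _ => sq_nonneg _
  obtain ⟨q, hq⟩ : ∃ q, q = G1 / G ^ 2 := ⟨_, rfl⟩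
  have hq0 : 0 ≤ q := by rw [hq]; positivity
  have hGq : G * q ≤ 1 := by
    rw [hq]
    have e1 : G * (G1 / G ^ 2) = G1 / G := by field_simp
    rw [e1, div_le_one h0]
    exact h10
  rw [← hq]
  obtain ⟨x, hx⟩ : ∃ x, x = S / (t * s2) := ⟨_, rfl⟩
  obtain ⟨x', hx'⟩ : ∃ x', x' = S / (t' * s2) := ⟨_, rfl⟩
  rw [← hx, ← hx']
  have hx0 : 0 ≤ x := by rw [hx]; positivity
  have hx0' : 0 ≤ x' := by rw [hx']; positivity
  have hxx : x - x' = x' * ((t' - t) * t⁻¹) := by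
    rw [hx, hx']
    field_simp
  have hx'K : x' ≤ K := by
    rw [hx', div_le_iff₀ (by positivity)]
    exact hp
  have hd0 : 0 ≤ (t' - t) * t⁻¹ := mul_nonneg (by linarith) (inv_pos.2 ht).le
  have hxd : x - x' ≤ K * (ζ * t⁻¹) := by
    rw [hxx]
    have : t' - t ≤ ζ := by linarith
    gcongr
  have hxd0 : 0 ≤ x - x' := by
    rw [hxx]
    positivity
  have a1 : 1 ≤ 1 + x * q := by
    have := mul_nonneg hx0 hq0
    linarith
  have a2 : 1 ≤ 1 + x' * q := by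
    have := mul_nonneg hx0' hq0
    linarith
  have e1 : G / (1 + x * q) - G / (1 + x' * q) =
      -((G * q) * (x - x') / ((1 + x * q) * (1 + x' * q))) := by
    have : 1 + x * q ≠ 0 := by positivity
    have : 1 + x' * q ≠ 0 := by positivity
    field_simp
    ring
  rw [e1, abs_neg, abs_of_nonneg (by positivity)]
  calc (G * q) * (x - x') / ((1 + x * q) * (1 + x' * q)) ≤ (G * q) * (x - x') := by
        apply div_le_self (by positivity)
        exact one_le_mul_of_one_le_of_one_le a1 a2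
    _ ≤ 1 * (x - x') := by gcongr
    _ ≤ _ := by linarith

/-- **the law for all scales simultaneously** -/
theorem finK (d : ℕ) (B : ℝ → Prop) (γ0 γ1 : ℝ → ℂ) (v K : ℝ) (hv : 0 < v) (hK : 0 ≤ K)
    (hEng : EngK d B γ0 γ1 1 v (2 * K))
    (hpos : ∀ E, B E → 0 < (γ0 E).im ∧ 0 ≤ (γ1 E).im ∧ (γ1 E).im ≤ (γ0 E).im) :
    ∃ c0 : ℝ, 0 < c0 ∧ ∀ c : ℝ, 0 < c → c ≤ c0 →
    ∀ (μ : Measure ℝ), IsProbabilityMeasure μ → (∀ᵐ s ∂μ, |s| ≤ c) → ∫ s, s ∂μ = 0 →
    ∀ s2 : ℝ, ∫ s, s ^ 2 ∂μ = s2 → v * c ^ 2 ≤ s2 →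
      ∃ G : Set (Zd d → ℝ), MeasurableSet G ∧
        1 - Real.exp (-c ^ (-(1 / 101) : ℝ)) ≤
          (Measure.infinitePi fun _ : Zd d => μ).real G ∧
        ∀ ω ∈ G, (∀ x, |ω x| ≤ c) ∧
          ∀ a : Zd d, ‖a‖ ≤ Real.exp (c ^ (-(1 / 101) : ℝ)) →
          ∀ e : ℝ, B (2 * d - e) → ∀ η : ℝ, c ^ (81 / 40 : ℝ) ≤ η → η ≤ c ^ (161 / 80 : ℝ) →
          ∀ u : Zd d → ℂ, Rs d (fun x => 2 * d + ω x) a e η u →
          ∀ p : Fin d → ℝ, ∑ i, p i ^ 2 ≤ K * (η * s2) →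
            ‖((η : ℝ) : ℂ) * ∑' x, ph p (x - a) * ((‖u x‖ ^ 2 : ℝ) : ℂ) -
              ((Tg γ0 γ1 η s2 (2 * d - e) p : ℝ) : ℂ)‖ ≤ c ^ (1 / 200 : ℝ) := by
  obtain ⟨y0, h0⟩ := hEng
  obtain ⟨y2, hy2⟩ := Filter.eventually_atTop.1
    ((ev2 16 (1 / 101) (1 / 100) 1 (by norm_num)).and
    ((ev2 2 (-(1 / 180)) (-(1 / 200)) 0 (by norm_num)).and
    (ev2 (2 * K) (-(319 / 40)) (-(1 / 200)) 0 (by norm_num))))
  obtain ⟨y1, hy1⟩ : ∃ y1, y1 = max (max y0 y2) 1 := ⟨_, rfl⟩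
  refine ⟨Real.exp (-y1), Real.exp_pos _, ?_⟩
  intro c hc hc0 μ hμ hμb hμ0 s2 hs2 hvs
  obtain ⟨y, hy⟩ : ∃ y, y = Real.log (1 / c) := ⟨_, rfl⟩
  have hlogc : Real.log c = -y := by
    rw [hy, one_div, Real.log_inv, neg_neg]
  have hyy1 : y1 ≤ y := by
    have h1 := Real.log_le_log hc hc0
    rw [Real.log_exp, hlogc] at h1
    linarith
  have hyy0 : y0 ≤ y := le_trans (by rw [hy1]; exact (le_max_left _ _).trans (le_max_left _ _)) hyy1
  have hyy2 : y2 ≤ y := le_trans (by rw [hy1]; exact (le_max_right _ _).trans (le_max_left _ _))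
    hyy1
  have hyone : 1 ≤ y := le_trans (by rw [hy1]; exact le_max_right _ _) hyy1
  obtain ⟨n1, n3, n4⟩ := hy2 y hyy2
  simp only [pow_zero, mul_one, pow_one] at n1 n3 n4
  have hrp : ∀ p q : ℝ, q = -p → c ^ p = Real.exp (q * y) := by
    intro p q hpq
    rw [Real.rpow_def_of_pos hc, hlogc, hpq]
    congr 1
    ring
  have e1 : c ^ (-(1 / 101) : ℝ) = Real.exp (1 / 101 * y) := hrp _ _ (by norm_num)
  have e2 : c ^ (81 / 40 : ℝ) = Real.exp (-(81 / 40) * y) := hrp _ _ (by norm_num)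
  have e2' : c ^ (161 / 80 : ℝ) = Real.exp (-(161 / 80) * y) := hrp _ _ (by norm_num)
  have e3 : c ^ (1 / 200 : ℝ) = Real.exp (-(1 / 200) * y) := hrp _ _ (by norm_num)
  have e6 : c = Real.exp (-1 * y) := by
    rw [neg_one_mul, ← hlogc, Real.exp_log hc]
  have e7 : c ^ 2 = Real.exp (-2 * y) := by
    rw [e6, ex_pow]
    norm_num
  have e8 : Real.exp (y / 100) = Real.exp (1 / 100 * y) := by
    congr 1
    ring
  have hc1 : c ≤ 1 := by
    rw [e6]
    exact Real.exp_le_one_iff.2 (by linarith)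
  -- the rescaled law
  have hmm : Measurable fun s : ℝ => -s / c := by fun_prop
  obtain ⟨ν, hνdef⟩ : ∃ ν, ν = μ.map fun s => -s / c := ⟨_, rfl⟩
  have hνp : IsProbabilityMeasure ν := by
    rw [hνdef]
    exact Measure.isProbabilityMeasure_map hmm.aemeasurable
  have hνb : ∀ᵐ s ∂ν, |s| ≤ 1 := by
    rw [hνdef, ae_map_iff hmm.aemeasurable (measurableSet_le (by fun_prop) (by fun_prop))]
    filter_upwards [hμb] with s hs
    rw [abs_div, abs_neg, abs_of_pos hc, div_le_one hc]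
    exact hs
  have hν0 : ∫ s, s ∂ν = 0 := by
    rw [hνdef, integral_map hmm.aemeasurable (by fun_prop)]
    have h1 : (fun s : ℝ => -s / c) = fun s => (-1 / c) * s := by
      funext s
      ring
    rw [h1, integral_const_mul, hμ0, mul_zero]
  obtain ⟨Vv, hVv⟩ : ∃ Vv, Vv = s2 / c ^ 2 := ⟨_, rfl⟩
  have hν2 : ∫ s, s ^ 2 ∂ν = Vv := by
    rw [hνdef, integral_map hmm.aemeasurable (by fun_prop), hVv, ← hs2]
    have h1 : (fun s : ℝ => (-s / c) ^ 2) = fun s => (1 / c ^ 2) * s ^ 2 := by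
      funext s
      field_simp
    rw [h1, integral_const_mul]
    ring
  have hvV : v ≤ Vv := by
    rw [hVv, le_div_iff₀ (by positivity)]
    exact hvs
  have hs2V : Real.exp (-2 * y) * Vv = s2 := by
    rw [hVv, ← e7]
    field_simp
  have hs20 : 0 < s2 := lt_of_lt_of_le (by positivity) hvs
  -- the net
  obtain ⟨τ, hτ⟩ : ∃ τ, τ = Real.exp (-(81 / 40) * y) := ⟨_, rfl⟩
  obtain ⟨τ', hτ'⟩ : ∃ τ, τ = Real.exp (-(161 / 80) * y) := ⟨_, rfl⟩
  obtain ⟨ε, hε⟩ : ∃ ε, ε = Real.exp (-10 * y) := ⟨_, rfl⟩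
  have hτ0 : 0 < τ := by rw [hτ]; positivity
  have hε0 : 0 < ε := by rw [hε]; positivity
  have hττ : τ ≤ τ' := by
    rw [hτ, hτ']
    exact hexle hyone _ _ (by norm_num)
  have hετ : ε ≤ τ := by
    rw [hε, hτ]
    exact hexle hyone _ _ (by norm_num)
  have hτ1 : τ' ≤ 1 := by
    rw [hτ']
    exact Real.exp_le_one_iff.2 (by linarith)
  obtain ⟨tk, htk⟩ : ∃ tk : ℕ → ℝ, tk = fun k : ℕ => min (τ + ε * (k : ℝ)) τ' := ⟨_, rfl⟩
  have htkk : ∀ k, tk k = min (τ + ε * k) τ' := fun k => by rw [htk]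
  have htkl : ∀ k, τ ≤ tk k := by
    intro k
    rw [htkk]
    refine le_min ?_ hττ
    have : 0 ≤ ε * (k : ℝ) := by positivity
    linarith
  have htku : ∀ k, tk k ≤ τ' := by
    intro k
    rw [htkk]
    exact min_le_right _ _
  obtain ⟨Kn, hKn⟩ : ∃ Kn : ℕ, Kn = ⌈Real.exp (10 * y)⌉₊ := ⟨_, rfl⟩
  have hK1 : Real.exp (10 * y) ≤ Kn := by
    rw [hKn]
    exact Nat.le_ceil _
  have hK2 : (Kn : ℝ) + 1 ≤ Real.exp (13 * y + 2) := by
    have h1 := Nat.ceil_lt_add_one (Real.exp_pos (10 * y)).le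
    rw [← hKn] at h1
    have h2 : (1 : ℝ) ≤ Real.exp (13 * y) := Real.one_le_exp (by linarith)
    have h5 : Real.exp (10 * y) ≤ Real.exp (13 * y) := Real.exp_le_exp.2 (by linarith)
    have h3 := Real.add_one_le_exp (2 : ℝ)
    rw [Real.exp_add]
    have h4 : Real.exp (13 * y) * 3 ≤ Real.exp (13 * y) * Real.exp 2 := by
      apply mul_le_mul_of_nonneg_left _ (Real.exp_pos (13 * y)).le
      linarith only [h3]
    linarith only [h1, h2, h4, h5]
  -- the events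
  choose Gk hGm hGP hGL using fun k : ℕ => h0 y hyy0 ν hνp hνb hν0 Vv hν2 hvV (tk k)
    (by rw [← hτ]; exact htkl k) (by rw [← hτ']; exact htku k)
  rw [hs2V] at hGL
  obtain ⟨Γ, hΓ⟩ : ∃ Γ, Γ = ⋂ k ∈ Finset.range (Kn + 1), Gk k := ⟨_, rfl⟩
  have hm : MeasurableSet Γ := by
    rw [hΓ]
    exact Finset.measurableSet_biInter _ fun k _ => hGm k
  have hΓP : 1 - Real.exp (-c ^ (-(1 / 101) : ℝ)) ≤ (Measure.infinitePi fun _ : Zd d => ν).real Γ := by
    have h2 := probReal_add_probReal_compl (μ := Measure.infinitePi fun _ : Zd d => ν) hm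
    have h3 : (Measure.infinitePi fun _ : Zd d => ν).real Γᶜ ≤
        Real.exp (-c ^ (-(1 / 101) : ℝ)) := by
      have e8' : Γᶜ = ⋃ k ∈ Finset.range (Kn + 1), (Gk k)ᶜ := by
        rw [hΓ]
        simp only [Set.compl_iInter]
      rw [e8']
      have h4 : ∀ k, (Measure.infinitePi fun _ : Zd d => ν).real (Gk k)ᶜ ≤
          Real.exp (-Real.exp (1 / 100 * y)) := by
        intro k
        have h5 := probReal_add_probReal_compl (μ := Measure.infinitePi fun _ : Zd d => ν) (hGm k)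
        have h6' := hGP k
        rw [e8] at h6'
        linarith
      refine (measureReal_biUnion_finset_le _ _).trans
        ((Finset.sum_le_sum fun k _ => h4 k).trans ?_)
      rw [Finset.sum_const, Finset.card_range, nsmul_eq_mul, e1]
      push_cast
      have h7 : 13 * y + 2 + Real.exp (1 / 101 * y) ≤ Real.exp (1 / 100 * y) := by
        have h8 : (1 : ℝ) ≤ Real.exp (1 / 101 * y) := Real.one_le_exp (by linarith)
        have h9 : y * 1 ≤ y * Real.exp (1 / 101 * y) := by gcongr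
        have h10 : 1 * Real.exp (1 / 101 * y) ≤ y * Real.exp (1 / 101 * y) := by gcongr
        have h11 : 1 ≤ y * Real.exp (1 / 101 * y) := by linarith only [h8, h10]
        have h12 : 16 * y * Real.exp (1 / 101 * y) = 16 * (y * Real.exp (1 / 101 * y)) := by ring
        linarith only [h9, h10, h11, h12, n1]
      calc ((Kn : ℝ) + 1) * Real.exp (-Real.exp (1 / 100 * y)) ≤
          Real.exp (13 * y + 2) * Real.exp (-Real.exp (1 / 100 * y)) := by gcongr
        _ = Real.exp (13 * y + 2 - Real.exp (1 / 100 * y)) := by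
            rw [← Real.exp_add]
            congr 1
        _ ≤ Real.exp (-Real.exp (1 / 101 * y)) := by
            apply Real.exp_le_exp.2
            linarith only [h7]
    linarith
  -- the bounded configurations
  obtain ⟨Bd, hBd⟩ : ∃ Bd : Set (Zd d → ℝ), Bd = ⋂ x : Zd d, {ω | |ω x| ≤ c} := ⟨_, rfl⟩
  have hBm : MeasurableSet Bd := by
    rw [hBd]
    refine MeasurableSet.iInter fun x => ?_
    exact measurableSet_le (by fun_prop) measurable_const
  have hBae : ∀ᵐ ω ∂(Measure.infinitePi fun _ : Zd d => μ), ω ∈ Bd := by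
    rw [hBd]
    simp only [mem_iInter, mem_ofPred_eq]
    rw [ae_all_iff]
    intro x
    have h1 : (Measure.infinitePi fun _ : Zd d => μ).map (fun ω : Zd d → ℝ => ω x) = μ :=
      Measure.infinitePi_map_eval (fun _ : Zd d => μ) x
    have h2 : ∀ᵐ s ∂((Measure.infinitePi fun _ : Zd d => μ).map (fun ω : Zd d → ℝ => ω x)),
        |s| ≤ c := by
      rw [h1]
      exact hμb
    exact ae_of_ae_map (measurable_pi_apply x).aemeasurable h2
  have hTm : Measurable (fun (ω : Zd d → ℝ) x => -ω x / c) := by fun_prop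
  have hlaw : (Measure.infinitePi fun _ : Zd d => μ).map (fun ω x => -ω x / c) =
      Measure.infinitePi fun _ : Zd d => ν := by
    rw [hνdef]
    exact Measure.infinitePi_map_pi (μ := fun _ : Zd d => μ)
      (f := fun _ (s : ℝ) => -s / c) (fun _ => by fun_prop)
  refine ⟨(fun ω x => -ω x / c) ⁻¹' Γ ∩ Bd, (hTm hm).inter hBm, ?_, ?_⟩
  · have h1 : (Measure.infinitePi fun _ : Zd d => μ).real ((fun ω x => -ω x / c) ⁻¹' Γ) =
        (Measure.infinitePi fun _ : Zd d => ν).real Γ := by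
      rw [← hlaw, map_measureReal_apply hTm hm]
    have h2 : (Measure.infinitePi fun _ : Zd d => μ).real ((fun ω x => -ω x / c) ⁻¹' Γ ∩ Bd) =
        (Measure.infinitePi fun _ : Zd d => μ).real ((fun ω x => -ω x / c) ⁻¹' Γ) := by
      apply measureReal_congr
      filter_upwards [hBae] with ω hω
      apply propext
      constructor
      · intro h
        exact h.1
      · intro h
        exact ⟨h, hω⟩
    rw [h2, h1]
    exact hΓP
  · intro ω hω
    have hωb : ∀ x, |ω x| ≤ c := by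
      have := hω.2
      rw [hBd] at this
      exact fun x => mem_iInter.1 this x
    have hωΓ : (fun x => -ω x / c) ∈ Γ := hω.1
    have hωk : ∀ k, k ≤ Kn → (fun x => -ω x / c) ∈ Gk k := by
      intro k hk
      rw [hΓ] at hωΓ
      exact Set.mem_iInter₂.1 hωΓ k (Finset.mem_range.2 (by omega))
    refine ⟨hωb, fun a ha e he η hηl hηu u hu p hp => ?_⟩
    rw [e2, ← hτ] at hηl
    rw [e2', ← hτ'] at hηu
    have hη0 : 0 < η := hτ0.trans_le hηl
    have ha' : ‖a‖ ≤ Real.exp (Real.exp (y / 100)) := by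
      refine ha.trans (Real.exp_le_exp.2 ?_)
      rw [e1, e8]
      apply Real.exp_le_exp.2
      linarith
    have hV : ∀ x, (fun x => 2 * (d : ℝ) + ω x) x = 2 * d - Real.exp (-1 * y) * (fun x => -ω x / c) x := by
      intro x
      rw [← e6]
      field_simp
      ring
    -- the point of the net
    obtain ⟨k, hk⟩ : ∃ k : ℕ, k = ⌊(η - τ) / ε⌋₊ := ⟨_, rfl⟩
    have hq0 : 0 ≤ (η - τ) / ε := div_nonneg (by linarith) hε0.le
    have hk1 : (k : ℝ) ≤ (η - τ) / ε := by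
      rw [hk]
      exact Nat.floor_le hq0
    have hk2 : (η - τ) / ε < k + 1 := by
      rw [hk]
      exact Nat.lt_floor_add_one _
    rw [le_div_iff₀ hε0] at hk1
    rw [div_lt_iff₀ hε0] at hk2
    have hkt : tk k = τ + ε * k := by
      rw [htkk]
      apply min_eq_left
      linarith
    have hkK : k ≤ Kn := by
      have h1 : (k : ℝ) ≤ Kn := by
        have h2 : (k : ℝ) * ε ≤ 1 := by linarith
        have h3 : (k : ℝ) ≤ ε⁻¹ := by
          rw [← one_div, le_div_iff₀ hε0]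
          exact h2
        have h4 : ε⁻¹ = Real.exp (10 * y) := by
          rw [hε, ex_inv]
          norm_num
        rw [h4] at h3
        exact h3.trans hK1
      exact_mod_cast h1
    have htk1 : tk k ≤ η := by
      rw [hkt]
      linarith
    have htk2 : η ≤ tk k + ε := by
      rw [hkt]
      linarith
    have htk0 : 0 < tk k := hτ0.trans_le (htkl k)
    have h2t : η ≤ 2 * tk k := by
      have := htkl k
      linarith
    have hp2 : ∑ i, p i ^ 2 ≤ 2 * K * (tk k * s2) := by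
      refine hp.trans ?_
      calc K * (η * s2) ≤ K * (2 * tk k * s2) := by gcongr
        _ = _ := by ring
    have hlaw1 := hGL k _ (hωk k hkK) a ha' (2 * d - e) he η htk1 (by rw [← hε]; exact htk2) _ _
      (rs_LS hu _ _ _ hV) p hp2
    have e9 : (fun x => ph p (x - a) * (((-(u x).re) ^ 2 + (u x).im ^ 2 : ℝ) : ℂ)) =
        fun x => ph p (x - a) * ((‖u x‖ ^ 2 : ℝ) : ℂ) := by
      funext x
      rw [← Complex.normSq_eq_norm_sq, Complex.normSq_apply]
      congr 2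
      ring
    rw [e9] at hlaw1
    obtain ⟨q1, q2, q3⟩ := hpos _ he
    have hTd := Tg_diff γ0 γ1 (tk k) η s2 (2 * d - e) ε K p htk0 htk1 htk2 hs20 hK hp q1 q2 q3
    obtain ⟨A, hA⟩ : ∃ A, A = ((η : ℝ) : ℂ) * ∑' x, ph p (x - a) * ((‖u x‖ ^ 2 : ℝ) : ℂ) := ⟨_, rfl⟩
    rw [← hA] at hlaw1 ⊢
    have e10 : A - ((Tg γ0 γ1 η s2 (2 * d - e) p : ℝ) : ℂ) =
        (A - ((Tg γ0 γ1 (tk k) s2 (2 * d - e) p : ℝ) : ℂ)) +
        ((Tg γ0 γ1 (tk k) s2 (2 * d - e) p - Tg γ0 γ1 η s2 (2 * d - e) p : ℝ) : ℂ) := by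
      push_cast
      ring
    rw [e10]
    have h5 : K * (ε * (tk k)⁻¹) ≤ K * Real.exp (-(319 / 40) * y) := by
      have h6 : (tk k)⁻¹ ≤ τ⁻¹ := inv_anti₀ hτ0 (htkl k)
      calc K * (ε * (tk k)⁻¹) ≤ K * (ε * τ⁻¹) := by gcongr
        _ = _ := by
          rw [hε, hτ, ex_inv, ex_mul]
          norm_num
    refine (norm_add_le _ _).trans ?_
    rw [Complex.norm_real, Real.norm_eq_abs, e3]
    linarith

end Pool.Agent.TH794.HK
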