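import Pool.Agent.TH794.HK.ParK
import Pool.Agent.TH794.HK.FinK
import Pool.Agent.TH794.QE.FinC

/-! The characteristic function of the resolvent in every dimension. -/

set_option autoImplicit false
set_option linter.unusedSectionVars false

open scoped BigOperators Topology
open MeasureTheory Filter Set

namespace Pool.Agent.TH794.HK

open Pool.Agent.W788.BK
open Pool.Agent.H4R2.LO (Zd)
open Pool.Agent.W788.BK.Num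
open Pool.Agent.TH794.QD
open Pool.Agent.TH794.QE
open Pool.Agent.TH311.LL2D (Bu Bu.near)

theorem low_lim (d : ℕ) (hd : 2 ≤ d) (κ : ℝ) (hκ : 0 < κ) (hκ1 : κ ≤ 1) (γ1 : ℝ → ℂ)
    (h1 : ∀ E, RegE d κ E →
      Tendsto (fun t : ℝ => GF (F1 d) ((E : ℂ) + (t : ℂ) * Complex.I)) (𝓝[>] 0) (𝓝 (γ1 E))) :
    ∃ m : ℝ, 0 < m ∧ ∀ E, RegE d κ E → |E| ≤ 2 * d - κ → m ≤ (γ1 E).im := by
  obtain ⟨m, hm, hl⟩ := low_all d hd κ hκ hκ1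
  refine ⟨m, hm, fun E hE hE2 => ?_⟩
  have l1 := (Complex.continuous_im.tendsto _).comp (h1 E hE)
  have hmem : Set.Ioc (0 : ℝ) 1 ∈ 𝓝[>] (0 : ℝ) := Ioc_mem_nhdsGT one_pos
  refine ge_of_tendsto l1 ?_
  filter_upwards [hmem] with t ht
  exact hl E t hE2 ht.1 ht.2

/-- the engine in every dimension -/
theorem engK_all (hES : S_ES) (hTH : S_THIRD) (hFL : S_FLUCT) (hIN : S_INV)
    (hSU : S_SUP) (hQB : S_QB) (hLO : S_LOW) (hAD : S_ADM) (hFA : S_FAC) (hO : S_OSC)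
    (d : ℕ) (hd : 2 ≤ d) : ∃ γ0 γ1 : ℝ → ℂ, ∀ κ : ℝ, 0 < κ → κ ≤ 1 →
    (∀ E, RegE d κ E →
      Tendsto (fun t : ℝ => GF (F0 d) ((E : ℂ) + (t : ℂ) * Complex.I)) (𝓝[>] 0) (𝓝 (γ0 E)) ∧
      Tendsto (fun t : ℝ => GF (F1 d) ((E : ℂ) + (t : ℂ) * Complex.I)) (𝓝[>] 0) (𝓝 (γ1 E)) ∧
      0 ≤ (γ1 E).im ∧ (γ1 E).im ≤ (γ0 E).im) ∧
    (∃ m : ℝ, 0 < m ∧ ∀ E, RegE d κ E → |E| ≤ 2 * d - κ → m ≤ (γ1 E).im) ∧
    ∀ b v Kp : ℝ, 0 < b → 0 < v → 0 ≤ Kp →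
      EngK d (fun E => RegE d κ E ∧ |E| ≤ 2 * d - κ) γ0 γ1 b v Kp := by
  by_cases h2 : d = 2
  · subst h2
    refine ⟨bvl (F0 2), bvl (F1 2), fun κ hκ hκ1 => ?_⟩
    have hB : ∀ E, RegE 2 κ E → Bu κ E := by
      intro E hE
      rcases hE with h | h
      · exact h.2
      · exact absurd h.1 (by norm_num)
    have hR : ∀ E, RegE 2 κ E →
      Tendsto (fun t : ℝ => GF (F0 2) ((E : ℂ) + (t : ℂ) * Complex.I)) (𝓝[>] 0)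
        (𝓝 (bvl (F0 2) E)) ∧
      Tendsto (fun t : ℝ => GF (F1 2) ((E : ℂ) + (t : ℂ) * Complex.I)) (𝓝[>] 0)
        (𝓝 (bvl (F1 2) E)) ∧
      0 ≤ (bvl (F1 2) E).im ∧ (bvl (F1 2) E).im ≤ (bvl (F0 2) E).im := by
      intro E hE
      have h1 := bvl_im κ hκ hκ1 E (hB E hE)
      exact ⟨(holS0 κ hκ hκ1).bv E (hB E hE), (holS1 κ hκ hκ1).bv E (hB E hE), h1.1, h1.2⟩
    obtain ⟨m, hm, hl⟩ := low_lim 2 hd κ hκ hκ1 (bvl (F1 2)) fun E hE => (hR E hE).2.1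
    refine ⟨hR, ⟨m, hm, hl⟩, fun b v Kp hb hv hKp => ?_⟩
    obtain ⟨ka, hka⟩ : ∃ ka, ka = κ / 3 := ⟨_, rfl⟩
    have hka0 : 0 < ka := by rw [hka]; positivity
    have hka1 : ka ≤ 1 := by rw [hka]; linarith
    have hCHge := Pool.Agent.TH311.LL2D.CH_ge ka
    have hdat := dat2 ka hka0 hka1
    have e1 : (11 / 10 : ℝ) = 11 / (5 * ((2 : ℕ) : ℝ)) := by norm_num
    rw [e1] at hdat
    obtain ⟨y0, h0⟩ := engineK hES hTH hFL hIN hSU hLO hAD hFA 2 hd (Bu ka) (Bu (2 * ka))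
      (fun E => RegE 2 κ E ∧ |E| ≤ 2 * ((2 : ℕ) : ℝ) - κ) 1700 (2 * (2600000 / ka ^ 3))
      (2 * Pool.Agent.TH311.LL2D.CH ka) (bvl (F0 2)) (bvl (F1 2)) hdat (by norm_num)
      (by positivity) (by linarith) ka hka0
      (fun E hE => by
        have hE3 : Bu (3 * ka) E := by
          have e3 : 3 * ka = κ := by rw [hka]; ring
          rw [e3]
          exact hB E hE.1
        refine ⟨?_, hE3.near (r := 0) (by simp) (by linarith), fun x hx => hE3.near hx (by linarith)⟩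
        have := hE.2
        push_cast at this ⊢
        linarith)
      (fun E x hE hx => by
        rw [abs_sub_comm] at hx
        exact hE.near hx (by linarith))
      b v (m / 2) Kp hb hv (by positivity) hKp
      (fun E hE => by
        have h1 := hl E hE.1 hE.2
        have h2 := (hR E hE.1).2.2.2
        linarith)
    exact ⟨y0, h0⟩
  · have hd3 : 3 ≤ d := by omega
    refine ⟨fun E => GF (F0 d) (E : ℂ), fun E => GF (F1 d) (E : ℂ), fun κ hκ hκ1 => ?_⟩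
    have hR : ∀ E : ℝ, RegE d κ E →
      Tendsto (fun t : ℝ => GF (F0 d) ((E : ℂ) + (t : ℂ) * Complex.I)) (𝓝[>] 0)
        (𝓝 (GF (F0 d) (E : ℂ))) ∧
      Tendsto (fun t : ℝ => GF (F1 d) ((E : ℂ) + (t : ℂ) * Complex.I)) (𝓝[>] 0)
        (𝓝 (GF (F1 d) (E : ℂ))) ∧
      0 ≤ (GF (F1 d) (E : ℂ)).im ∧ (GF (F1 d) (E : ℂ)).im ≤ (GF (F0 d) (E : ℂ)).im := by
      intro E _
      have h1 := GF_im hO d hd3 (E : ℂ) (by simp)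
      exact ⟨lim3 _ _ (hol0 hO d hd3) E, lim3 _ _ (hol1 hO d hd3) E, h1.1, h1.2⟩
    obtain ⟨m, hm, hl⟩ := low_lim d hd κ hκ hκ1 (fun E => GF (F1 d) (E : ℂ))
      fun E hE => (hR E hE).2.1
    refine ⟨hR, ⟨m, hm, hl⟩, fun b v Kp hb hv hKp => ?_⟩
    obtain ⟨CQ, hCQ, hdat⟩ := dat3 hQB hO d hd3
    obtain ⟨y0, h0⟩ := engineK hES hTH hFL hIN hSU hLO hAD hFA d hd (fun _ => True)
      (fun _ => True) (fun E => RegE d κ E ∧ |E| ≤ 2 * d - κ) C1 CQ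
      (Pool.Agent.TH794.QD.CH d) (fun E => GF (F0 d) (E : ℂ)) (fun E => GF (F1 d) (E : ℂ)) hdat
      C1_ge hCQ (CH_nonneg d) 1 one_pos
      (fun E hE => by
        refine ⟨?_, trivial, fun x hx => trivial⟩
        rcases hE.1 with h | h
        · exact absurd h.1 h2
        · exact h.2)
      (fun E x hE hx => trivial)
      b v (m / 2) Kp hb hv (by positivity) hKp
      (fun E hE => by
        have h1 := hl E hE.1 hE.2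
        have h2 := (hR E hE.1).2.2.2
        linarith)
    exact ⟨y0, h0⟩

/-- **the profile of the resolvent, every dimension** -/
theorem finM (hES : S_ES) (hTH : S_THIRD) (hFL : S_FLUCT) (hIN : S_INV)
    (hSU : S_SUP) (hQB : S_QB) (hLO : S_LOW) (hAD : S_ADM) (hFA : S_FAC) (hO : S_OSC)
    (d : ℕ) (hd : 2 ≤ d) : ∃ γ0 γ1 : ℝ → ℂ, ∀ κ : ℝ, 0 < κ → κ ≤ 1 →
    (∀ E, RegE d κ E →
      Tendsto (fun t : ℝ => GF (F0 d) ((E : ℂ) + (t : ℂ) * Complex.I)) (𝓝[>] 0) (𝓝 (γ0 E)) ∧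
      Tendsto (fun t : ℝ => GF (F1 d) ((E : ℂ) + (t : ℂ) * Complex.I)) (𝓝[>] 0) (𝓝 (γ1 E)) ∧
      0 ≤ (γ1 E).im ∧ (γ1 E).im ≤ (γ0 E).im) ∧
    (∃ m : ℝ, 0 < m ∧ ∀ E, RegE d κ E → |E| ≤ 2 * d - κ → m ≤ (γ1 E).im) ∧
    ∀ v K : ℝ, 0 < v → 0 ≤ K → ∃ c0 : ℝ, 0 < c0 ∧ ∀ c : ℝ, 0 < c → c ≤ c0 →
    ∀ (μ : Measure ℝ), IsProbabilityMeasure μ → (∀ᵐ s ∂μ, |s| ≤ c) → ∫ s, s ∂μ = 0 →
    ∀ s2 : ℝ, ∫ s, s ^ 2 ∂μ = s2 → v * c ^ 2 ≤ s2 →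
      ∃ G : Set (Zd d → ℝ), MeasurableSet G ∧
        1 - Real.exp (-c ^ (-(1 / 101) : ℝ)) ≤
          (Measure.infinitePi fun _ : Zd d => μ).real G ∧
        ∀ ω ∈ G, (∀ x, |ω x| ≤ c) ∧
          ∀ a : Zd d, ‖a‖ ≤ Real.exp (c ^ (-(1 / 101) : ℝ)) →
          ∀ e : ℝ, (RegE d κ (2 * d - e) ∧ |2 * (d : ℝ) - e| ≤ 2 * d - κ) →
          ∀ η : ℝ, c ^ (81 / 40 : ℝ) ≤ η → η ≤ c ^ (161 / 80 : ℝ) →
          ∀ u : Zd d → ℂ, Rs d (fun x => 2 * d + ω x) a e η u →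
          ∀ p : Fin d → ℝ, ∑ i, p i ^ 2 ≤ K * (η * s2) →
            ‖((η : ℝ) : ℂ) * ∑' x, ph p (x - a) * ((‖u x‖ ^ 2 : ℝ) : ℂ) -
              ((Tg γ0 γ1 η s2 (2 * d - e) p : ℝ) : ℂ)‖ ≤ c ^ (1 / 200 : ℝ) := by
  obtain ⟨γ0, γ1, h⟩ := engK_all hES hTH hFL hIN hSU hQB hLO hAD hFA hO d hd
  refine ⟨γ0, γ1, fun κ hκ hκ1 => ?_⟩
  obtain ⟨h1, ⟨m, hm, h2⟩, h3⟩ := h κ hκ hκ1
  refine ⟨h1, ⟨m, hm, h2⟩, fun v K hv hK => ?_⟩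
  exact finK d (fun E => RegE d κ E ∧ |E| ≤ 2 * d - κ) γ0 γ1 v K hv hK
    (h3 1 v (2 * K) one_pos hv (by positivity)) fun E hE => by
      obtain ⟨-, -, h5, h6⟩ := h1 E hE.1
      have h7 := h2 E hE.1 hE.2
      exact ⟨by linarith, h5, h6⟩

end Pool.Agent.TH794.HK
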