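import Pool.Agent.TH794.HK.FinL
import Pool.Agent.TH794.HK.FinM

/-! The characteristic function of the resolvent in dimension at least three, at weak coupling. -/

set_option autoImplicit false
set_option linter.unusedSectionVars false

open scoped BigOperators Topology
open MeasureTheory Filter Set

namespace Pool.Agent.TH794.HK

open Pool.Agent.W788.BK
open Pool.Agent.H4R2.LO (Zd)
open Pool.Agent.W788.BK.Num
open Pool.Agent.TH794.QD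
open Pool.Agent.TH794.QE

/-- the engine in dimension at least three -/
theorem engK3 (hES : S_ES) (hTH : S_THIRD) (hFL : S_FLUCT) (hIN : S_INV)
    (hSU : S_SUP) (hQB : S_QB) (hLO : S_LOW) (hAD : S_ADM) (hFA : S_FAC) (hO : S_OSC)
    (d : ℕ) (hd : 3 ≤ d) (κ : ℝ) (hκ : 0 < κ) (hκ1 : κ ≤ 1) :
    (∃ m : ℝ, 0 < m ∧ ∀ E : ℝ, |E| ≤ 2 * d - κ → m ≤ (GF (F1 d) (E : ℂ)).im ∧
      (GF (F1 d) (E : ℂ)).im ≤ (GF (F0 d) (E : ℂ)).im) ∧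
    ∀ b v Kp : ℝ, 0 < b → 0 < v → 0 ≤ Kp →
      EngK d (fun E => |E| ≤ 2 * d - κ) (fun E => GF (F0 d) (E : ℂ))
        (fun E => GF (F1 d) (E : ℂ)) b v Kp := by
  have hd0 : (0 : ℝ) ≤ d := Nat.cast_nonneg d
  have hreg : ∀ E : ℝ, |E| ≤ 2 * d - κ → RegE d κ E := fun E hE => Or.inr ⟨hd, by linarith⟩
  obtain ⟨m, hm, hl⟩ := low_lim d (by omega) κ hκ hκ1 (fun E => GF (F1 d) (E : ℂ))
    fun E _ => lim3 _ _ (hol1 hO d hd) E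
  refine ⟨⟨m, hm, fun E hE => ⟨hl E (hreg E hE) hE, (GF_im hO d hd (E : ℂ) (by simp)).2⟩⟩,
    fun b v Kp hb hv hKp => ?_⟩
  obtain ⟨CQ, hCQ, hdat⟩ := dat3 hQB hO d hd
  obtain ⟨y0, h0⟩ := engineK hES hTH hFL hIN hSU hLO hAD hFA d (by omega) (fun _ => True)
    (fun _ => True) (fun E => |E| ≤ 2 * d - κ) C1 CQ
    (Pool.Agent.TH794.QD.CH d) (fun E => GF (F0 d) (E : ℂ)) (fun E => GF (F1 d) (E : ℂ)) hdat
    C1_ge hCQ (CH_nonneg d) 1 one_pos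
    (fun E hE => ⟨by linarith, trivial, fun x hx => trivial⟩)
    (fun E x hE hx => trivial)
    b v (m / 2) Kp hb hv (by positivity) hKp
    (fun E hE => by
      have h1 := hl E (hreg E hE) hE
      have h2 := (GF_im hO d hd (E : ℂ) (by simp)).2
      linarith)
  exact ⟨y0, h0⟩

/-- **the profile of the resolvent in dimension at least three** -/
theorem finN (hES : S_ES) (hTH : S_THIRD) (hFL : S_FLUCT) (hIN : S_INV)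
    (hSU : S_SUP) (hQB : S_QB) (hLO : S_LOW) (hAD : S_ADM) (hFA : S_FAC) (hO : S_OSC)
    (d : ℕ) (hd : 3 ≤ d) (κ : ℝ) (hκ : 0 < κ) (hκ1 : κ ≤ 1) :
    (∃ m : ℝ, 0 < m ∧ ∀ E : ℝ, |E| ≤ 2 * d - κ → m ≤ (GF (F1 d) (E : ℂ)).im ∧
      (GF (F1 d) (E : ℂ)).im ≤ (GF (F0 d) (E : ℂ)).im) ∧
    ∀ b v K : ℝ, 0 < b → 0 < v → 0 ≤ K → ∃ c0 : ℝ, 0 < c0 ∧ ∀ c : ℝ, 0 < c → c ≤ c0 →
    ∀ (μ : Measure ℝ), IsProbabilityMeasure μ → (∀ᵐ s ∂μ, |s| ≤ b) →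
    ∀ Mn V : ℝ, ∫ s, s ∂μ = Mn → ∫ s, (s - Mn) ^ 2 ∂μ = V → v ≤ V →
      ∃ G : Set (Zd d → ℝ), MeasurableSet G ∧
        1 - Real.exp (-c ^ (-(1 / 101) : ℝ)) ≤
          (Measure.infinitePi fun _ : Zd d => μ).real G ∧
        ∀ ω ∈ G, (∀ x, |ω x| ≤ b) ∧
          ∀ a : Zd d, ‖a‖ ≤ Real.exp (c ^ (-(1 / 101) : ℝ)) →
          ∀ e : ℝ, |2 * d + c * Mn - e| ≤ 2 * d - κ → ∀ η : ℝ, c ^ (81 / 40 : ℝ) ≤ η →
          η ≤ c ^ (161 / 80 : ℝ) →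
          ∀ u : Zd d → ℂ, Rs d (fun x => 2 * d + c * ω x) a e η u →
          ∀ p : Fin d → ℝ, ∑ i, p i ^ 2 ≤ K * (η * (c ^ 2 * V)) →
            ‖((η : ℝ) : ℂ) * ∑' x, ph p (x - a) * ((‖u x‖ ^ 2 : ℝ) : ℂ) -
              ((Tg (fun E => GF (F0 d) (E : ℂ)) (fun E => GF (F1 d) (E : ℂ)) η (c ^ 2 * V)
                (2 * d + c * Mn - e) p : ℝ) : ℂ)‖ ≤ c ^ (1 / 200 : ℝ) := by
  obtain ⟨⟨m, hm, hl⟩, h3⟩ := engK3 hES hTH hFL hIN hSU hQB hLO hAD hFA hO d hd κ hκ hκ1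
  refine ⟨⟨m, hm, hl⟩, fun b v K hb hv hK => ?_⟩
  exact finL d (fun E => |E| ≤ 2 * d - κ) _ _ b v K hb hv hK
    (h3 (2 * b) v (2 * K) (by positivity) hv (by positivity)) fun E hE => by
      obtain ⟨h5, h6⟩ := hl E hE
      exact ⟨by linarith, by linarith, h6⟩

end Pool.Agent.TH794.HK
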