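import Pool.Agent.TH794.HK.MeanK
import Pool.Agent.TH794.QD.Site6

/-! Comparison of the characteristic function with the twisted chain. -/

set_option autoImplicit false
set_option linter.unusedSectionVars false

open scoped BigOperators Matrix
open MeasureTheory

namespace Pool.Agent.TH794.HK

open Pool.Agent.TH794.QD
open Pool.Agent.W788.BK
open Pool.Agent.W788.MFP.Four
open Pool.Agent.TH794.FG
open Pool.Agent.TH794.LL2 (nn nn_nonneg nn_sq nn_add nn_sub nn_le fc Bq Bq_nonneg sum_fc_one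
  XN nn_inv nsq_mulr)

variable {d L : ℕ} [NeZero L]

/-- Parseval -/
theorem pars (a b : T d L → ℂ) :
    ∑ k, (starRingEnd ℂ) (∑ x, a x * e k x) * (∑ y, b y * e k y) =
      (NN d L : ℂ) * ∑ x, (starRingEnd ℂ) (a x) * b x := by
  have h2 : ∀ k, (starRingEnd ℂ) (∑ x, a x * e k x) * (∑ y, b y * e k y) =
      ∑ x, ∑ y, ((starRingEnd ℂ) (a x) * b y) * e k (y - x) := by
    intro k
    rw [map_sum, Finset.sum_mul_sum]
    refine Finset.sum_congr rfl fun x _ => Finset.sum_congr rfl fun y _ => ?_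
    rw [map_mul, ← e_neg, sub_eq_add_neg, e_add]
    ring
  simp only [h2]
  rw [Finset.sum_comm, Finset.mul_sum]
  refine Finset.sum_congr rfl fun x _ => ?_
  rw [Finset.sum_comm]
  have h4 : ∀ y, ∑ k, ((starRingEnd ℂ) (a x) * b y) * e k (y - x) =
      if y = x then (NN d L : ℂ) * ((starRingEnd ℂ) (a x) * b x) else 0 := by
    intro y
    rw [← Finset.mul_sum, sum_e]
    by_cases hxy : y = x
    · rw [if_pos hxy, hxy, sub_self, if_pos rfl]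
      ring
    · rw [if_neg hxy, if_neg, mul_zero]
      intro h
      exact hxy (sub_eq_zero.1 h)
  rw [Finset.sum_congr rfl fun y _ => h4 y, Finset.sum_ite_eq' Finset.univ x,
    if_pos (Finset.mem_univ _)]

/-- the characteristic function of the position on the torus -/
noncomputable def chiT (P0 : T d L) (vr vi : T d L → ℝ) : ℂ :=
  ∑ x, e P0 x * ((vr x ^ 2 + vi x ^ 2 : ℝ) : ℂ)

theorem chi_fc (P0 : T d L) (vr vi : T d L → ℝ) :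
    ∑ k, (starRingEnd ℂ) (fc vr vi k) * fc vr vi (k + P0) = (NN d L : ℂ) * chiT P0 vr vi := by
  have h1 : ∀ k, fc vr vi k = ∑ x, ((vr x : ℂ) + Complex.I * (vi x : ℂ)) * e k x := by
    intro k
    unfold fc ft
    rw [Finset.mul_sum, ← Finset.sum_add_distrib]
    exact Finset.sum_congr rfl fun x _ => by ring
  have h2 : ∀ k, fc vr vi (k + P0) =
      ∑ x, (e P0 x * ((vr x : ℂ) + Complex.I * (vi x : ℂ))) * e k x := by
    intro k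
    rw [h1]
    refine Finset.sum_congr rfl fun x _ => ?_
    rw [e_add_left]
    ring
  simp only [h2]
  simp only [h1]
  rw [pars]
  congr 1
  unfold chiT
  refine Finset.sum_congr rfl fun x _ => ?_
  simp only [map_add, map_mul, Complex.conj_ofReal, Complex.conj_I]
  have hI := Complex.I_sq
  push_cast
  linear_combination (-(e P0 x * (vi x : ℂ) ^ 2)) * hI

/-- the form of the twist -/
theorem TS_form (E δ : ℝ) (P0 : T d L) (φ : T d L → ℂ) :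
    star φ ⬝ᵥ (TS E δ P0 *ᵥ φ) =
      ∑ k, (starRingEnd ℂ) (φ k) * (((δ * wt E δ P0 k : ℝ) : ℂ) * φ (k + P0)) := by
  unfold dotProduct
  refine Finset.sum_congr rfl fun k _ => ?_
  rw [TS_mulVec, Pi.star_apply]
  rfl

theorem TS_chi (E δ : ℝ) (hδ : 0 < δ) (P0 : T d L) (vr vi : T d L → ℝ) :
    star (fun k => (Real.sqrt (JJ E δ k) : ℂ) * fc vr vi k) ⬝ᵥ
      (TS E δ P0 *ᵥ (fun k => (Real.sqrt (JJ E δ k) : ℂ) * fc vr vi k)) =
      ((δ * NN d L : ℝ) : ℂ) * chiT P0 vr vi := by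
  rw [TS_form]
  have e1 : ((δ * NN d L : ℝ) : ℂ) * chiT P0 vr vi =
      (δ : ℂ) * ((NN d L : ℂ) * chiT P0 vr vi) := by
    push_cast
    ring
  rw [e1, ← chi_fc, Finset.mul_sum]
  refine Finset.sum_congr rfl fun k _ => ?_
  have hk : ((Real.sqrt (JJ E δ k) : ℝ) : ℂ) ≠ 0 := by
    exact_mod_cast (Real.sqrt_pos.2 (Pool.Agent.W788.BK.JJ_pos E δ hδ k)).ne'
  have hk2 : ((Real.sqrt (JJ E δ (k + P0)) : ℝ) : ℂ) ≠ 0 := by
    exact_mod_cast (Real.sqrt_pos.2 (Pool.Agent.W788.BK.JJ_pos E δ hδ (k + P0))).ne'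
  unfold wt
  rw [map_mul, Complex.conj_ofReal]
  push_cast
  field_simp

/-- **comparison** -/
theorem compK (E δ θ η κ g1 ρ τ : ℝ) (P0 : T d L) (hδ : 0 < δ) (hη : 0 < η) (hκ : 0 < κ)
    (hκ2 : κ ≤ 1 / 2)
    {V vr vi rr ri : T d L → ℝ}
    (h : Sol3 E (η * δ) V (Pi.single 0 1) (fun _ => 0) vr vi rr ri)
    (hg : ∑ k : T d L, (JJ E δ k)⁻¹ ≤ g1 * NN d L) (hg0 : 0 ≤ g1)
    (hf : ∀ w : T d L → ℝ, |∑ x, V x * w x ^ 2| ≤ κ * q (JJ E δ) w)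
    (hρ : Real.sqrt (Bq rr ri) ≤ ρ) (hτ : 0 ≤ τ)
    (hU : ∀ x : T d L, |∑ y : T d L, V y * K (fun Q => 1 - hi θ Q) (x - y)| ≤ τ)
    (B Kf s : ℝ) (hρ0 : 0 ≤ ρ)
    (hB : Real.sqrt (Bq vr vi) ≤ B)
    (hFK : FS E δ θ η (Pi.single 0 1) (fun _ => 0) V ≤ Kf)
    (hs : s = (Real.sqrt η)⁻¹ * ((Real.sqrt δ)⁻¹ * (ρ + τ * B) + η * (2 * Real.sqrt g1 +
      2 * (κ + η) * (Real.sqrt δ * B) + 2 * ((Real.sqrt δ)⁻¹ * ρ)))) :
    ‖((η * δ : ℝ) : ℂ) * chiT P0 vr vi - FP E δ θ η P0 V‖ ≤ 2 * Real.sqrt Kf * s + s ^ 2 := by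
  have hX := Pool.Agent.W363.BK.D0_herm (d := d) (L := L) E δ
  have hA := fun y => Pool.Agent.W363.BK.AA_herm (d := d) (L := L) E δ θ y
  have hN := NN_pos (d := d) (L := L)
  have hsN : 0 < Real.sqrt (NN d L) := Real.sqrt_pos.2 hN
  have hsη : 0 < Real.sqrt η := Real.sqrt_pos.2 hη
  obtain ⟨R, hR⟩ : ∃ R, R = RR (D0 (d := d) (L := L) E δ) (AA E δ θ) η V := ⟨_, rfl⟩
  have hRn : ∀ w : T d L → ℂ, nn (R *ᵥ w) ≤ η⁻¹ * nn w := by
    intro w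
    apply nn_le _ _ (mul_nonneg (inv_nonneg.2 hη.le) (nn_nonneg _))
    rw [mul_pow, nn_sq, hR, inv_pow]
    exact RR_bd hX hA hη V w
  have hg' : ∑ k : T d L, (JJ E δ k)⁻¹ * ‖fc (Pi.single 0 1) (fun _ => 0) k‖ ^ 2 ≤
      g1 * NN d L := by
    simp only [fc_single, norm_one, one_pow, mul_one]
    exact hg
  obtain ⟨ψ, hφ, hψ, _⟩ := solR E δ θ η κ g1 ρ τ hδ hη hκ hκ2 h hg' hg0 hf hρ hτ hU
  rw [wf_single, ← hR] at hφ
  obtain ⟨φ, hφd⟩ : ∃ φ : T d L → ℂ, φ = fun k => (Real.sqrt (JJ E δ k) : ℂ) * fc vr vi k :=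
    ⟨_, rfl⟩
  rw [← hφd] at hφ
  have hB0 : 0 ≤ B := (Real.sqrt_nonneg _).trans hB
  obtain ⟨s1, hs1⟩ : ∃ s1, s1 = (Real.sqrt δ)⁻¹ * (ρ + τ * B) + η * (2 * Real.sqrt g1 +
      2 * (κ + η) * (Real.sqrt δ * B) + 2 * ((Real.sqrt δ)⁻¹ * ρ)) := ⟨_, rfl⟩
  have hs10 : 0 ≤ s1 := by rw [hs1]; positivity
  rw [← hs1] at hs
  have hψ' : nn ψ ≤ Real.sqrt (NN d L) * s1 := by
    refine hψ.trans ?_
    rw [hs1]
    gcongr
  -- the vectors
  obtain ⟨y0, hy0⟩ : ∃ y0, y0 = R *ᵥ w0 (d := d) (L := L) E δ := ⟨_, rfl⟩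
  obtain ⟨u, hu⟩ : ∃ u : T d L → ℂ, u = ((Real.sqrt (NN d L) : ℝ) : ℂ) • y0 := ⟨_, rfl⟩
  obtain ⟨w, hw⟩ : ∃ w, w = R *ᵥ ψ := ⟨_, rfl⟩
  have hφu : φ = u + w := by
    rw [hφ, Matrix.mulVec_add, Matrix.mulVec_smul, hu, hy0, hw]
  have hwn : nn w ≤ Real.sqrt (NN d L) * (s / Real.sqrt η) := by
    rw [hw]
    refine (hRn ψ).trans ?_
    have e1 : s / Real.sqrt η = η⁻¹ * s1 := by
      have e2 : η = Real.sqrt η * Real.sqrt η := (Real.mul_self_sqrt hη.le).symm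
      rw [hs]
      nth_rewrite 3 [e2]
      field_simp
    rw [e1]
    calc η⁻¹ * nn ψ ≤ η⁻¹ * (Real.sqrt (NN d L) * s1) := by gcongr
      _ = _ := by ring
  have hy0n : nn y0 ≤ Real.sqrt (Kf / η) := by
    have e1 := (ward hX hA hη V (w0 (d := d) (L := L) E δ)).1
    rw [← hR, ← hy0] at e1
    have e2 : FS E δ θ η (Pi.single 0 1) (fun _ => 0) V = η * nsq y0 := by
      rw [← e1]
      unfold FS
      rw [wf_single, hy0, hR]
    rw [e2] at hFK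
    unfold nn
    apply Real.sqrt_le_sqrt
    rw [le_div_iff₀ hη]
    linarith
  have hun : nn u ≤ Real.sqrt (NN d L) * Real.sqrt (Kf / η) := by
    rw [hu, nn_smul', Complex.norm_real, Real.norm_of_nonneg hsN.le]
    gcongr
  have hTn : ∀ w : T d L → ℂ, nn (TS E δ P0 *ᵥ w) ≤ nn w := by
    intro w
    apply nn_le _ _ (nn_nonneg _)
    rw [nn_sq]
    exact TS_nsq E δ hδ P0 w
  -- the identities
  have i1 : ((η * δ : ℝ) : ℂ) * chiT P0 vr vi =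
      ((η * (NN d L)⁻¹ : ℝ) : ℂ) * (star φ ⬝ᵥ (TS E δ P0 *ᵥ φ)) := by
    rw [hφd, TS_chi E δ hδ P0]
    have hNc : ((NN d L : ℝ) : ℂ) ≠ 0 := by exact_mod_cast hN.ne'
    push_cast
    field_simp
  have i2 : FP E δ θ η P0 V = ((η * (NN d L)⁻¹ : ℝ) : ℂ) * (star u ⬝ᵥ (TS E δ P0 *ᵥ u)) := by
    have e2 : BT E δ θ η P0 V 0 1 = (RR (D0 E δ) (AA (d := d) (L := L) E δ θ) η V)ᴴ *
        ((η : ℂ) • TS E δ P0) * RR (D0 E δ) (AA (d := d) (L := L) E δ θ) η V := rfl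
    unfold FP
    rw [e2, ← hR]
    have e3 : star (w0 (d := d) (L := L) E δ) ⬝ᵥ ((Rᴴ * ((η : ℂ) • TS E δ P0) * R) *ᵥ w0 E δ) =
        star (R *ᵥ w0 (d := d) (L := L) E δ) ⬝ᵥ (((η : ℂ) • TS E δ P0) *ᵥ (R *ᵥ w0 E δ)) := by
      rw [mul_assoc, ← Matrix.mulVec_mulVec, adjoint, Matrix.conjTranspose_conjTranspose,
        Matrix.mulVec_mulVec]
    rw [e3, ← hy0, Matrix.smul_mulVec, dotProduct_smul, smul_eq_mul, hu, Matrix.mulVec_smul,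
      star_smul, smul_dotProduct, dotProduct_smul, smul_eq_mul, smul_eq_mul]
    have hNc : ((NN d L : ℝ) : ℂ) ≠ 0 := by exact_mod_cast hN.ne'
    have e4 : star ((Real.sqrt (NN d L) : ℝ) : ℂ) = ((Real.sqrt (NN d L) : ℝ) : ℂ) :=
      Complex.conj_ofReal _
    have e5 : ((Real.sqrt (NN d L) : ℝ) : ℂ) * ((Real.sqrt (NN d L) : ℝ) : ℂ) =
        ((NN d L : ℝ) : ℂ) := by
      rw [← Complex.ofReal_mul, Real.mul_self_sqrt hN.le]
    rw [e4]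
    generalize star y0 ⬝ᵥ (TS E δ P0 *ᵥ y0) = X
    calc (η : ℂ) * X = ((η : ℂ) * ((NN d L : ℝ) : ℂ)⁻¹) * (((NN d L : ℝ) : ℂ) * X) := by
          field_simp
      _ = ((η : ℂ) * ((NN d L : ℝ) : ℂ)⁻¹) *
          ((((Real.sqrt (NN d L) : ℝ) : ℂ) * ((Real.sqrt (NN d L) : ℝ) : ℂ)) * X) := by
          rw [e5]
      _ = _ := by
          push_cast
          ring
  have i3 : star φ ⬝ᵥ (TS E δ P0 *ᵥ φ) - star u ⬝ᵥ (TS E δ P0 *ᵥ u) =
      star u ⬝ᵥ (TS E δ P0 *ᵥ w) + star w ⬝ᵥ (TS E δ P0 *ᵥ u) + star w ⬝ᵥ (TS E δ P0 *ᵥ w) := by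
    rw [hφu, star_add, Matrix.mulVec_add, add_dotProduct, dotProduct_add, dotProduct_add]
    ring
  rw [i1, i2, ← mul_sub, i3, norm_mul, Complex.norm_real,
    Real.norm_of_nonneg (by positivity : 0 ≤ η * (NN d L)⁻¹)]
  have cs : ∀ a b : T d L → ℂ, ‖star a ⬝ᵥ (TS E δ P0 *ᵥ b)‖ ≤ nn a * nn b := by
    intro a b
    refine (cs_norm _ _).trans ?_
    exact mul_le_mul_of_nonneg_left (hTn b) (nn_nonneg _)
  obtain ⟨x1, hx1⟩ : ∃ x1, x1 = Real.sqrt (NN d L) * Real.sqrt (Kf / η) := ⟨_, rfl⟩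
  obtain ⟨x2, hx2⟩ : ∃ x2, x2 = Real.sqrt (NN d L) * (s / Real.sqrt η) := ⟨_, rfl⟩
  rw [← hx1] at hun
  rw [← hx2] at hwn
  have hx10 : 0 ≤ x1 := (nn_nonneg _).trans hun
  have hx20 : 0 ≤ x2 := (nn_nonneg _).trans hwn
  have hsum : ‖star u ⬝ᵥ (TS E δ P0 *ᵥ w) + star w ⬝ᵥ (TS E δ P0 *ᵥ u) +
      star w ⬝ᵥ (TS E δ P0 *ᵥ w)‖ ≤ x1 * x2 + x2 * x1 + x2 * x2 := by
    refine (norm_add_le _ _).trans (add_le_add ((norm_add_le _ _).trans (add_le_add ?_ ?_)) ?_)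
    · exact (cs u w).trans (mul_le_mul hun hwn (nn_nonneg _) hx10)
    · exact (cs w u).trans (mul_le_mul hwn hun (nn_nonneg _) hx20)
    · exact (cs w w).trans (mul_le_mul hwn hwn (nn_nonneg _) hx20)
  have hKη : Real.sqrt (Kf / η) = Real.sqrt Kf / Real.sqrt η := Real.sqrt_div' _ hη.le
  calc η * (NN d L)⁻¹ * ‖star u ⬝ᵥ (TS E δ P0 *ᵥ w) + star w ⬝ᵥ (TS E δ P0 *ᵥ u) +
      star w ⬝ᵥ (TS E δ P0 *ᵥ w)‖ ≤ η * (NN d L)⁻¹ * (x1 * x2 + x2 * x1 + x2 * x2) := by gcongr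
    _ = η * (NN d L)⁻¹ * ((Real.sqrt (NN d L) * Real.sqrt (NN d L)) *
        ((Real.sqrt η)⁻¹ * (Real.sqrt η)⁻¹) * (2 * Real.sqrt Kf * s + s ^ 2)) := by
        rw [hx1, hx2, hKη]
        ring
    _ = _ := by
        rw [Real.mul_self_sqrt hN.le, ← mul_inv, Real.mul_self_sqrt hη.le]
        field_simp

end Pool.Agent.TH794.HK
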