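import Pool.Agent.TH794.HK.MeanK

/-! Concentration of the twisted chain. -/

set_option autoImplicit false
set_option linter.unusedSectionVars false

open scoped BigOperators Matrix
open MeasureTheory

namespace Pool.Agent.TH794.HK

open Pool.Agent.TH794.QD
open Pool.Agent.W788.BK
open Pool.Agent.TH794.LL2
open Pool.Agent.W240.BK (ae_PP)
open Pool.Agent.W261.BK (nn nn_nonneg nn_sq nn_add nn_smul nn_le triple IB IM int_bl XX_cont)
open Pool.Agent.W788.MFP.Four (T e NN adj K ft Op q NN_pos e_zero)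

variable {d L : ℕ} [NeZero L]

theorem continuous_FP (E δ θ η : ℝ) (hη : 0 < η) (P0 : T d L) :
    Continuous fun V : T d L → ℝ => FP E δ θ η P0 V := by
  have hX := Pool.Agent.W363.BK.D0_herm (d := d) (L := L) E δ
  have hA := fun y => Pool.Agent.W363.BK.AA_herm (d := d) (L := L) E δ θ y
  have hc := continuous_RR hX hA hη
  unfold FP
  refine Continuous.dotProduct continuous_const ?_
  have h1 : Continuous fun V : T d L → ℝ => BT (d := d) (L := L) E δ θ η P0 V 0 1 := by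
    have e1 : (fun V : T d L → ℝ => BT (d := d) (L := L) E δ θ η P0 V 0 1) = fun V =>
        (RR (D0 E δ) (AA E δ θ) η V)ᴴ * ((η : ℂ) • TS E δ P0) * RR (D0 E δ) (AA E δ θ) η V := rfl
    rw [e1]
    exact (hc.matrix_conjTranspose.matrix_mul continuous_const).matrix_mul hc
  exact h1.matrix_mulVec continuous_const

theorem FP_trace (E δ θ η : ℝ) (P0 : T d L) (V : T d L → ℝ) (hη : 0 < η)
    (h0 : (D0 (d := d) (L := L) E δ).IsHermitian)
    (hA : ∀ y, (AA (d := d) (L := L) E δ θ y).IsHermitian) :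
    FP E δ θ η P0 V = (GG (Z3 (D0 E δ) ((η : ℂ) • TS E δ P0) η)
      (A3 (AA (d := d) (L := L) E δ θ)) V * Matrix.vecMulVec (emb 1 (w0 (d := d) (L := L) E δ))
        (star (emb 0 (w0 (d := d) (L := L) E δ)))).trace := by
  rw [tr_vmv, GG_BT E δ θ η P0 V hη h0 hA, form_emb]
  rfl

/-- **concentration of the chain** -/
theorem concK (hES : S_ES) (E δ θ η a v2 Q β D : ℝ) (P0 : T d L)
    (hδ : 0 < δ) (hη : 0 < η) (hη1 : η ≤ 1)
    (hadm : Adm (D0 E δ) (AA (d := d) (L := L) E δ θ) a v2 Q)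
    (μ : Measure ℝ) [IsProbabilityMeasure μ] (hβ : 0 < β) (hμ : ∀ᵐ s ∂μ, |s| ≤ β)
    (hβv : β ^ 2 * v2 ≤ 1) (hD : 0 < D) (g1 : ℝ)
    (hg : ∑ k : T d L, (JJ E δ k)⁻¹ ≤ g1 * NN d L)
    (hDD : 4 * β ^ 2 * (3 * Q) * (3 / η) ^ 6 * g1 ^ 2 ≤ D ^ 2) (x : ℝ) :
    (PP (T d L) μ).real {V | 2 * x < ‖FP E δ θ η P0 V -
      ∫ U, FP E δ θ η P0 U ∂(PP (T d L) μ)‖} ≤ 8 * Real.exp (-(x / (2 * D))) := by
  have hXh := hadm.hX0
  have hAh := hadm.hA
  have hH := adG3 hadm (TS E δ P0) η hη hη1 (TS_nsq E δ hδ P0)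
  obtain ⟨Z, hZ⟩ : ∃ Z, Z = Matrix.vecMulVec (emb 1 (w0 (d := d) (L := L) E δ))
        (star (emb 0 (w0 (d := d) (L := L) E δ))) := ⟨_, rfl⟩
  have hF : ∀ V, FP E δ θ η P0 V = (GG (Z3 (D0 E δ) ((η : ℂ) • TS E δ P0) η)
      (A3 (AA (d := d) (L := L) E δ θ)) V * Z).trace := by
    intro V
    rw [hZ]
    exact FP_trace E δ θ η P0 V hη hXh hAh
  have hc := continuous_FP (d := d) (L := L) E δ θ η hη P0
  obtain ⟨C, hC0, hC⟩ := hH.trace_bd Z
  have hN := NN_pos (d := d) (L := L)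
  have hw : nsq (w0 (d := d) (L := L) E δ) ≤ g1 := by
    have e1 : nsq (w0 (d := d) (L := L) E δ) = (NN d L)⁻¹ * ∑ k : T d L, (JJ E δ k)⁻¹ := by
      unfold nsq w0
      rw [Finset.mul_sum]
      refine Finset.sum_congr rfl fun k _ => ?_
      rw [Complex.norm_real, Real.norm_eq_abs, sq_abs, mul_pow, inv_pow, inv_pow,
        Real.sq_sqrt hN.le, Real.sq_sqrt (JJ_pos E δ hδ k).le]
    rw [e1, inv_mul_le_iff₀ hN]
    linarith
  have hhs : hs Z ≤ g1 ^ 2 := by
    rw [hZ, hs_vmv, nsq_emb, nsq_emb, sq]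
    exact mul_le_mul hw hw (nsq_nonneg _) ((nsq_nonneg _).trans hw)
  have hpt : ∀ᵐ V ∂(PP (T d L) μ), ∑ y, ‖FP E δ θ η P0 V -
      FP E δ θ η P0 (Function.update V y 0)‖ ^ 2 ≤ D ^ 2 := by
    filter_upwards [ae_PP μ hμ] with V hV
    have h1 := hH.point hβ hβv Z V hV
    refine le_trans (Finset.sum_le_sum fun y _ => ?_) (h1.trans (le_trans ?_ hDD))
    · rw [hF, hF]
    · have hQ0 := hadm.hQ0
      gcongr
  have hint : Integrable (fun V => FP (d := d) (L := L) E δ θ η P0 V) (PP (T d L) μ) := by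
    have hP' : IsProbabilityMeasure (PP (T d L) μ) := by
      unfold PP
      infer_instance
    refine Integrable.of_bound hc.aestronglyMeasurable C (Filter.Eventually.of_forall fun V => ?_)
    rw [hF]
    exact hC V
  have e1 := addTail hES μ (fun V => (FP (d := d) (L := L) E δ θ η P0 V).re)
    (Complex.continuous_re.comp hc) C (fun V => by
      rw [hF]
      exact (Complex.abs_re_le_norm _).trans (hC V)) D hD (by
      filter_upwards [hpt] with V hV
      refine le_trans (Finset.sum_le_sum fun y _ => ?_) hV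
      rw [← Complex.sub_re]
      exact pow_le_pow_left₀ (abs_nonneg _) (Complex.abs_re_le_norm _) 2) x
  have e2 := addTail hES μ (fun V => (FP (d := d) (L := L) E δ θ η P0 V).im)
    (Complex.continuous_im.comp hc) C (fun V => by
      rw [hF]
      exact (Complex.abs_im_le_norm _).trans (hC V)) D hD (by
      filter_upwards [hpt] with V hV
      refine le_trans (Finset.sum_le_sum fun y _ => ?_) hV
      rw [← Complex.sub_im]
      exact pow_le_pow_left₀ (abs_nonneg _) (Complex.abs_im_le_norm _) 2) x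
  have i1 : ∫ U, (FP (d := d) (L := L) E δ θ η P0 U).re ∂(PP (T d L) μ) =
      (∫ U, FP (d := d) (L := L) E δ θ η P0 U ∂(PP (T d L) μ)).re := by
    have := Complex.reCLM.integral_comp_comm hint
    simp only [Complex.reCLM_apply] at this
    exact this
  have i2 : ∫ U, (FP (d := d) (L := L) E δ θ η P0 U).im ∂(PP (T d L) μ) =
      (∫ U, FP (d := d) (L := L) E δ θ η P0 U ∂(PP (T d L) μ)).im := by
    have := Complex.imCLM.integral_comp_comm hint
    simp only [Complex.imCLM_apply] at this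
    exact this
  rw [i1] at e1
  rw [i2] at e2
  obtain ⟨I, hI⟩ : ∃ I, I = ∫ U, FP (d := d) (L := L) E δ θ η P0 U ∂(PP (T d L) μ) := ⟨_, rfl⟩
  rw [← hI] at e1 e2 ⊢
  have hP' : IsProbabilityMeasure (PP (T d L) μ) := by
    unfold PP
    infer_instance
  have hsub : {V : T d L → ℝ | 2 * x < ‖FP E δ θ η P0 V - I‖} ⊆
      {V | x < |(FP E δ θ η P0 V).re - I.re|} ∪ {V | x < |(FP E δ θ η P0 V).im - I.im|} := by
    intro V hV
    by_contra hcon
    simp only [Set.mem_union, Set.mem_ofPred_eq, not_or, not_lt] at hcon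
    have hV' : 2 * x < ‖FP E δ θ η P0 V - I‖ := hV
    have h3 := Complex.norm_le_abs_re_add_abs_im (FP E δ θ η P0 V - I)
    rw [Complex.sub_re, Complex.sub_im] at h3
    linarith [hcon.1, hcon.2]
  refine (measureReal_mono hsub).trans ((measureReal_union_le _ _).trans ?_)
  linarith

end Pool.Agent.TH794.HK
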