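import Pool.Agent.TH794.HK.CoreA

/-! The two-resolvent bubble at small momentum transfer. -/

set_option autoImplicit false
set_option linter.unusedSectionVars false

open scoped BigOperators

namespace Pool.Agent.TH794.HK

open Pool.Agent.TH794.QD

variable {ι : Type} [Fintype ι]

theorem im_le_inv (D : ℝ) (ω : ℝ) (hω : 0 < ω) :
    ‖((D : ℂ) + ((2 * ω : ℝ) : ℂ) * Complex.I)⁻¹‖ ≤ 1 / (2 * ω) := by
  rw [norm_inv, one_div]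
  refine inv_anti₀ (by positivity) ?_
  have h := Complex.abs_im_le_norm ((D : ℂ) + ((2 * ω : ℝ) : ℂ) * Complex.I)
  have e1 : ((D : ℂ) + ((2 * ω : ℝ) : ℂ) * Complex.I).im = 2 * ω := by simp
  rwa [e1, abs_of_pos (by positivity)] at h

/-- expansion of the denominator -/
theorem inv_exp (Δ β ω : ℝ) (hω : 0 < ω) :
    ‖((Δ : ℂ) + ((2 * ω : ℝ) : ℂ) * Complex.I)⁻¹ - (((2 * ω : ℝ) : ℂ) * Complex.I)⁻¹ *
      (1 + ((β / (2 * ω) : ℝ) : ℂ) * Complex.I - ((β / (2 * ω) : ℝ) : ℂ) ^ 2)‖ ≤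
      |Δ - β| / (4 * ω ^ 2) + |β| ^ 3 / (16 * ω ^ 4) := by
  have n1 : ((Δ : ℂ) + ((2 * ω : ℝ) : ℂ) * Complex.I) ≠ 0 := by
    intro h
    have h2 := congrArg Complex.im h
    simp at h2
    exact hω.ne' h2
  have n2 : ((β : ℂ) + ((2 * ω : ℝ) : ℂ) * Complex.I) ≠ 0 := by
    intro h
    have h2 := congrArg Complex.im h
    simp at h2
    exact hω.ne' h2
  have n3 : (((2 * ω : ℝ) : ℂ)) ≠ 0 := by
    exact_mod_cast (by positivity : (2 * ω : ℝ) ≠ 0)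
  have hI := Complex.I_ne_zero
  obtain ⟨p, hp⟩ : ∃ p, p = (Δ : ℂ) + ((2 * ω : ℝ) : ℂ) * Complex.I := ⟨_, rfl⟩
  obtain ⟨r, hr⟩ : ∃ r, r = (β : ℂ) + ((2 * ω : ℝ) : ℂ) * Complex.I := ⟨_, rfl⟩
  have ip := im_le_inv Δ ω hω
  have ir := im_le_inv β ω hω
  rw [← hp] at n1 ip ⊢
  rw [← hr] at n2 ir
  have hbe : ((β / (2 * ω) : ℝ) : ℂ) = (β : ℂ) / ((2 * ω : ℝ) : ℂ) := by push_cast; rfl
  have e1 : p⁻¹ - (((2 * ω : ℝ) : ℂ) * Complex.I)⁻¹ *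
      (1 + ((β / (2 * ω) : ℝ) : ℂ) * Complex.I - ((β / (2 * ω) : ℝ) : ℂ) ^ 2) =
      ((β - Δ : ℝ) : ℂ) * (p⁻¹ * r⁻¹) - r⁻¹ * (Complex.I * ((β / (2 * ω) : ℝ) : ℂ) ^ 3) := by
    have e2 : p⁻¹ - r⁻¹ = ((β - Δ : ℝ) : ℂ) * (p⁻¹ * r⁻¹) := by
      have : ((β - Δ : ℝ) : ℂ) = r - p := by rw [hr, hp]; push_cast; ring
      rw [this]
      field_simp
    have e3 : r⁻¹ - (((2 * ω : ℝ) : ℂ) * Complex.I)⁻¹ *
      (1 + ((β / (2 * ω) : ℝ) : ℂ) * Complex.I - ((β / (2 * ω) : ℝ) : ℂ) ^ 2) =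
      - (r⁻¹ * (Complex.I * ((β / (2 * ω) : ℝ) : ℂ) ^ 3)) := by
      have e4 : r * ((((2 * ω : ℝ) : ℂ) * Complex.I)⁻¹ *
        (1 + ((β / (2 * ω) : ℝ) : ℂ) * Complex.I - ((β / (2 * ω) : ℝ) : ℂ) ^ 2)) =
          1 + Complex.I * ((β / (2 * ω) : ℝ) : ℂ) ^ 3 := by
        rw [hr, hbe]
        obtain ⟨w, hw⟩ : ∃ w : ℂ, w = ((2 * ω : ℝ) : ℂ) := ⟨_, rfl⟩
        rw [← hw] at n3 ⊢
        have hI2 : Complex.I ^ 2 = -1 := Complex.I_sq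
        rw [mul_inv, Complex.inv_I]
        field_simp
        linear_combination (-(Complex.I * (β : ℂ) * w ^ 2) - w ^ 3) * hI2
      have e5 : (((2 * ω : ℝ) : ℂ) * Complex.I)⁻¹ *
        (1 + ((β / (2 * ω) : ℝ) : ℂ) * Complex.I - ((β / (2 * ω) : ℝ) : ℂ) ^ 2) =
          r⁻¹ * (1 + Complex.I * ((β / (2 * ω) : ℝ) : ℂ) ^ 3) := by
        rw [← e4, ← mul_assoc, inv_mul_cancel₀ n2, one_mul]
      rw [e5]
      ring
    have e6 : p⁻¹ - (((2 * ω : ℝ) : ℂ) * Complex.I)⁻¹ *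
      (1 + ((β / (2 * ω) : ℝ) : ℂ) * Complex.I - ((β / (2 * ω) : ℝ) : ℂ) ^ 2) =
      (p⁻¹ - r⁻¹) + (r⁻¹ - (((2 * ω : ℝ) : ℂ) * Complex.I)⁻¹ *
      (1 + ((β / (2 * ω) : ℝ) : ℂ) * Complex.I - ((β / (2 * ω) : ℝ) : ℂ) ^ 2)) := by ring
    rw [e6, e2, e3]
    ring
  rw [e1]
  refine (norm_sub_le _ _).trans (add_le_add ?_ ?_)
  · rw [norm_mul, norm_mul, Complex.norm_real, Real.norm_eq_abs, abs_sub_comm]
    calc |Δ - β| * (‖p⁻¹‖ * ‖r⁻¹‖) ≤ |Δ - β| * (1 / (2 * ω) * (1 / (2 * ω))) := by gcongr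
      _ = _ := by
        field_simp
        ring
  · rw [norm_mul, norm_mul, Complex.norm_I, one_mul, norm_pow, Complex.norm_real,
      Real.norm_eq_abs, abs_div, abs_of_pos (by positivity : 0 < 2 * ω)]
    calc ‖r⁻¹‖ * (|β| / (2 * ω)) ^ 3 ≤ 1 / (2 * ω) * (|β| / (2 * ω)) ^ 3 := by gcongr
      _ = _ := by
        field_simp
        ring

/-- **the bubble** -/
theorem theta (N ω g B cγ : ℝ) (x β : ι → ℝ) (sh : ι ≃ ι) (D : ι → ℂ) (hN : 0 < N) (hω : 0 < ω)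
    (hD : ∀ k, D k = (x k : ℂ) - (ω : ℂ) * Complex.I)
    (h1 : ∀ k, |x k - x (sh k) - β k| ≤ cγ) (h2 : ∀ k, |x (sh.symm k) - x k - β k| ≤ cγ)
    (hB : ∀ k, |β k| ≤ B) (hG : rv N (fun k => ‖(D k)⁻¹‖) ≤ g) (hc : 0 ≤ cγ) (hB0 : 0 ≤ B)
    (hodd : rv N (fun k => β k * ((D k)⁻¹).im) = 0) (Γ Γβ : ℝ)
    (hΓ : Γ = rv N fun k => ((D k)⁻¹).im)
    (hΓβ : Γβ = rv N fun k => β k ^ 2 * ((D k)⁻¹).im) :
    ‖mv N (fun k => (starRingEnd ℂ) ((D k)⁻¹) * (D (sh k))⁻¹) -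
      (((Γ - Γβ / (4 * ω ^ 2)) / ω : ℝ) : ℂ)‖ ≤
      g * (cγ / (2 * ω ^ 2) + B ^ 3 / (8 * ω ^ 4)) := by
  have hD0 : ∀ k, D k ≠ 0 := by
    intro k h
    have h2 := congrArg Complex.im h
    rw [hD] at h2
    simp at h2
    exact hω.ne' h2
  obtain ⟨W1, hW1⟩ : ∃ W1 : ι → ℂ, W1 = fun k =>
    (((x k - x (sh k) : ℝ) : ℂ) + ((2 * ω : ℝ) : ℂ) * Complex.I)⁻¹ := ⟨_, rfl⟩
  obtain ⟨Wq, hWq⟩ : ∃ Wq : ι → ℂ, Wq = fun k => (((2 * ω : ℝ) : ℂ) * Complex.I)⁻¹ *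
      (1 + ((β k / (2 * ω) : ℝ) : ℂ) * Complex.I - ((β k / (2 * ω) : ℝ) : ℂ) ^ 2) := ⟨_, rfl⟩
  obtain ⟨e0, he0⟩ : ∃ e0, e0 = cγ / (4 * ω ^ 2) + B ^ 3 / (16 * ω ^ 4) := ⟨_, rfl⟩
  have he00 : 0 ≤ e0 := by rw [he0]; positivity
  have f1 : ∀ k, ‖W1 k - Wq k‖ ≤ e0 := by
    intro k
    rw [hW1, hWq, he0]
    refine (inv_exp _ _ ω hω).trans (add_le_add ?_ ?_)
    · have := h1 k
      gcongr
    · have := hB k
      gcongr
  have f2 : ∀ k, ‖W1 (sh.symm k) - Wq k‖ ≤ e0 := by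
    intro k
    rw [hW1, hWq, he0]
    simp only [Equiv.apply_symm_apply]
    refine (inv_exp _ _ ω hω).trans (add_le_add ?_ ?_)
    · have := h2 k
      gcongr
    · have := hB k
      gcongr
  have hpt : ∀ k, (starRingEnd ℂ) ((D k)⁻¹) * (D (sh k))⁻¹ =
      (D (sh k))⁻¹ * W1 k - (starRingEnd ℂ) ((D k)⁻¹) * W1 k := by
    intro k
    have hcD : (starRingEnd ℂ) (D k) ≠ 0 := by
      rw [Ne, map_eq_zero]
      exact hD0 k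
    have hden : ((x k - x (sh k) : ℝ) : ℂ) + ((2 * ω : ℝ) : ℂ) * Complex.I =
        (starRingEnd ℂ) (D k) - D (sh k) := by
      rw [hD, hD]
      simp only [map_sub, map_mul, Complex.conj_ofReal, Complex.conj_I]
      push_cast
      ring
    have hne : (starRingEnd ℂ) (D k) - D (sh k) ≠ 0 := by
      rw [← hden]
      intro h
      have h2 := congrArg Complex.im h
      simp at h2
      exact hω.ne' h2
    rw [hW1]
    simp only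
    rw [hden, map_inv₀]
    have := hD0 (sh k)
    field_simp
  have hre : mv N (fun k => (D (sh k))⁻¹ * W1 k) = mv N (fun k => (D k)⁻¹ * W1 (sh.symm k)) := by
    unfold mv
    rw [← Equiv.sum_comp sh (fun k => (D k)⁻¹ * W1 (sh.symm k))]
    simp only [Equiv.symm_apply_apply]
  have hmain : mv N (fun k => (D k)⁻¹ * Wq k) - mv N (fun k => (starRingEnd ℂ) ((D k)⁻¹) * Wq k) =
      (((Γ - Γβ / (4 * ω ^ 2)) / ω : ℝ) : ℂ) := by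
    rw [← mv_sub]
    have e1 : ∀ k, (D k)⁻¹ * Wq k - (starRingEnd ℂ) ((D k)⁻¹) * Wq k =
        ((1 / ω : ℝ) : ℂ) * ((((D k)⁻¹).im : ℝ) : ℂ) +
          (((1 / ω * (1 / (2 * ω)) : ℝ) : ℂ) * Complex.I) * ((β k * ((D k)⁻¹).im : ℝ) : ℂ) -
          ((1 / ω * (1 / (4 * ω ^ 2)) : ℝ) : ℂ) * ((β k ^ 2 * ((D k)⁻¹).im : ℝ) : ℂ) := by
      intro k
      have e2 : (D k)⁻¹ - (starRingEnd ℂ) ((D k)⁻¹) =
          ((2 * ((D k)⁻¹).im : ℝ) : ℂ) * Complex.I := Complex.sub_conj _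
      rw [← sub_mul, e2, hWq]
      have hω' : (ω : ℂ) ≠ 0 := by exact_mod_cast hω.ne'
      have hI := Complex.I_ne_zero
      push_cast
      field_simp
      ring
    simp only [e1]
    rw [mv_sub, mv_add, mv_mul, mv_mul, mv_mul]
    have r1 : ∀ f : ι → ℝ, mv N (fun k => ((f k : ℝ) : ℂ)) = ((rv N f : ℝ) : ℂ) := by
      intro f
      unfold mv rv
      push_cast
      rfl
    rw [r1 (fun k => ((D k)⁻¹).im), r1 (fun k => β k * ((D k)⁻¹).im),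
      r1 (fun k => β k ^ 2 * ((D k)⁻¹).im), hodd, ← hΓ, ← hΓβ]
    push_cast
    ring
  have e4 : mv N (fun k => (starRingEnd ℂ) ((D k)⁻¹) * (D (sh k))⁻¹) -
      (((Γ - Γβ / (4 * ω ^ 2)) / ω : ℝ) : ℂ) =
      mv N (fun k => (D k)⁻¹ * (W1 (sh.symm k) - Wq k)) -
      mv N (fun k => (starRingEnd ℂ) ((D k)⁻¹) * (W1 k - Wq k)) := by
    rw [← hmain]
    simp only [hpt, mul_sub]
    rw [mv_sub, mv_sub, mv_sub, hre]
    ring
  rw [e4]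
  have g1 : ‖mv N (fun k => (D k)⁻¹ * (W1 (sh.symm k) - Wq k))‖ ≤ e0 * g := by
    refine (mv_le hN (F := fun k => e0 * ‖(D k)⁻¹‖) fun k => ?_).trans ?_
    · rw [norm_mul, mul_comm e0]
      exact mul_le_mul_of_nonneg_left (f2 k) (norm_nonneg _)
    · rw [rv_mul]
      exact mul_le_mul_of_nonneg_left hG he00
  have g2 : ‖mv N (fun k => (starRingEnd ℂ) ((D k)⁻¹) * (W1 k - Wq k))‖ ≤ e0 * g := by
    refine (mv_le hN (F := fun k => e0 * ‖(D k)⁻¹‖) fun k => ?_).trans ?_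
    · rw [norm_mul, Complex.norm_conj, mul_comm e0]
      exact mul_le_mul_of_nonneg_left (f1 k) (norm_nonneg _)
    · rw [rv_mul]
      exact mul_le_mul_of_nonneg_left hG he00
  refine (norm_sub_le _ _).trans ((add_le_add g1 g2).trans (le_of_eq ?_))
  rw [he0]
  field_simp
  ring

/-- solving the equation -/
theorem core9 (t ω s2 g c0 ε e1 ml Γ Γβ B cγ mi eΘ : ℝ) (ν Θ : ℂ) (ht : 0 < t) (hs : 0 < s2)
    (hts : t ≤ s2) (hg : 1 ≤ g) (hc00 : 0 ≤ c0) (hεc : ε ≤ c0)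
    (he1 : e1 ≤ 1 / 4) (hec : e1 ≤ c0)
    (hω : ω = t + s2 * mi) (hml : 0 < ml) (hmi : ml ≤ mi) (hmg : mi ≤ 2 * g)
    (hΓ0 : 0 ≤ Γ) (hΓβ0 : 0 ≤ Γβ) (hΓβ : Γβ ≤ B ^ 2 * Γ)
    (hmΓ : |mi - Γ| ≤ c0 * g) (hc01 : c0 ≤ 1) (hνg : ‖ν‖ ≤ 2 * g)
    (hB0 : 0 ≤ B) (hcγ : 0 ≤ cγ)
    (heΘ : eΘ = g * (cγ / (2 * ω ^ 2) + B ^ 3 / (8 * ω ^ 4)))
    (hΘ : ‖Θ - (((Γ - Γβ / (4 * ω ^ 2)) / ω : ℝ) : ℂ)‖ ≤ eΘ)
    (heq : ‖ν - ((t : ℂ) + (s2 : ℂ) * ν) * Θ‖ ≤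
      8 / 3 * ε * g + 3 * c0 * (t + s2 * (2 * g) + 3 * e1 * t) * (Γ / ω) +
        6 * e1 * t * (Γ / ω)) :
    ‖ν - ((Γ / (1 + s2 * Γβ / (4 * t * ω ^ 2)) : ℝ) : ℂ)‖ ≤
      80 * (c0 * g ^ 2 * s2 / t) + 9 * g ^ 3 * (cγ / (2 * (t * ml ^ 2)) +
        B ^ 3 / (8 * (t * s2 ^ 2 * ml ^ 4))) + g * B ^ 2 / (s2 ^ 2 * ml ^ 2) := by
  have hmi0 : 0 < mi := hml.trans_le hmi
  have hω0 : 0 < ω := by rw [hω]; positivity
  have hg0 : 0 < g := by linarith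
  have hωs : s2 * ml ≤ ω := by
    rw [hω]
    have := mul_le_mul_of_nonneg_left hmi hs.le
    linarith
  have hωg : ω ≤ 3 * g * s2 := by
    rw [hω]
    have := mul_le_mul_of_nonneg_left hmg hs.le
    have h2 : t ≤ g * s2 := by nlinarith
    linarith
  have hΓg : Γ ≤ 3 * g := by
    have h1 := (abs_le.1 hmΓ).1
    have h2 : c0 * g ≤ 1 * g := mul_le_mul_of_nonneg_right hc01 hg0.le
    linarith
  obtain ⟨Θ0, hΘ0⟩ : ∃ Θ0 : ℝ, Θ0 = (Γ - Γβ / (4 * ω ^ 2)) / ω := ⟨_, rfl⟩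
  rw [← hΘ0] at hΘ
  obtain ⟨A, hA⟩ : ∃ A, A = 1 + s2 * Γβ / (4 * t * ω ^ 2) := ⟨_, rfl⟩
  rw [← hA]
  have hA1 : 1 ≤ A := by
    rw [hA]
    have : 0 ≤ s2 * Γβ / (4 * t * ω ^ 2) := by positivity
    linarith
  have hA0 : 0 < A := by linarith
  -- the equation with the explicit bubble
  have heΘ0 : 0 ≤ eΘ := by rw [heΘ]; positivity
  have hts2 : ‖(t : ℂ) + (s2 : ℂ) * ν‖ ≤ 3 * g * s2 := by
    refine (norm_add_le _ _).trans ?_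
    rw [norm_mul, Complex.norm_real, Complex.norm_real, Real.norm_of_nonneg ht.le,
      Real.norm_of_nonneg hs.le]
    have := mul_le_mul_of_nonneg_left hνg hs.le
    have h2 : t ≤ g * s2 := by nlinarith
    linarith
  obtain ⟨ec, hec'⟩ : ∃ ec, ec = 8 / 3 * ε * g +
      3 * c0 * (t + s2 * (2 * g) + 3 * e1 * t) * (Γ / ω) + 6 * e1 * t * (Γ / ω) := ⟨_, rfl⟩
  rw [← hec'] at heq
  have h1 : ‖ν - ((t : ℂ) + (s2 : ℂ) * ν) * (Θ0 : ℂ)‖ ≤ ec + 3 * g * s2 * eΘ := by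
    have e1' : ν - ((t : ℂ) + (s2 : ℂ) * ν) * (Θ0 : ℂ) = (ν - ((t : ℂ) + (s2 : ℂ) * ν) * Θ) +
        ((t : ℂ) + (s2 : ℂ) * ν) * (Θ - (Θ0 : ℂ)) := by ring
    rw [e1']
    refine (norm_add_le _ _).trans (add_le_add heq ?_)
    rw [norm_mul]
    exact mul_le_mul hts2 hΘ (norm_nonneg _) (by positivity)
  -- multiply
  have h2 : ‖(A : ℂ) * ν - (Γ : ℂ)‖ ≤ ω / t * (ec + 3 * g * s2 * eΘ) + Γβ / (4 * ω ^ 2) +
      2 * g * (s2 * (c0 * g) / t) := by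
    have ht' : (t : ℂ) ≠ 0 := by exact_mod_cast ht.ne'
    have hω' : (ω : ℂ) ≠ 0 := by exact_mod_cast hω0.ne'
    have e2 : (A : ℂ) * ν - (Γ : ℂ) = ((ω / t : ℝ) : ℂ) *
        (ν - ((t : ℂ) + (s2 : ℂ) * ν) * (Θ0 : ℂ)) - ((Γβ / (4 * ω ^ 2) : ℝ) : ℂ) -
        ((s2 * (mi - Γ) / t : ℝ) : ℂ) * ν := by
      have hmi' : (mi : ℂ) * (s2 : ℂ) = (ω : ℂ) - (t : ℂ) := by
        rw [hω]
        push_cast
        ring
      rw [hA, hΘ0]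
      push_cast
      field_simp
      linear_combination (4 * (ω : ℂ) ^ 2 * ν) * hmi'
    rw [e2]
    refine (norm_sub_le _ _).trans (add_le_add ((norm_sub_le _ _).trans (add_le_add ?_ ?_)) ?_)
    · rw [norm_mul, Complex.norm_real, Real.norm_of_nonneg (by positivity)]
      exact mul_le_mul_of_nonneg_left h1 (by positivity)
    · rw [Complex.norm_real, Real.norm_of_nonneg (by positivity)]
    · rw [norm_mul, Complex.norm_real, Real.norm_eq_abs, abs_div, abs_mul, abs_of_pos hs,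
        abs_of_pos ht, mul_comm (2 * g)]
      refine mul_le_mul ?_ hνg (norm_nonneg _) (by positivity)
      gcongr
  have h3 : ‖ν - ((Γ / A : ℝ) : ℂ)‖ ≤ ‖(A : ℂ) * ν - (Γ : ℂ)‖ := by
    have hA' : (A : ℂ) ≠ 0 := by exact_mod_cast hA0.ne'
    have e3 : ν - ((Γ / A : ℝ) : ℂ) = ((A⁻¹ : ℝ) : ℂ) * ((A : ℂ) * ν - (Γ : ℂ)) := by
      push_cast
      field_simp
    rw [e3, norm_mul, Complex.norm_real, Real.norm_of_nonneg (by positivity)]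
    refine mul_le_of_le_one_left (norm_nonneg _) (inv_le_one_of_one_le₀ hA1)
  refine h3.trans (h2.trans ?_)
  -- bounds
  have b1 : ω / t * ec ≤ 70 * (c0 * g ^ 2 * s2 / t) := by
    have e5 : ω / t * ec = (8 / 3 * ε * g * ω + 3 * c0 * (t + s2 * (2 * g) + 3 * e1 * t) * Γ +
        6 * e1 * t * Γ) / t := by
      rw [hec']
      field_simp
    rw [e5, show 70 * (c0 * g ^ 2 * s2 / t) = (70 * (c0 * g ^ 2 * s2)) / t by ring]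
    apply div_le_div_of_nonneg_right _ ht.le
    have c1 : 8 / 3 * ε * g * ω ≤ 8 / 3 * c0 * g * (3 * g * s2) := by gcongr
    have c2 : t + s2 * (2 * g) + 3 * e1 * t ≤ 4 * g * s2 := by
      have : 3 * e1 * t ≤ 3 / 4 * s2 := by
        calc 3 * e1 * t ≤ 3 * (1 / 4) * s2 := by gcongr
          _ = _ := by ring
      have h5 : s2 ≤ g * s2 := by nlinarith
      linarith
    have c3 : 3 * c0 * (t + s2 * (2 * g) + 3 * e1 * t) * Γ ≤ 3 * c0 * (4 * g * s2) * (3 * g) := by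
      gcongr
    have c4 : 6 * e1 * t * Γ ≤ 6 * c0 * s2 * (3 * g) := by gcongr
    have c5 : 6 * c0 * s2 * (3 * g) ≤ 18 * (c0 * g ^ 2 * s2) := by
      have : c0 * s2 * g ≤ c0 * s2 * g * g := le_mul_of_one_le_right (by positivity) hg
      nlinarith
    nlinarith
  have b2 : ω / t * (3 * g * s2 * eΘ) ≤ 9 * g ^ 3 * (cγ / (2 * (t * ml ^ 2)) +
        B ^ 3 / (8 * (t * s2 ^ 2 * ml ^ 4))) := by
    have h4 : eΘ ≤ g * (cγ / (2 * (s2 * ml) ^ 2) + B ^ 3 / (8 * (s2 * ml) ^ 4)) := by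
      rw [heΘ]
      have : 0 < s2 * ml := by positivity
      gcongr
    calc ω / t * (3 * g * s2 * eΘ) ≤ (3 * g * s2) / t * (3 * g * s2 *
          (g * (cγ / (2 * (s2 * ml) ^ 2) + B ^ 3 / (8 * (s2 * ml) ^ 4)))) := by gcongr
      _ = _ := by
        field_simp
        ring
  have b3 : Γβ / (4 * ω ^ 2) ≤ g * B ^ 2 / (s2 ^ 2 * ml ^ 2) := by
    rw [div_le_div_iff₀ (by positivity) (by positivity)]
    have d1 : Γβ ≤ B ^ 2 * (3 * g) := hΓβ.trans (by gcongr)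
    have d2 : (s2 * ml) ^ 2 ≤ ω ^ 2 := by
      have : 0 < s2 * ml := by positivity
      gcongr
    calc Γβ * (s2 ^ 2 * ml ^ 2) ≤ (B ^ 2 * (3 * g)) * ω ^ 2 := by
          rw [← mul_pow]
          exact mul_le_mul d1 d2 (by positivity) (by positivity)
      _ ≤ g * B ^ 2 * (4 * ω ^ 2) := by nlinarith [show 0 ≤ g * B ^ 2 * ω ^ 2 by positivity]
  have b4 : 2 * g * (s2 * (c0 * g) / t) ≤ 10 * (c0 * g ^ 2 * s2 / t) := by
    have : 0 ≤ c0 * g ^ 2 * s2 / t := by positivity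
    have e6 : 2 * g * (s2 * (c0 * g) / t) = 2 * (c0 * g ^ 2 * s2 / t) := by ring
    rw [e6]
    linarith
  rw [mul_add]
  linarith

end Pool.Agent.TH794.HK
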