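import Pool.Agent.TH794.HK.Tw
import Pool.Agent.TH794.HK.Theta
import Pool.Agent.TH794.QD.Free2

/-! The dispersion relation under a small momentum transfer. -/

set_option autoImplicit false
set_option linter.unusedSectionVars false

open scoped BigOperators Matrix
open MeasureTheory

namespace Pool.Agent.TH794.HK

open Pool.Agent.TH794.QD
open Pool.Agent.W788.BK
open Pool.Agent.TH794.LL2
open Pool.Agent.W788.MFP.Four (T e NN adj K ft Op q NN_pos e_zero)

variable {d L : ℕ} [NeZero L]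

/-- the cosine -/
noncomputable def cg (i : Fin d) (k : T d L) : ℝ := (ZMod.stdAddChar (k i) : ℂ).re

theorem cg_abs (i : Fin d) (k : T d L) : |cg i k| ≤ 1 := by
  unfold cg
  have h2 := Complex.abs_re_le_norm (ZMod.stdAddChar (k i) : ℂ)
  have h3 : ‖(ZMod.stdAddChar (k i) : ℂ)‖ = 1 := by
    rw [ZMod.stdAddChar_apply]
    exact Circle.norm_coe _
  rwa [h3] at h2

/-- the curvature -/
noncomputable def gam (P0 : T d L) : ℝ := ∑ i, 2 * (1 - cg i P0)

/-- the slope -/
noncomputable def bet (P0 k : T d L) : ℝ := ∑ i, (2 * sg i P0) * sg i k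

/-- the size of the slope -/
noncomputable def Bt (P0 : T d L) : ℝ := ∑ i, 2 * |sg i P0|

theorem adj_cg (k : T d L) : adj k = ∑ i, 2 * cg i k := rfl

theorem cg_add (i : Fin d) (k p : T d L) :
    cg i (k + p) = cg i k * cg i p - sg i k * sg i p := by
  unfold cg sg
  rw [Pi.add_apply, AddChar.map_add_eq_mul, Complex.mul_re]

theorem cg_neg (i : Fin d) (p : T d L) : cg i (-p) = cg i p := by
  unfold cg
  rw [Pi.neg_apply, ZMod.stdAddChar_apply, ZMod.stdAddChar_apply, AddChar.map_neg_eq_inv]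
  simp

theorem sg_neg (i : Fin d) (p : T d L) : sg i (-p) = -sg i p := by
  unfold sg
  rw [Pi.neg_apply, ZMod.stdAddChar_apply, ZMod.stdAddChar_apply, AddChar.map_neg_eq_inv]
  simp

theorem cg_le_one (i : Fin d) (p : T d L) : 0 ≤ 1 - cg i p := by
  have := (abs_le.1 (cg_abs i p)).2
  linarith

theorem shift1 (P0 k : T d L) : |adj k - adj (k + P0) - bet P0 k| ≤ gam P0 := by
  have e1 : adj k - adj (k + P0) - bet P0 k = ∑ i, cg i k * (2 * (1 - cg i P0)) := by
    rw [adj_cg, adj_cg]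
    unfold bet
    rw [← Finset.sum_sub_distrib, ← Finset.sum_sub_distrib]
    refine Finset.sum_congr rfl fun i _ => ?_
    rw [cg_add]
    ring
  rw [e1]
  refine (Finset.abs_sum_le_sum_abs _ _).trans (Finset.sum_le_sum fun i _ => ?_)
  have h1 := cg_le_one i P0
  rw [abs_mul, abs_of_nonneg (by positivity : 0 ≤ 2 * (1 - cg i P0))]
  exact mul_le_of_le_one_left (by positivity) (cg_abs i k)

theorem shift2 (P0 k : T d L) : |adj (k - P0) - adj k - bet P0 k| ≤ gam P0 := by
  have e1 : adj (k - P0) - adj k - bet P0 k = ∑ i, -(cg i k * (2 * (1 - cg i P0))) := by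
    rw [sub_eq_add_neg k P0, adj_cg, adj_cg]
    unfold bet
    rw [← Finset.sum_sub_distrib, ← Finset.sum_sub_distrib]
    refine Finset.sum_congr rfl fun i _ => ?_
    rw [cg_add, cg_neg, sg_neg]
    ring
  rw [e1]
  refine (Finset.abs_sum_le_sum_abs _ _).trans (Finset.sum_le_sum fun i _ => ?_)
  have h1 := cg_le_one i P0
  rw [abs_neg, abs_mul, abs_of_nonneg (by positivity : 0 ≤ 2 * (1 - cg i P0))]
  exact mul_le_of_le_one_left (by positivity) (cg_abs i k)

theorem bet_le (P0 k : T d L) : |bet P0 k| ≤ Bt P0 := by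
  unfold bet Bt
  refine (Finset.abs_sum_le_sum_abs _ _).trans (Finset.sum_le_sum fun i _ => ?_)
  rw [abs_mul, abs_mul, abs_two]
  exact mul_le_of_le_one_right (by positivity) (sg_abs i k)

theorem Bt_nonneg (P0 : T d L) : 0 ≤ Bt P0 := Finset.sum_nonneg fun i _ => by positivity

theorem gam_nonneg (P0 : T d L) : 0 ≤ gam P0 :=
  Finset.sum_nonneg fun i _ => by
    have := cg_le_one i P0
    positivity

/-- the weights are comparable -/
theorem JJ_four (E δ : ℝ) (hδ : 0 < δ) (P0 k : T d L) (h : Bt P0 + gam P0 ≤ δ) :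
    JJ E δ k ≤ 4 * JJ E δ (k + P0) := by
  have h1 : |adj k - adj (k + P0)| ≤ δ := by
    have e1 : adj k - adj (k + P0) = (adj k - adj (k + P0) - bet P0 k) + bet P0 k := by ring
    rw [e1]
    refine (abs_add_le _ _).trans ?_
    have := shift1 P0 k
    have := bet_le P0 k
    linarith
  have h2 := JJ_pos (d := d) (L := L) E δ hδ (k + P0)
  unfold JJ at h2 ⊢
  apply Real.sqrt_le_iff.2
  refine ⟨by positivity, ?_⟩
  rw [mul_pow, Real.sq_sqrt (by positivity)]
  have h3 : (adj k - adj (k + P0)) ^ 2 ≤ δ ^ 2 := by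
    rw [← sq_abs]
    exact pow_le_pow_left₀ (abs_nonneg _) h1 2
  have h4 : (adj k - E) ^ 2 ≤ 2 * (adj k - adj (k + P0)) ^ 2 + 2 * (adj (k + P0) - E) ^ 2 := by
    nlinarith [sq_nonneg ((adj k - adj (k + P0)) - (adj (k + P0) - E))]
  nlinarith [sq_nonneg (adj (k + P0) - E), sq_nonneg δ]

theorem rv_odd {ι : Type} [Fintype ι] (N : ℝ) (τ : ι ≃ ι) (f : ι → ℝ) (h : ∀ k, f (τ k) = -f k) :
    rv N f = 0 := by
  have h1 : ∑ k, f (τ k) = ∑ k, f k := Equiv.sum_comp τ f
  have h2 : ∑ k, f (τ k) = -∑ k, f k := by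
    rw [← Finset.sum_neg_distrib]
    exact Finset.sum_congr rfl fun k _ => h k
  have h3 : ∑ k, f k = 0 := by linarith
  unfold rv
  rw [h3, mul_zero]

theorem sg_rfl_ne (i j : Fin d) (h : i ≠ j) (k : T d L) : sg i (rfl' j k) = sg i k := by
  unfold sg rfl'
  simp only [Equiv.coe_fn_mk]
  rw [Function.update_of_ne h]

theorem rv_sum {ι κ : Type} [Fintype ι] [Fintype κ] (N : ℝ) (f : κ → ι → ℝ) :
    rv N (fun k => ∑ i, f i k) = ∑ i, rv N (f i) := by
  unfold rv
  rw [Finset.sum_comm, Finset.mul_sum]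

/-- the linear term vanishes -/
theorem bet_odd (P0 : T d L) (f : T d L → ℝ) (hf : ∀ i k, f (rfl' i k) = f k) :
    rv (NN d L) (fun k => bet P0 k * f k) = 0 := by
  have e1 : ∀ k, bet P0 k * f k = ∑ i, (2 * sg i P0) * (sg i k * f k) := by
    intro k
    unfold bet
    rw [Finset.sum_mul]
    exact Finset.sum_congr rfl fun i _ => by ring
  simp only [e1]
  rw [rv_sum]
  refine Finset.sum_eq_zero fun i _ => ?_
  rw [rv_mul, rv_odd _ (rfl' i) (fun k => sg i k * f k) (fun k => ?_), mul_zero]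
  rw [sg_rfl, hf]
  ring

/-- the quadratic term is diagonal -/
theorem bet_sq (P0 : T d L) (f : T d L → ℝ) (hf : ∀ i k, f (rfl' i k) = f k) :
    rv (NN d L) (fun k => bet P0 k ^ 2 * f k) =
      ∑ i, (2 * sg i P0) ^ 2 * rv (NN d L) (fun k => sg i k ^ 2 * f k) := by
  have e1 : ∀ k, bet P0 k ^ 2 * f k = ∑ i, ∑ j, ((2 * sg i P0) * (2 * sg j P0)) *
      (sg i k * sg j k * f k) := by
    intro k
    unfold bet
    rw [sq, Finset.sum_mul_sum, Finset.sum_mul]
    refine Finset.sum_congr rfl fun i _ => ?_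
    rw [Finset.sum_mul]
    exact Finset.sum_congr rfl fun j _ => by ring
  simp only [e1]
  rw [rv_sum]
  refine Finset.sum_congr rfl fun i _ => ?_
  rw [rv_sum, Finset.sum_eq_single i]
  · rw [rv_mul, ← sq]
    congr 1
    unfold rv
    congr 1
    exact Finset.sum_congr rfl fun k _ => by ring
  · intro j _ hj
    rw [rv_mul, rv_odd _ (rfl' i) (fun k => sg i k * sg j k * f k) (fun k => ?_), mul_zero]
    rw [sg_rfl, hf, sg_rfl_ne j i hj]
    ring
  · intro h
    exact absurd (Finset.mem_univ i) h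

end Pool.Agent.TH794.HK
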