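import Pool.Agent.TH794.QE.ParA
import Pool.Agent.TH794.QD.Par6
import Pool.Agent.TH794.HK.GeoK

/-! The free data in every dimension, and the momenta. -/

set_option autoImplicit false
set_option linter.unusedSectionVars false

open scoped BigOperators Matrix
open MeasureTheory

namespace Pool.Agent.TH794.HK

open Pool.Agent.TH794.QE
open Pool.Agent.W788.BK
open Pool.Agent.W788.MFP.Four (T e NN adj K ft Op q NN_pos e_zero)
open Pool.Agent.W788.BK.Num
open Pool.Agent.TH794.LL2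
open Pool.Agent.TH794.QD
open Pool.Agent.TH311.AN2 (sumJ2 crude qb2)
open Pool.Agent.TH311.LL2D (CH_ge Bu Bu.near)

/-- the free data: the sums over the shells and the free resolvents -/
def Dat (d : ℕ) (U Bs : ℝ → Prop) (κ A0 CQ Ch : ℝ) (γ0 γ1 : ℝ → ℂ) : Prop :=
  ∃ y0 : ℝ, ∀ y : ℝ, y0 ≤ y → ∀ (L : ℕ) [NeZero L], Odd L → Real.exp (6 * y) ≤ L →
    (∀ τ : ℝ, Real.exp (-(81 / 40) * y) ≤ τ → τ ≤ Real.exp (-1 * y) → ∀ E : ℝ,
      ∑ k : T d L, (JJ E τ k)⁻¹ ≤ A0 * Real.log (1 / τ) ^ 2 * NN d L) ∧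
    (∃ Q : ℝ, 0 ≤ Q ∧ Q ≤ 8 * CQ * y ^ 2 * Real.exp (67 / 50 * y) ∧ ∀ E, Bs E → ∀ P : T d L,
      ¬ Low (1 / 2 * Real.exp (-κ * y)) P →
      ∑ k : T d L, (JJ E (Real.exp (-(97 / 50) * y)) k *
        JJ E (Real.exp (-(97 / 50) * y)) (k + P))⁻¹ ≤ Q * NN d L) ∧
    (∀ t : ℝ, Real.exp (-(81 / 40) * y) ≤ t → t ≤ Real.exp (-1 * y) →
      FD d L U Ch (56 * d / L / t ^ 2) t γ0 γ1)

theorem log_sq (A τ : ℝ) (hA : 0 ≤ A) (h0 : 0 < τ) (h1 : τ ≤ Real.exp (-1)) :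
    A * Real.log (1 / τ) ≤ A * Real.log (1 / τ) ^ 2 := by
  have h2 : 1 ≤ Real.log (1 / τ) := by
    rw [one_div, Real.log_inv]
    have := Real.log_le_log h0 h1
    rw [Real.log_exp] at this
    linarith
  apply mul_le_mul_of_nonneg_left _ hA
  nlinarith

/-- dimension two -/
theorem dat2 (ka : ℝ) (hka : 0 < ka) (hka1 : ka ≤ 1) :
    Dat 2 (Bu ka) (Bu (2 * ka)) (11 / 10) 1700 (2 * (2600000 / ka ^ 3))
      (2 * Pool.Agent.TH311.LL2D.CH ka) (bvl (F0 2)) (bvl (F1 2)) := by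
  obtain ⟨CQ0, hCQ0def⟩ : ∃ CQ : ℝ, CQ = 2600000 / ka ^ 3 := ⟨_, rfl⟩
  have hCQ0 : 0 < CQ0 := by rw [hCQ0def]; positivity
  obtain ⟨y0, hy0⟩ := Filter.eventually_atTop.1 ((Filter.eventually_ge_atTop (1 : ℝ)).and
    ((ev2 4 (97 / 25) 5 0 (by norm_num)).and
    ((ev2 2 (11 / 10) 6 0 (by norm_num)).and
    ((ev2 2 (-(97 / 50)) 0 0 (by norm_num)).and
    ((ev2 4 (-1) 0 0 (by norm_num)).and
    ((ev2 (32 * Pool.Agent.TH311.LL2D.CH ka) 0 6 0 (by norm_num)).and (ev2 8 (81 / 40) 5 0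
      (by norm_num))))))))
  refine ⟨y0, fun y hy L _ hLodd hL1 => ?_⟩
  obtain ⟨hy1, n2, n3, n4, n5, n10, n13⟩ := hy0 y hy
  simp only [pow_zero, mul_one, zero_mul, Real.exp_zero] at n2 n3 n4 n5 n10 n13
  have hLp : (0 : ℝ) < L := lt_of_lt_of_le (by positivity) hL1
  have h1L : ∀ τ : ℝ, Real.exp (-(81 / 40) * y) ≤ τ → 1 / (L : ℝ) ≤ τ := by
    intro τ hτ
    rw [div_le_iff₀ hLp]
    have h1 : Real.exp (-(81 / 40) * y) * Real.exp (6 * y) ≤ τ * L := by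
      have : 0 < τ := lt_of_lt_of_le (Real.exp_pos _) hτ
      gcongr
    rw [ex_mul] at h1
    have h2 : (1 : ℝ) ≤ Real.exp ((-(81 / 40) + 6) * y) := Real.one_le_exp (by linarith)
    linarith
  refine ⟨fun τ hτ1 hτ2 E => ?_, ?_, fun t ht ht' => ?_⟩
  · exact sumJ2 τ (h1L τ hτ1) (by linarith) E
  · obtain ⟨δ, hδ⟩ : ∃ δ, δ = Real.exp (-(97 / 50) * y) := ⟨_, rfl⟩
    obtain ⟨θ, hθ⟩ : ∃ θ, θ = 1 / 2 * Real.exp (-(11 / 10) * y) := ⟨_, rfl⟩
    have hδ0 : 0 < δ := by rw [hδ]; positivity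
    have hθ0 : 0 < θ := by rw [hθ]; positivity
    have hlogδ : Real.log (1 / δ) = 97 / 50 * y := by
      rw [hδ, one_div, Real.log_inv, Real.log_exp]
      ring
    have hLδ2 : 1 / (L : ℝ) ≤ (δ / 2) ^ 2 := by
      rw [div_le_iff₀ hLp]
      have h1 : 4 * Real.exp (97 / 25 * y) ≤ L := by
        have h4 := hexle hy1 5 6 (by norm_num)
        linarith
      have h2 : δ ^ 2 * Real.exp (97 / 25 * y) = 1 := by
        rw [hδ, ex_pow, ex_mul]
        norm_num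
      calc (1 : ℝ) = (δ / 2) ^ 2 * (4 * Real.exp (97 / 25 * y)) := by
            linear_combination (-1) * h2
        _ ≤ (δ / 2) ^ 2 * L := by gcongr
    refine ⟨CQ0 * Real.log (1 / δ) ^ 2 * ((Real.sqrt δ)⁻¹ + θ⁻¹), by positivity, ?_,
      fun E hE P hP => ?_⟩
    · rw [hlogδ, ← hCQ0def]
      have h1 : (Real.sqrt δ)⁻¹ ≤ Real.exp (67 / 50 * y) := by
        have h2 : Real.exp (-(97 / 100) * y) ≤ Real.sqrt δ := by
          apply Real.le_sqrt_of_sq_le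
          rw [hδ, ex_pow]
          norm_num
        have h3 : (Real.sqrt δ)⁻¹ ≤ (Real.exp (-(97 / 100) * y))⁻¹ := inv_anti₀ (by positivity) h2
        refine h3.trans ?_
        rw [ex_inv]
        exact hexle hy1 _ _ (by norm_num)
      have h2 : θ⁻¹ ≤ 2 * Real.exp (67 / 50 * y) := by
        rw [hθ, mul_inv, ex_inv]
        have := hexle hy1 (- -(11 / 10)) (67 / 50) (by norm_num)
        norm_num at this ⊢
        exact this
      calc CQ0 * (97 / 50 * y) ^ 2 * ((Real.sqrt δ)⁻¹ + θ⁻¹) ≤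
          CQ0 * (2 * y) ^ 2 * (Real.exp (67 / 50 * y) + 2 * Real.exp (67 / 50 * y)) := by
            have : 97 / 50 * y ≤ 2 * y := by linarith
            gcongr
        _ = 12 * CQ0 * y ^ 2 * Real.exp (67 / 50 * y) := by ring
        _ ≤ 8 * (2 * CQ0) * y ^ 2 * Real.exp (67 / 50 * y) := by
            have : 12 * CQ0 ≤ 8 * (2 * CQ0) := by linarith
            gcongr
    · rw [← hδ, hCQ0def]
      rw [← hθ] at hP
      exact qb2 ka hka hka1 hLodd θ δ E hθ0 hδ0 (by linarith) hLδ2 (by linarith [hE.1])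
        (by linarith [hE.2]) P hP
  · have ht0 : 0 < t := lt_of_lt_of_le (Real.exp_pos _) ht
    have hCHge := CH_ge ka
    have htL : 8 ≤ t * L := by
      have h1 : Real.exp (-(81 / 40) * y) * Real.exp (6 * y) ≤ t * L := by gcongr
      have h2 : 8 * Real.exp (81 / 40 * y) ≤ Real.exp (6 * y) :=
        n13.trans (hexle hy1 _ _ (by norm_num))
      have h3 : Real.exp (-(81 / 40) * y) * Real.exp (81 / 40 * y) = 1 := by
        rw [ex_mul]
        simp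
      have h4 : Real.exp (-(81 / 40) * y) * (8 * Real.exp (81 / 40 * y)) ≤
          Real.exp (-(81 / 40) * y) * Real.exp (6 * y) := by gcongr
      linarith
    have he4 : Real.exp (-(t * L / 4)) ≤ 1 / 4 := by
      have h1 : Real.exp (-(t * L / 4)) ≤ Real.exp (-2) := by
        apply Real.exp_le_exp.2
        linarith
      exact h1.trans exp_m2
    have hXe : Pool.Agent.TH311.LL2D.CH ka * Real.exp (-(t * L / 4)) ≤ 56 / L / t ^ 2 := by
      obtain ⟨w, hw⟩ : ∃ w, w = t * L / 4 := ⟨_, rfl⟩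
      have hw0 : 0 < w := by rw [hw]; positivity
      have h1 : Real.exp (-w) ≤ 2 / w ^ 2 := by
        rw [Real.exp_neg, ← one_div, div_le_div_iff₀ (Real.exp_pos _) (by positivity)]
        have := Real.quadratic_le_exp_of_nonneg hw0.le
        linarith
      rw [← hw]
      calc Pool.Agent.TH311.LL2D.CH ka * Real.exp (-w) ≤
          Pool.Agent.TH311.LL2D.CH ka * (2 / w ^ 2) := by gcongr
        _ = 32 * Pool.Agent.TH311.LL2D.CH ka / L / (L * t ^ 2) := by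
            rw [hw]
            field_simp
            norm_num
        _ ≤ 56 / (L * t ^ 2) := by
            apply div_le_div_of_nonneg_right _ (by positivity)
            rw [div_le_iff₀ hLp]
            linarith
        _ = 56 / L / t ^ 2 := by rw [div_div]
    have hfd := fd2 (L := L) ka t hka hka1 (by linarith) (h1L t ht) he4 hXe
    have hle : 56 / (L : ℝ) / t ^ 2 ≤ 56 * ((2 : ℕ) : ℝ) / L / t ^ 2 := by
      have : (56 : ℝ) ≤ 56 * ((2 : ℕ) : ℝ) := by norm_num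
      gcongr
    exact ⟨hfd.C0, hfd.X00.trans hle,
      fun z z' a1 a2 a3 a4 a5 a6 => (hfd.hol0 z z' a1 a2 a3 a4 a5 a6).trans (by linarith),
      fun j z z' a1 a2 a3 a4 a5 a6 => (hfd.hol1 j z z' a1 a2 a3 a4 a5 a6).trans (by linarith),
      fun z E a1 a2 a3 a4 => (hfd.lim0 z E a1 a2 a3 a4).trans (by linarith),
      fun j z E a1 a2 a3 a4 => (hfd.lim1 j z E a1 a2 a3 a4).trans (by linarith),
      hfd.pos, hfd.lip0, hfd.lip1⟩

/-- the free resolvents in dimension at least three -/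
theorem fd3 {L : ℕ} [NeZero L] (hO : S_OSC) (d : ℕ) (hd : 3 ≤ d) (t : ℝ) (ht : 0 < t)
    (ht1 : t ≤ 1) : FD d L (fun _ => True) (Pool.Agent.TH794.QD.CH d) (56 * d / L / t ^ 2) t
      (fun E => GF (F0 d) (E : ℂ)) (fun E => GF (F1 d) (E : ℂ)) := by
  have hX : 28 * (d : ℝ) / L / t ^ 2 + 28 * d / L / t ^ 2 = 56 * d / L / t ^ 2 := by ring
  have hX0 : 0 ≤ 28 * (d : ℝ) / L / t ^ 2 := by positivity
  have f0 := fun z hz => fin0 (L := L) hO d hd t ht ht1 z hz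
  have f1 := fun j z hz => fin1 (L := L) hO d hd j t ht ht1 z hz
  have tri : ∀ (a b a' b' : ℂ) (x y : ℝ), ‖a - a'‖ ≤ x → ‖b - b'‖ ≤ x → ‖a' - b'‖ ≤ y →
      ‖a - b‖ ≤ y + (x + x) := by
    intro a b a' b' x y h1 h2 h3
    have e1 : a - b = (a - a') + (a' - b') - (b - b') := by ring
    rw [e1]
    have := norm_sub_le ((a - a') + (a' - b')) (b - b')
    have := norm_add_le (a - a') (a' - b')
    linarith
  have tri2 : ∀ (a a' b' : ℂ) (x y : ℝ), ‖a - a'‖ ≤ x → ‖a' - b'‖ ≤ y → 0 ≤ x →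
      ‖a - b'‖ ≤ y + (x + x) := by
    intro a a' b' x y h1 h3 hx
    have e1 : a - b' = (a - a') + (a' - b') := by ring
    rw [e1]
    have := norm_add_le (a - a') (a' - b')
    linarith
  rw [← hX]
  refine ⟨CH_nonneg d, by positivity, ?_, ?_, ?_, ?_, ?_, ?_, ?_⟩
  · intro z z' _ _ h1 _ h2 _
    exact tri _ _ _ _ _ _ (f0 z h1) (f0 z' h2) (hol0 hO d hd z z' (ht.le.trans h1) (ht.le.trans h2))
  · intro j z z' _ _ h1 _ h2 _
    exact tri _ _ _ _ _ _ (f1 j z h1) (f1 j z' h2)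
      (hol1 hO d hd z z' (ht.le.trans h1) (ht.le.trans h2))
  · intro z E _ _ h1 _
    exact tri2 _ _ _ _ _ (f0 z h1) (hol0 hO d hd z E (ht.le.trans h1) (by simp)) hX0
  · intro j z E _ _ h1 _
    exact tri2 _ _ _ _ _ (f1 j z h1) (hol1 hO d hd z E (ht.le.trans h1) (by simp)) hX0
  · intro E _
    exact GF_im hO d hd (E : ℂ) (by simp)
  · intro E E' _ _
    have h1 := hol0 hO d hd (E : ℂ) (E' : ℂ) (by simp) (by simp)
    rwa [← Complex.ofReal_sub, Complex.norm_real, Real.norm_eq_abs] at h1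
  · intro E E' _ _
    have h1 := hol1 hO d hd (E : ℂ) (E' : ℂ) (by simp) (by simp)
    rwa [← Complex.ofReal_sub, Complex.norm_real, Real.norm_eq_abs] at h1

/-- dimension at least three -/
theorem dat3 (hQB : S_QB) (hO : S_OSC) (d : ℕ) (hd : 3 ≤ d) : ∃ CQ : ℝ, 0 < CQ ∧
    Dat d (fun _ => True) (fun _ => True) (11 / (5 * d)) C1 CQ (Pool.Agent.TH794.QD.CH d)
      (fun E => GF (F0 d) (E : ℂ)) (fun E => GF (F1 d) (E : ℂ)) := by
  obtain ⟨CQ, hCQ, hqb⟩ := hQB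
  have hC1 := C1_ge
  have hd3 : (3 : ℝ) ≤ d := by exact_mod_cast hd
  obtain ⟨y0, hy0⟩ := Filter.eventually_atTop.1 ((Filter.eventually_ge_atTop (1 : ℝ)).and
    ((ev2 125 (291 / 50) 12 0 (by norm_num)).and
    ((ev2 2 (-(97 / 50)) 0 0 (by norm_num)).and
    (ev2 4 (-1) 0 0 (by norm_num)))))
  refine ⟨CQ, hCQ, y0, fun y hy L _ hLodd hL1 => ?_⟩
  obtain ⟨hy1, n2, n3, n4⟩ := hy0 y hy
  simp only [pow_zero, mul_one, zero_mul, Real.exp_zero] at n2 n3 n4
  have hLp : (0 : ℝ) < L := lt_of_lt_of_le (by positivity) hL1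
  have h1L : ∀ τ : ℝ, Real.exp (-(81 / 40) * y) ≤ τ → 1 / (L : ℝ) ≤ τ := by
    intro τ hτ
    rw [div_le_iff₀ hLp]
    have h1 : Real.exp (-(81 / 40) * y) * Real.exp (6 * y) ≤ τ * L := by
      have : 0 < τ := lt_of_lt_of_le (Real.exp_pos _) hτ
      gcongr
    rw [ex_mul] at h1
    have h2 : (1 : ℝ) ≤ Real.exp ((-(81 / 40) + 6) * y) := Real.one_le_exp (by linarith)
    linarith
  refine ⟨fun τ hτ1 hτ2 E => ?_, ?_, fun t ht ht' => ?_⟩
  · have h1 := sumJ (d := d) (L := L) hd τ (h1L τ hτ1) (by linarith) E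
    have hτ0 : 0 < τ := lt_of_lt_of_le (Real.exp_pos _) hτ1
    refine h1.trans ?_
    apply mul_le_mul_of_nonneg_right _ NN_pos.le
    apply log_sq C1 τ (by linarith) hτ0 (hτ2.trans _)
    apply Real.exp_le_exp.2
    linarith
  · obtain ⟨δ, hδ⟩ : ∃ δ, δ = Real.exp (-(97 / 50) * y) := ⟨_, rfl⟩
    obtain ⟨κ, hκ⟩ : ∃ κ : ℝ, κ = 11 / (5 * d) := ⟨_, rfl⟩
    obtain ⟨θ, hθ⟩ : ∃ θ, θ = 1 / 2 * Real.exp (-κ * y) := ⟨_, rfl⟩
    have hκ1 : κ ≤ 37 / 50 := by
      rw [hκ, div_le_div_iff₀ (by positivity) (by norm_num)]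
      linarith
    have hκ0 : 0 < κ := by rw [hκ]; positivity
    have hδ0 : 0 < δ := by rw [hδ]; positivity
    have hθ0 : 0 < θ := by rw [hθ]; positivity
    have hθ1 : θ ≤ 1 := by
      rw [hθ]
      have : Real.exp (-κ * y) ≤ 1 := Real.exp_le_one_iff.2 (by nlinarith)
      linarith
    have hlogδ : Real.log (1 / δ) = 97 / 50 * y := by
      rw [hδ, one_div, Real.log_inv, Real.log_exp]
      ring
    have hδinv : δ⁻¹ = Real.exp (97 / 50 * y) := by
      rw [hδ, ex_inv]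
      norm_num
    have hL6 : Real.exp (12 * y) ≤ (L : ℝ) ^ 2 := by
      calc Real.exp (12 * y) = Real.exp (6 * y) ^ 2 := by
            rw [ex_pow]
            norm_num
        _ ≤ (L : ℝ) ^ 2 := by gcongr
    have hL43 : (1 + 4 / δ) ^ 3 ≤ (L : ℝ) ^ 2 := by
      have h1 : 1 + 4 / δ ≤ 5 * Real.exp (97 / 50 * y) := by
        have h3 : (1 : ℝ) ≤ Real.exp (97 / 50 * y) := Real.one_le_exp (by linarith)
        rw [div_eq_mul_inv, hδinv]
        linarith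
      refine le_trans ?_ hL6
      calc (1 + 4 / δ) ^ 3 ≤ (5 * Real.exp (97 / 50 * y)) ^ 3 := by gcongr
        _ = 125 * Real.exp (291 / 50 * y) := by
            rw [mul_pow, ex_pow]
            norm_num
        _ ≤ Real.exp (12 * y) := n2
    refine ⟨CQ * Real.log (1 / δ) ^ 2 / Real.sqrt (δ * θ), by positivity, ?_,
      fun E _ P hP => ?_⟩
    · exact numQ6 CQ y δ θ κ _ hCQ.le hy1 hδ hκ1 hθ (by rw [hlogδ])
    · rw [← hδ]
      rw [← hκ, ← hθ] at hP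
      exact hqb d L hd θ δ E hθ0 hθ1 hδ0 (by linarith) hL43 P hP
  · have ht0 : 0 < t := lt_of_lt_of_le (Real.exp_pos _) ht
    exact fd3 hO d hd t ht0 (by linarith)

variable {d L : ℕ} [NeZero L]

theorem char_int (n : ℤ) : (ZMod.stdAddChar ((n : ℤ) : ZMod L) : ℂ) =
    Complex.exp (((2 * Real.pi * n / L : ℝ) : ℂ) * Complex.I) := by
  rw [ZMod.stdAddChar_coe]
  congr 1
  push_cast
  ring

theorem cg_int (n : Fin d → ℤ) (i : Fin d) : cg i (fun i => ((n i : ℤ) : ZMod L)) =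
    Real.cos (2 * Real.pi * n i / L) := by
  unfold cg
  rw [char_int, Complex.exp_ofReal_mul_I_re]

theorem sg_int (n : Fin d → ℤ) (i : Fin d) : Pool.Agent.TH794.QD.sg i (fun i => ((n i : ℤ) : ZMod L)) =
    Real.sin (2 * Real.pi * n i / L) := by
  unfold Pool.Agent.TH794.QD.sg
  rw [char_int, Complex.exp_ofReal_mul_I_im]

theorem Bt_bd (n : Fin d → ℤ) (r : ℝ) (h : ∀ i, |2 * Real.pi * n i / L| ≤ r) :
    Bt (fun i => ((n i : ℤ) : ZMod L)) ≤ 2 * d * r := by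
  unfold Bt
  refine (Finset.sum_le_sum fun i _ => (?_ : _ ≤ 2 * r)).trans (le_of_eq ?_)
  · rw [sg_int]
    have := (Real.abs_sin_le_abs (x := 2 * Real.pi * n i / L)).trans (h i)
    linarith
  · rw [Finset.sum_const, Finset.card_univ, Fintype.card_fin, nsmul_eq_mul]
    ring

theorem gam_bd (n : Fin d → ℤ) (r : ℝ) (h : ∀ i, |2 * Real.pi * n i / L| ≤ r) :
    gam (fun i => ((n i : ℤ) : ZMod L)) ≤ d * r ^ 2 := by
  unfold gam
  refine (Finset.sum_le_sum fun i _ => (?_ : _ ≤ r ^ 2)).trans (le_of_eq ?_)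
  · rw [cg_int]
    have h1 := Real.one_sub_sq_div_two_le_cos (x := 2 * Real.pi * n i / L)
    have h2 : (2 * Real.pi * n i / L) ^ 2 ≤ r ^ 2 := by
      rw [← sq_abs]
      exact pow_le_pow_left₀ (abs_nonneg _) (h i) 2
    linarith
  · rw [Finset.sum_const, Finset.card_univ, Fintype.card_fin, nsmul_eq_mul]

end Pool.Agent.TH794.HK
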