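import Pool.Agent.TH794.HK.MeanK
import Pool.Agent.TH794.QE.FreeA

/-! The profile of the mean of the twisted chain. -/

set_option autoImplicit false
set_option linter.unusedSectionVars false

open scoped BigOperators Matrix
open MeasureTheory

namespace Pool.Agent.TH794.HK

open Pool.Agent.TH794.QD
open Pool.Agent.TH794.QE
open Pool.Agent.W788.BK
open Pool.Agent.TH794.LL2
open Pool.Agent.W788.MFP.Four (T e NN adj K ft Op q NN_pos e_zero)

/-- the profile -/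
noncomputable def Tg {d : ℕ} (γ0 γ1 : ℝ → ℂ) (t s2 E : ℝ) (p : Fin d → ℝ) : ℝ :=
  (γ0 E).im / (1 + (∑ i, p i ^ 2) / (t * s2) * ((γ1 E).im / (γ0 E).im ^ 2))

theorem prof_alg {d : ℕ} (u mi ml X c1 G0 G1 Γ Kp ex Wm : ℝ) (x x' W : Fin d → ℝ) (hu : 0 ≤ u)
    (hml : 0 < ml) (hmi : ml ≤ mi) (hG : ml ≤ G0) (hG1 : 0 ≤ G1) (hG10 : G1 ≤ G0)
    (hx : ∀ i, 0 ≤ x i) (hx' : ∀ i, 0 ≤ x' i) (hW : ∀ i, 0 ≤ W i) (hWm : ∀ i, W i ≤ Wm)
    (h1 : |Γ - G0| ≤ X) (h2 : ∀ i, |W i - G1| ≤ X) (h3 : |mi - G0| ≤ c1)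
    (hxx : ∀ i, |x i - x' i| ≤ ex) (hK : ∑ i, x' i ≤ Kp) :
    |Γ / (1 + ∑ i, x i * (W i / (u + mi) ^ 2)) - G0 / (1 + (∑ i, x' i) * (G1 / G0 ^ 2))| ≤
      X + G0 * (d * (ex * (Wm / ml ^ 2)) + Kp * (X / ml ^ 2 + 2 * (u + c1) / ml ^ 2)) := by
  have hG0 : 0 < G0 := hml.trans_le hG
  have hX0 : 0 ≤ X := (abs_nonneg _).trans h1
  have hc1 : 0 ≤ c1 := (abs_nonneg _).trans h3
  obtain ⟨w, hw⟩ : ∃ w, w = u + mi := ⟨_, rfl⟩
  have hwm : ml ≤ w := by rw [hw]; linarith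
  have hw0 : 0 < w := hml.trans_le hwm
  rw [← hw]
  obtain ⟨A, hA⟩ : ∃ A, A = ∑ i, x i * (W i / w ^ 2) := ⟨_, rfl⟩
  obtain ⟨A', hA'⟩ : ∃ A', A' = (∑ i, x' i) * (G1 / G0 ^ 2) := ⟨_, rfl⟩
  rw [← hA, ← hA']
  have hA0 : 0 ≤ A := by
    rw [hA]
    exact Finset.sum_nonneg fun i _ => mul_nonneg (hx i) (div_nonneg (hW i) (by positivity))
  have hA'0 : 0 ≤ A' := by
    rw [hA']
    exact mul_nonneg (Finset.sum_nonneg fun i _ => hx' i) (by positivity)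
  have hdiff : |A - A'| ≤ d * (ex * (Wm / ml ^ 2)) +
      Kp * (X / ml ^ 2 + 2 * (u + c1) / ml ^ 2) := by
    have e1 : A - A' = ∑ i, ((x i - x' i) * (W i / w ^ 2) + x' i * (W i / w ^ 2 - G1 / G0 ^ 2)) := by
      rw [hA, hA', Finset.sum_mul, ← Finset.sum_sub_distrib]
      exact Finset.sum_congr rfl fun i _ => by ring
    have e2 : ∀ i, |W i / w ^ 2 - G1 / G0 ^ 2| ≤ X / ml ^ 2 + 2 * (u + c1) / ml ^ 2 := by
      intro i
      have f1 : W i / w ^ 2 - G1 / G0 ^ 2 = (W i - G1) / w ^ 2 +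
          (G0 - w) * (G1 / G0 * (1 / (w ^ 2)) + G1 / G0 * (1 / (w * G0))) := by
        field_simp
        ring
      have f2 : |(W i - G1) / w ^ 2| ≤ X / ml ^ 2 := by
        rw [abs_div, abs_of_pos (by positivity : 0 < w ^ 2)]
        have := h2 i
        gcongr
      have f3 : |G0 - w| ≤ u + c1 := by
        have e5 : G0 - w = -(mi - G0) - u := by rw [hw]; ring
        rw [e5]
        refine (abs_sub _ _).trans ?_
        rw [abs_neg, abs_of_nonneg hu]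
        linarith
      have f4 : G1 / G0 ≤ 1 := div_le_one_of_le₀ hG10 hG0.le
      have f5 : 0 ≤ G1 / G0 := by positivity
      have f6 : 1 / (w ^ 2) ≤ 1 / ml ^ 2 := by gcongr
      have f7 : 1 / (w * G0) ≤ 1 / ml ^ 2 := by
        rw [sq ml]
        gcongr
      have f8 : |G1 / G0 * (1 / (w ^ 2)) + G1 / G0 * (1 / (w * G0))| ≤ 2 / ml ^ 2 := by
        rw [abs_of_nonneg (by positivity)]
        calc G1 / G0 * (1 / (w ^ 2)) + G1 / G0 * (1 / (w * G0)) ≤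
              1 * (1 / ml ^ 2) + 1 * (1 / ml ^ 2) := by gcongr
          _ = _ := by ring
      rw [f1]
      refine (abs_add_le _ _).trans (add_le_add f2 ?_)
      rw [abs_mul]
      calc |G0 - w| * |G1 / G0 * (1 / (w ^ 2)) + G1 / G0 * (1 / (w * G0))| ≤
            (u + c1) * (2 / ml ^ 2) := by gcongr
        _ = _ := by ring
    rw [e1]
    refine (Finset.abs_sum_le_sum_abs _ _).trans ?_
    have hWm0 : ∀ i : Fin d, W i / w ^ 2 ≤ Wm / ml ^ 2 := by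
      intro i
      have a1 := hW i
      have a2 := hWm i
      have a3 : 0 ≤ Wm := a1.trans a2
      gcongr
    have e3 : ∀ i : Fin d, |(x i - x' i) * (W i / w ^ 2) + x' i * (W i / w ^ 2 - G1 / G0 ^ 2)| ≤
        ex * (Wm / ml ^ 2) + x' i * (X / ml ^ 2 + 2 * (u + c1) / ml ^ 2) := by
      intro i
      refine (abs_add_le _ _).trans (add_le_add ?_ ?_)
      · rw [abs_mul, abs_of_nonneg (div_nonneg (hW i) (by positivity) : 0 ≤ W i / w ^ 2)]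
        exact mul_le_mul (hxx i) (hWm0 i) (div_nonneg (hW i) (by positivity))
          ((abs_nonneg _).trans (hxx i))
      · rw [abs_mul, abs_of_nonneg (hx' i)]
        exact mul_le_mul_of_nonneg_left (e2 i) (hx' i)
    refine (Finset.sum_le_sum fun i _ => e3 i).trans ?_
    rw [Finset.sum_add_distrib, Finset.sum_const, Finset.card_univ, Fintype.card_fin,
      nsmul_eq_mul, ← Finset.sum_mul]
    have e4 : 0 ≤ X / ml ^ 2 + 2 * (u + c1) / ml ^ 2 := by positivity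
    have := mul_le_mul_of_nonneg_right hK e4
    linarith
  have e6 : Γ / (1 + A) - G0 / (1 + A') = (Γ - G0) * (1 + A)⁻¹ +
      G0 * ((A' - A) * ((1 + A)⁻¹ * (1 + A')⁻¹)) := by
    have n1 : (1 + A) ≠ 0 := by positivity
    have n2 : (1 + A') ≠ 0 := by positivity
    field_simp
    ring
  have i1 : (1 + A)⁻¹ ≤ 1 := inv_le_one_of_one_le₀ (by linarith)
  have i2 : (1 + A')⁻¹ ≤ 1 := inv_le_one_of_one_le₀ (by linarith)
  have i3 : 0 ≤ (1 + A)⁻¹ := by positivity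
  have i4 : 0 ≤ (1 + A')⁻¹ := by positivity
  rw [e6]
  refine (abs_add_le _ _).trans (add_le_add ?_ ?_)
  · rw [abs_mul, abs_of_nonneg i3]
    calc |Γ - G0| * (1 + A)⁻¹ ≤ X * 1 := by gcongr
      _ = X := mul_one _
  · rw [abs_mul, abs_of_pos hG0]
    refine mul_le_mul_of_nonneg_left ?_ hG0.le
    rw [abs_mul, abs_of_nonneg (mul_nonneg i3 i4), abs_sub_comm]
    refine le_trans ?_ hdiff
    refine mul_le_of_le_one_right (abs_nonneg _) ?_
    exact mul_le_one₀ i1 i4 i2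

variable {d L : ℕ} [NeZero L]

theorem gW_im_le (i : Fin d) (z : ℂ) (hz : 0 < z.im) :
    0 ≤ (gW (fun k : T d L => sg i k ^ 2) z).im ∧
    (gW (fun k : T d L => sg i k ^ 2) z).im ≤ (gL d L z).im := by
  have hN := NN_pos (d := d) (L := L)
  have h1 : ∀ k : T d L, 0 ≤ ((((adj k : ℝ) : ℂ) - z)⁻¹).im := by
    intro k
    rw [Complex.inv_im]
    have e1 : (((adj k : ℝ) : ℂ) - z).im = -z.im := by simp
    rw [e1, neg_neg]
    exact div_nonneg hz.le (Complex.normSq_nonneg _)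
  have e1 : gL d L z = mv (NN d L) fun k : T d L => (((adj k : ℝ) : ℂ) - z)⁻¹ := rfl
  have e2 : (gW (fun k : T d L => sg i k ^ 2) z).im = rv (NN d L) fun k : T d L =>
      sg i k ^ 2 * ((((adj k : ℝ) : ℂ) - z)⁻¹).im := by
    unfold gW
    rw [mv_im]
    congr 1
    funext k
    rw [Complex.im_ofReal_mul]
  rw [e1, e2, mv_im]
  constructor
  · exact rv_nonneg hN fun k => mul_nonneg (sq_nonneg _) (h1 k)
  · exact rv_mono hN fun k => mul_le_of_le_one_left (h1 k) (sg_sq_le i k)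

/-- **the mean and the profile** -/
theorem mean8 (hES : S_ES) (hFA : S_FAC) (E δ θ η a v2 Q β s2 g ε e1 c0 : ℝ) (P0 : T d L)
    (hδ : 0 < δ) (hη : 0 < η) (hη1 : η ≤ 1)
    (hadm : Adm (D0 E δ) (AA (d := d) (L := L) E δ θ) a v2 Q)
    (μ : Measure ℝ) [IsProbabilityMeasure μ] (hβ : 0 < β) (hμ : ∀ᵐ s ∂μ, |s| ≤ β)
    (h0 : ∫ s, s ∂μ = 0) (h2 : ∫ s, s ^ 2 ∂μ = s2) (hs2 : 0 < s2)
    (hβa : β * a * (3 / η) ≤ 1) (hβv : β ^ 2 * v2 ≤ 1)
    (hε0 : 0 ≤ ε) (hε1 : ε ≤ 1 / 2) (he0 : 0 ≤ e1) (he1 : e1 ≤ 1 / 4)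
    (hε : 4 * β ^ 3 * a * v2 * (3 / η) ^ 3 +
      s2 * (2 * β * (3 * Q) * Real.sqrt v2 * (3 / η) ^ 4) ≤ ε)
    (hg : ∀ E' : ℝ, ∑ k : T d L, (JJ E' (η * δ) k)⁻¹ ≤ g * NN d L) (hg1 : 1 ≤ g)
    (hlow : s2 * (∑ P : T d L, (1 - hi θ P)) ≤ e1 * (η ^ 2 * δ ^ 2) * NN d L)
    (hc0 : c0 = 4 / 3 * (ε + e1 + (2 * η + 8 * s2 ^ 2 * g ^ 2 / δ ^ 2))) (hc01 : c0 ≤ 1)
    (hts : η * δ ≤ s2) (t b0 Kp ml X ex ζ u : ℝ) (ht : t = η * δ) (hu : u = t / s2)
    (U : ℝ → Prop) (C X0 : ℝ) (γ0 γ1 : ℝ → ℂ) (hFD : FD d L U C X0 t γ0 γ1)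
    (E' : ℝ) (hE' : U E') (hEE : |E - E'| ≤ ζ) (hEU' : ∀ x, |x - E| ≤ s2 * (2 * g) → U x)
    (hsm : s2 * (2 * g) + t ≤ 1 / 2) (hml : 0 < ml) (hG : 2 * ml ≤ (γ0 E').im)
    (hX : X = X0 + C * (s2 * (2 * g) + t + ζ) ^ (1 / 8 : ℝ)) (hXml : X + c0 * g ≤ ml)
    (hb : Bt P0 ≤ b0) (hgm : gam P0 ≤ b0 ^ 2) (hPδ : b0 + b0 ^ 2 ≤ δ)
    (p : Fin d → ℝ) (hp : ∑ i, p i ^ 2 ≤ Kp * (t * s2))
    (hpx : ∀ i, |sg i P0 ^ 2 - p i ^ 2| ≤ ex * (t * s2)) (err : ℝ)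
    (herr : 80 * (c0 * g ^ 2 * s2 / t) + 9 * g ^ 3 * (b0 ^ 2 / (2 * (t * ml ^ 2)) +
      b0 ^ 3 / (8 * (t * s2 ^ 2 * ml ^ 4))) + g * b0 ^ 2 / (s2 ^ 2 * ml ^ 2) +
      (X + (3 * g + X) * (d * (ex * (3 * g / ml ^ 2)) +
        Kp * (X / ml ^ 2 + 2 * (u + (X + c0 * g)) / ml ^ 2))) ≤ err) :
    ‖∫ V, FP E δ θ η P0 V ∂(PP (T d L) μ) - ((Tg γ0 γ1 t s2 E' p : ℝ) : ℂ)‖ ≤ err := by
  have ht0 : 0 < t := by rw [ht]; positivity
  have hu0 : 0 < u := by rw [hu]; positivity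
  obtain ⟨m, z, hm, hm2, hz, hmg, hmain⟩ := meanK hES hFA E δ θ η a v2 Q β s2 g ε e1 c0 P0 hδ hη
    hη1 hadm μ hβ hμ h0 h2 hs2 hβa hβv hε0 hε1 he0 he1 hε hg hg1 hlow hc0 hc01 hts
    ((add_le_add hb hgm).trans hPδ)
  rw [← ht] at hz hmain
  have hC := hFD.C0
  have hX00 := hFD.X00
  have hzi : z.im = s2 * m.im + t := by
    rw [hz]
    simp
  have hzt : t ≤ z.im := by
    rw [hzi]
    have := mul_nonneg hs2.le hm
    linarith
  have hz1 : z.im ≤ 1 := by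
    rw [hzi]
    have h1 : s2 * m.im ≤ s2 * (2 * g) := by
      apply mul_le_mul_of_nonneg_left _ hs2.le
      exact ((le_abs_self _).trans (Complex.abs_im_le_norm m)).trans hm2
    linarith
  have hzr : z.re = E + s2 * m.re := by
    rw [hz]
    simp
  have hzU : U z.re := by
    apply hEU'
    rw [hzr, add_sub_cancel_left, abs_mul, abs_of_pos hs2]
    apply mul_le_mul_of_nonneg_left _ hs2.le
    exact (Complex.abs_re_le_norm m).trans hm2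
  have hze : ‖z - (E' : ℂ)‖ ≤ s2 * (2 * g) + t + ζ := by
    have e1 : z - (E' : ℂ) = (s2 : ℂ) * m + ((t : ℝ) : ℂ) * Complex.I + ((E - E' : ℝ) : ℂ) := by
      rw [hz]
      push_cast
      ring
    rw [e1]
    refine (norm_add_le _ _).trans (add_le_add ((norm_add_le _ _).trans (add_le_add ?_ ?_)) ?_)
    · rw [norm_mul, Complex.norm_real, Real.norm_of_nonneg hs2.le]
      gcongr
    · rw [norm_mul, Complex.norm_I, mul_one, Complex.norm_real, Real.norm_of_nonneg ht0.le]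
    · rw [Complex.norm_real, Real.norm_eq_abs]
      exact hEE
  have hze8 : ‖z - (E' : ℂ)‖ ^ (1 / 8 : ℝ) ≤ (s2 * (2 * g) + t + ζ) ^ (1 / 8 : ℝ) :=
    Real.rpow_le_rpow (norm_nonneg _) hze (by norm_num)
  have b0' : ‖gL d L z - γ0 E'‖ ≤ X := by
    have a1 := hFD.lim0 z E' hzU hE' hzt hz1
    have a3 := mul_le_mul_of_nonneg_left hze8 hC
    rw [hX]
    linarith
  have b1' : ∀ i, ‖gW (fun k : T d L => sg i k ^ 2) z - γ1 E'‖ ≤ X := by
    intro i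
    have a1 := hFD.lim1 i z E' hzU hE' hzt hz1
    have a3 := mul_le_mul_of_nonneg_left hze8 hC
    rw [hX]
    linarith
  have hX' : 0 ≤ X := (norm_nonneg _).trans b0'
  have hpos := hFD.pos E' hE'
  have hcg : 0 ≤ c0 * g := (norm_nonneg _).trans hmg
  have hz0 : 0 < z.im := ht0.trans_le hzt
  have c1 : |(gL d L z).im - (γ0 E').im| ≤ X := by
    rw [← Complex.sub_im]
    exact (Complex.abs_im_le_norm _).trans b0'
  have c2 : |m.im - (gL d L z).im| ≤ c0 * g := by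
    rw [← Complex.sub_im]
    exact (Complex.abs_im_le_norm _).trans hmg
  have c3 : |m.im - (γ0 E').im| ≤ X + c0 * g := by
    have := abs_sub_le m.im (gL d L z).im (γ0 E').im
    linarith
  have c4 : ml ≤ m.im := by
    have := (abs_le.1 c3).1
    linarith
  have c5 : m.im ≤ 2 * g := (le_abs_self _).trans ((Complex.abs_im_le_norm m).trans hm2)
  have c6 : (gL d L z).im ≤ 3 * g := by
    have := (abs_le.1 c2).1
    have h5 : c0 * g ≤ 1 * g := mul_le_mul_of_nonneg_right hc01 (by linarith)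
    linarith
  have hmn := hmain ml hml c4
  obtain ⟨Γ, hΓ⟩ : ∃ Γ, Γ = (gL d L z).im := ⟨_, rfl⟩
  obtain ⟨W, hW⟩ : ∃ W : Fin d → ℝ, W = fun i => (gW (fun k : T d L => sg i k ^ 2) z).im :=
    ⟨_, rfl⟩
  have hWi : ∀ i, W i = (gW (fun k : T d L => sg i k ^ 2) z).im := fun i => by rw [hW]
  rw [← hΓ] at hmn c1 c2 c6
  have e5 : s2 * (∑ i, (2 * sg i P0) ^ 2 * (gW (fun k : T d L => sg i k ^ 2) z).im) /
            (4 * t * (t + s2 * m.im) ^ 2) =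
      ∑ i, sg i P0 ^ 2 / (t * s2) * (W i / (u + m.im) ^ 2) := by
    rw [Finset.mul_sum, Finset.sum_div]
    refine Finset.sum_congr rfl fun i _ => ?_
    rw [← hWi, hu]
    have h5 : 0 < t / s2 + m.im := by positivity
    have h6 : t + s2 * m.im = s2 * (t / s2 + m.im) := by
      field_simp
    rw [h6]
    field_simp
    ring
  rw [e5] at hmn
  have hal := prof_alg u m.im ml X (X + c0 * g) (γ0 E').im (γ1 E').im Γ Kp ex (3 * g)
    (fun i => sg i P0 ^ 2 / (t * s2)) (fun i => p i ^ 2 / (t * s2)) W hu0.le hml c4 (by linarith)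
    hpos.1 hpos.2 (fun i => by positivity) (fun i => by positivity)
    (fun i => by rw [hWi]; exact (gW_im_le i z hz0).1)
    (fun i => by rw [hWi]; exact (gW_im_le i z hz0).2.trans (by rw [← hΓ]; exact c6)) c1
    (fun i => by
      rw [hWi, ← Complex.sub_im]
      exact (Complex.abs_im_le_norm _).trans (b1' i)) c3
    (fun i => by
      rw [← sub_div, abs_div, abs_of_pos (by positivity : 0 < t * s2), div_le_iff₀ (by positivity)]
      exact hpx i)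
    (by
      rw [← Finset.sum_div, div_le_iff₀ (by positivity)]
      exact hp)
  have hTg : Tg γ0 γ1 t s2 E' p = (γ0 E').im /
      (1 + (∑ i, p i ^ 2 / (t * s2)) * ((γ1 E').im / (γ0 E').im ^ 2)) := by
    unfold Tg
    rw [Finset.sum_div]
  rw [← hTg] at hal
  have hG0g : (γ0 E').im ≤ 3 * g + X := by
    have := (abs_le.1 c1).1
    linarith
  have hG00 : 0 ≤ (γ0 E').im := hpos.1.trans hpos.2
  obtain ⟨A, hA⟩ : ∃ A, A = Γ / (1 + ∑ i, sg i P0 ^ 2 / (t * s2) * (W i / (u + m.im) ^ 2)) :=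
    ⟨_, rfl⟩
  rw [← hA] at hmn hal
  obtain ⟨I, hI⟩ : ∃ I, I = ∫ V, FP E δ θ η P0 V ∂(PP (T d L) μ) := ⟨_, rfl⟩
  rw [← hI] at hmn ⊢
  have t1 : ‖I - ((Tg γ0 γ1 t s2 E' p : ℝ) : ℂ)‖ ≤ ‖I - ((A : ℝ) : ℂ)‖ +
      |A - Tg γ0 γ1 t s2 E' p| := by
    have e6 : I - ((Tg γ0 γ1 t s2 E' p : ℝ) : ℂ) = (I - ((A : ℝ) : ℂ)) +
        ((A - Tg γ0 γ1 t s2 E' p : ℝ) : ℂ) := by
      push_cast
      ring
    rw [e6]
    refine (norm_add_le _ _).trans (add_le_add le_rfl ?_)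
    rw [Complex.norm_real, Real.norm_eq_abs]
  have hBt0 := Bt_nonneg P0
  have hgm0 := gam_nonneg P0
  have hb0 : 0 ≤ b0 := hBt0.trans hb
  have hg0 : 0 ≤ g := by linarith
  have t2 : 80 * (c0 * g ^ 2 * s2 / t) + 9 * g ^ 3 * (gam P0 / (2 * (t * ml ^ 2)) +
            Bt P0 ^ 3 / (8 * (t * s2 ^ 2 * ml ^ 4))) + g * Bt P0 ^ 2 / (s2 ^ 2 * ml ^ 2) ≤
      80 * (c0 * g ^ 2 * s2 / t) + 9 * g ^ 3 * (b0 ^ 2 / (2 * (t * ml ^ 2)) +
      b0 ^ 3 / (8 * (t * s2 ^ 2 * ml ^ 4))) + g * b0 ^ 2 / (s2 ^ 2 * ml ^ 2) := by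
    gcongr
  have hex0 : 0 ≤ (d : ℝ) * (ex * (3 * g / ml ^ 2)) := by
    rcases Nat.eq_zero_or_pos d with h | h
    · subst h
      simp
    · have h7 := (abs_nonneg _).trans (hpx ⟨0, h⟩)
      have hex : 0 ≤ ex := by
        by_contra hcon
        push Not at hcon
        have := mul_neg_of_neg_of_pos hcon (show 0 < t * s2 by positivity)
        linarith
      positivity
  have hKp : 0 ≤ Kp := by
    by_contra hcon
    push Not at hcon
    have h8 := mul_neg_of_neg_of_pos hcon (show 0 < t * s2 by positivity)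
    have h9 : 0 ≤ ∑ i, p i ^ 2 := Finset.sum_nonneg fun i _ => sq_nonneg _
    linarith
  have t3 : (γ0 E').im * (d * (ex * (3 * g / ml ^ 2)) +
        Kp * (X / ml ^ 2 + 2 * (u + (X + c0 * g)) / ml ^ 2)) ≤
      (3 * g + X) * (d * (ex * (3 * g / ml ^ 2)) +
        Kp * (X / ml ^ 2 + 2 * (u + (X + c0 * g)) / ml ^ 2)) := by
    apply mul_le_mul_of_nonneg_right hG0g
    have : 0 ≤ Kp * (X / ml ^ 2 + 2 * (u + (X + c0 * g)) / ml ^ 2) := by positivity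
    linarith
  linarith

end Pool.Agent.TH794.HK
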