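import Pool.Agent.TH794.QE.LatA
import Pool.Agent.TH794.HK.TorK

/-! From the torus to the lattice. -/

set_option autoImplicit false
set_option linter.unusedSectionVars false

open scoped BigOperators Matrix
open MeasureTheory

namespace Pool.Agent.TH794.HK

open Pool.Agent.W788.BK
open Pool.Agent.W788
open Pool.Agent.W788.MFP.Four Pool.Agent.W788.MFP.Dos Pool.Agent.W788.MFP.Form
open Pool.Agent.W788.MFP.Ball Pool.Agent.W788.MFP.Crit Pool.Agent.W788.MFP.Cut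
open Pool.Agent.W788.MFP.Site Pool.Agent.W788.MF2.Dom Pool.Agent.W788.MF2.FinG
open Pool.Agent.W788.MF2.FormG Pool.Agent.W788.LD.Main Pool.Agent.H4R2
open Pool.Agent.H4R2.LO (Zd)
open Pool.Agent.H695R3.AN (lf lf_inj lf_add lf_sub)
open Pool.Agent.TH794.LL2 (Bq Bq_nonneg cut2)
open Pool.Agent.TH794.FG
open Pool.Agent.TH794.QD
open Pool.Agent.TH794.QE

variable {d L : ℕ} [NeZero L]

theorem sum_torC (ℓ : ℝ) (hL : 2 * ℓ < L) (g : Zd d → ℂ) (h : ∀ x, ℓ < ‖x‖ → g x = 0) :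
    ∑ y : T d L, g (lf y) = ∑' x, g x := by
  classical
  rw [tsum_eq_sum (s := Finset.univ.image (lf : T d L → Zd d))]
  · rw [Finset.sum_image]
    intro x _ y _ hxy
    exact lf_inj hxy
  · intro x hx
    apply h
    by_contra hle
    push Not at hle
    apply hx
    rw [Finset.mem_image]
    exact ⟨z L x, Finset.mem_univ _, lf_z x (by linarith)⟩

/-- the phase -/
noncomputable def ph (p : Fin d → ℝ) (x : Zd d) : ℂ :=
  Complex.exp (Complex.I * ((∑ i, p i * (x i : ℝ) : ℝ) : ℂ))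

theorem ph_norm (p : Fin d → ℝ) (x : Zd d) : ‖ph p x‖ = 1 := by
  unfold ph
  rw [mul_comm]
  exact Complex.norm_exp_ofReal_mul_I _

theorem ph_diff (p p' : Fin d → ℝ) (x : Zd d) (e R : ℝ) (he : 0 ≤ e)
    (h : ∀ i, |p i - p' i| ≤ e) (hx : ‖x‖ ≤ R) : ‖ph p x - ph p' x‖ ≤ d * (e * R) := by
  have h1 : ph p x - ph p' x = ph p' x * (Complex.exp (((∑ i, p i * (x i : ℝ) -
      ∑ i, p' i * (x i : ℝ) : ℝ) : ℂ) * Complex.I) - 1) := by
    unfold ph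
    rw [mul_sub, mul_one, ← Complex.exp_add]
    congr 2
    push_cast
    ring
  have h2 : ∑ i, p i * (x i : ℝ) - ∑ i, p' i * (x i : ℝ) = ∑ i, (p i - p' i) * (x i : ℝ) := by
    rw [← Finset.sum_sub_distrib]
    exact Finset.sum_congr rfl fun i _ => by ring
  have h3 : |∑ i, (p i - p' i) * (x i : ℝ)| ≤ d * (e * R) := by
    refine (Finset.abs_sum_le_sum_abs _ _).trans ?_
    have h4 : ∀ i ∈ (Finset.univ : Finset (Fin d)), |(p i - p' i) * (x i : ℝ)| ≤ e * R := by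
      intro i _
      rw [abs_mul]
      have h5 : |((x i : ℤ) : ℝ)| ≤ R := by
        have := norm_le_pi_norm x i
        rw [Int.norm_eq_abs] at this
        exact this.trans hx
      exact mul_le_mul (h i) h5 (abs_nonneg _) he
    refine (Finset.sum_le_sum h4).trans (le_of_eq ?_)
    rw [Finset.sum_const, Finset.card_univ, Fintype.card_fin, nsmul_eq_mul]
  rw [h1, norm_mul, ph_norm, one_mul, h2]
  refine le_trans ?_ h3
  have h6 := Real.norm_exp_I_mul_ofReal_sub_one_le (x := ∑ i, (p i - p' i) * (x i : ℝ))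
  rw [mul_comm] at h6
  exact h6

/-- the characters -/
theorem e_ph (n : Fin d → ℤ) (y : T d L) :
    e (fun i => ((n i : ℤ) : ZMod L)) y = ph (fun i => 2 * Real.pi * n i / L) (lf y) := by
  unfold e ph
  have h1 : ∑ i, ((n i : ℤ) : ZMod L) * y i = ((∑ i, n i * lf y i : ℤ) : ZMod L) := by
    push_cast
    refine Finset.sum_congr rfl fun i _ => ?_
    congr 1
    unfold lf
    rw [ZMod.coe_valMinAbs]
  rw [h1, ZMod.stdAddChar_coe]
  congr 1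
  push_cast
  rw [Finset.mul_sum, Finset.mul_sum, Finset.sum_div]
  refine Finset.sum_congr rfl fun i _ => ?_
  ring

/-- the characteristic function of the position -/
noncomputable def chiZ (p : Fin d → ℝ) (ur ui : Zd d → ℝ) : ℂ :=
  ∑' x, ph p x * ((ur x ^ 2 + ui x ^ 2 : ℝ) : ℂ)

/-- **the Green function on the torus** -/
theorem tor_chi {σ : ℝ} {ξ : Zd d → ℝ} {E t : ℝ} {ur ui : Zd d → ℝ} (ℓ : ℝ) (hℓ0 : 0 < ℓ)
    (hL : 4 * ℓ + 4 < L) (ht : 0 < t) (ht1 : t ≤ 1) (hd : 1 ≤ d)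
    (h : LS d σ ξ (Pi.single 0 1) (fun _ => 0) E t ur ui) :
    ∃ vr vi rr ri : T d L → ℝ,
      Sol3 E t (fun y => σ * ξ (lf y)) (Pi.single 0 1) (fun _ => 0) vr vi rr ri ∧
      Real.sqrt (Bq vr vi) ≤ t⁻¹ ∧ Real.sqrt (Bq rr ri) ≤ 2 * d / ℓ * t⁻¹ ∧
      ∀ (p : Fin d → ℝ) (n : Fin d → ℤ) (ϖ : ℝ), 0 ≤ ϖ →
        (∀ i, |p i - 2 * Real.pi * n i / L| ≤ ϖ) →
        ‖chiZ p ur ui - chiT (fun i => ((n i : ℤ) : ZMod L)) vr vi‖ ≤
          4 * d * (t⁻¹) ^ 4 / ℓ ^ 2 + d * (ϖ * (2 * ℓ)) * Bq vr vi := by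
  obtain ⟨hT, -, -, -⟩ := green h ht ht1 ⟨0, by omega⟩
  have hgr := fun j => green h ht ht1 j
  obtain ⟨rr, hr1, hr2, hr3⟩ := cut2 (L := L) σ E ℓ hℓ0 hL ξ ur _ h.sr h.er
  obtain ⟨ri, hi1, hi2, hi3⟩ := cut2 (L := L) σ E ℓ hℓ0 hL ξ ui _ h.si h.ei
  obtain ⟨vr, hvr⟩ : ∃ vr : T d L → ℝ, vr = fun y => φ ℓ (lf y) * ur (lf y) := ⟨_, rfl⟩
  obtain ⟨vi, hvi⟩ : ∃ vi : T d L → ℝ, vi = fun y => φ ℓ (lf y) * ui (lf y) := ⟨_, rfl⟩
  refine ⟨vr, vi, rr, ri, ?_, ?_, ?_, ?_⟩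
  · refine ⟨fun x => ?_, fun x => ?_⟩
    · rw [hvr, hvi, hr1 x, mul_sub, single_lf ℓ hℓ0 hL]
      ring
    · rw [hvr, hvi, hi1 x]
      ring
  · rw [Real.sqrt_le_left (inv_nonneg.2 ht.le), hvr, hvi]
    refine le_trans ?_ hT
    exact add_le_add hr2 hi2
  · rw [Real.sqrt_le_left (by positivity)]
    calc Bq rr ri ≤ (2 * d / ℓ) ^ 2 * ∑' x, ur x ^ 2 + (2 * d / ℓ) ^ 2 * ∑' x, ui x ^ 2 :=
          add_le_add hr3 hi3
      _ = (2 * d / ℓ) ^ 2 * (∑' x, ur x ^ 2 + ∑' x, ui x ^ 2) := by ring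
      _ ≤ (2 * d / ℓ) ^ 2 * (t⁻¹) ^ 2 := by gcongr
      _ = _ := by ring
  · intro p n ϖ hϖ hpn
    have b1 := tail_cut (L := L) ℓ hℓ0 hL ur h.sr (fun i => (hgr i).2.1.sr)
    have b2 := tail_cut (L := L) ℓ hℓ0 hL ui h.si (fun i => (hgr i).2.1.si)
    obtain ⟨w, hw⟩ : ∃ w : Zd d → ℝ, w = fun x => ur x ^ 2 + ui x ^ 2 := ⟨_, rfl⟩
    have hwx : ∀ x, w x = ur x ^ 2 + ui x ^ 2 := fun x => by rw [hw]
    have hw0 : ∀ x, 0 ≤ w x := fun x => by rw [hwx]; positivity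
    have sw : Summable w := by
      rw [hw]
      exact h.sr.add h.si
    have hφ1 : ∀ x : Zd d, φ ℓ x ^ 2 ≤ 1 := fun x => pow_le_one₀ (φ_nonneg _ _) (φ_le_one _ _)
    have sφ : Summable fun x => φ ℓ x ^ 2 * w x :=
      Summable.of_nonneg_of_le (fun x => mul_nonneg (sq_nonneg _) (hw0 x))
        (fun x => mul_le_of_le_one_left (hw0 x) (hφ1 x)) sw
    have hBq : Bq vr vi = ∑' x, φ ℓ x ^ 2 * w x := by
      rw [← sum_tor (L := L) (2 * ℓ) (by linarith) (fun x => φ ℓ x ^ 2 * w x) (fun x hx => by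
        rw [φ_zero ℓ hℓ0 x hx.le]
        ring)]
      unfold Bq
      rw [← Finset.sum_add_distrib, hvr, hvi]
      refine Finset.sum_congr rfl fun x _ => ?_
      rw [hwx]
      ring
    obtain ⟨p', hp'⟩ : ∃ p' : Fin d → ℝ, p' = fun i => 2 * Real.pi * n i / L := ⟨_, rfl⟩
    have hchT : chiT (fun i => ((n i : ℤ) : ZMod L)) vr vi =
        ∑' x, ph p' x * ((φ ℓ x ^ 2 * w x : ℝ) : ℂ) := by
      rw [← sum_torC (L := L) (2 * ℓ) (by linarith) (fun x => ph p' x *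
        ((φ ℓ x ^ 2 * w x : ℝ) : ℂ)) (fun x hx => by
        rw [φ_zero ℓ hℓ0 x hx.le]
        simp)]
      unfold chiT
      refine Finset.sum_congr rfl fun x _ => ?_
      rw [e_ph, hvr, hvi, hp', hwx]
      congr 2
      ring
    have s1 : Summable fun x => ph p x * ((w x : ℝ) : ℂ) := by
      refine Summable.of_norm ?_
      refine sw.congr fun x => ?_
      rw [norm_mul, ph_norm, one_mul, Complex.norm_real, Real.norm_of_nonneg (hw0 x)]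
    have s2 : Summable fun x => ph p' x * ((φ ℓ x ^ 2 * w x : ℝ) : ℂ) := by
      refine Summable.of_norm ?_
      refine sφ.congr fun x => ?_
      rw [norm_mul, ph_norm, one_mul, Complex.norm_real,
        Real.norm_of_nonneg (mul_nonneg (sq_nonneg _) (hw0 x))]
    have hch : chiZ p ur ui = ∑' x, ph p x * ((w x : ℝ) : ℂ) := by
      unfold chiZ
      rw [hw]
    obtain ⟨c2, hc2⟩ : ∃ c2, c2 = d * (ϖ * (2 * ℓ)) := ⟨_, rfl⟩
    have hc20 : 0 ≤ c2 := by rw [hc2]; positivity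
    have hpt : ∀ x, ‖ph p x * ((w x : ℝ) : ℂ) - ph p' x * ((φ ℓ x ^ 2 * w x : ℝ) : ℂ)‖ ≤
        (w x - φ ℓ x ^ 2 * w x) + c2 * (φ ℓ x ^ 2 * w x) := by
      intro x
      have e1 : ph p x * ((w x : ℝ) : ℂ) - ph p' x * ((φ ℓ x ^ 2 * w x : ℝ) : ℂ) =
          ph p x * ((w x - φ ℓ x ^ 2 * w x : ℝ) : ℂ) +
          (ph p x - ph p' x) * ((φ ℓ x ^ 2 * w x : ℝ) : ℂ) := by
        push_cast
        ring
      rw [e1]
      refine (norm_add_le _ _).trans (add_le_add ?_ ?_)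
      · rw [norm_mul, ph_norm, one_mul, Complex.norm_real, Real.norm_of_nonneg]
        have := mul_le_of_le_one_left (hw0 x) (hφ1 x)
        linarith
      · rw [norm_mul, Complex.norm_real, Real.norm_of_nonneg (mul_nonneg (sq_nonneg _) (hw0 x))]
        rcases le_or_gt (2 * ℓ) ‖x‖ with h5 | h5
        · rw [φ_zero ℓ hℓ0 x h5]
          simp
        · apply mul_le_mul_of_nonneg_right _ (mul_nonneg (sq_nonneg _) (hw0 x))
          rw [hc2]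
          exact ph_diff p p' x ϖ (2 * ℓ) hϖ (fun i => by rw [hp']; exact hpn i) h5.le
    have hsum : Summable fun x => (w x - φ ℓ x ^ 2 * w x) + c2 * (φ ℓ x ^ 2 * w x) :=
      (sw.sub sφ).add (sφ.mul_left c2)
    rw [hch, hchT, ← s1.tsum_sub s2]
    have hle : ‖∑' x, (ph p x * ((w x : ℝ) : ℂ) - ph p' x * ((φ ℓ x ^ 2 * w x : ℝ) : ℂ))‖ ≤
        ∑' x, ((w x - φ ℓ x ^ 2 * w x) + c2 * (φ ℓ x ^ 2 * w x)) :=
      tsum_of_norm_bounded hsum.hasSum hpt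
    refine hle.trans ?_
    rw [(sw.sub sφ).tsum_add (sφ.mul_left c2), sw.tsum_sub sφ, tsum_mul_left, ← hBq, hc2]
    have e3 : ∑' x, w x = ∑' x, ur x ^ 2 + ∑' x, ui x ^ 2 := by
      rw [hw, h.sr.tsum_add h.si]
    have e4 : Bq vr vi = ∑ y : T d L, (φ ℓ (lf y) * ur (lf y)) ^ 2 +
        ∑ y : T d L, (φ ℓ (lf y) * ui (lf y)) ^ 2 := by
      rw [hvr, hvi]
      rfl
    have b4 : 1 / ℓ ^ 2 * ∑ i : Fin d, ∑' x, (cj i x * ur x) ^ 2 +
        1 / ℓ ^ 2 * ∑ i : Fin d, ∑' x, (cj i x * ui x) ^ 2 ≤ 4 * d * (t⁻¹) ^ 4 / ℓ ^ 2 := by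
      rw [← mul_add, ← Finset.sum_add_distrib]
      have b5 : ∑ i : Fin d, (∑' x, (cj i x * ur x) ^ 2 + ∑' x, (cj i x * ui x) ^ 2) ≤
          d * (2 * (t⁻¹) ^ 2) ^ 2 := by
        refine (Finset.sum_le_sum fun i _ => (hgr i).2.2.1).trans (le_of_eq ?_)
        rw [Finset.sum_const, Finset.card_univ, Fintype.card_fin, nsmul_eq_mul]
      calc _ ≤ 1 / ℓ ^ 2 * (d * (2 * (t⁻¹) ^ 2) ^ 2) :=
            mul_le_mul_of_nonneg_left b5 (by positivity)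
        _ = _ := by ring
    have b6 := b1.2
    have b7 := b2.2
    linarith

/-- the law of the characteristic function -/
def QLawK (d : ℕ) (B : ℝ → Prop) (Tgt : ℝ → (Fin d → ℝ) → ℝ) (σ R t ζ Kt e3 : ℝ)
    (ξ : Zd d → ℝ) : Prop :=
  ∀ a : Zd d, ‖a‖ ≤ R → ∀ E : ℝ, B E → ∀ t' : ℝ, t ≤ t' → t' ≤ t + ζ → ∀ ur ui : Zd d → ℝ,
    LS d σ ξ (fun x => (Pi.single (M := fun _ => ℝ) 0 1 : Zd d → ℝ) (x - a)) (fun _ => 0) E t'
      ur ui → ∀ p : Fin d → ℝ, ∑ i, p i ^ 2 ≤ Kt →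
    ‖((t' : ℝ) : ℂ) * ∑' x, ph p (x - a) * ((ur x ^ 2 + ui x ^ 2 : ℝ) : ℂ) -
      ((Tgt E p : ℝ) : ℂ)‖ ≤ e3

/-- **the lattice event** -/
theorem mainK (hd : 1 ≤ d) (B B' : ℝ → Prop) (Tgt : ℝ → (Fin d → ℝ) → ℝ) (μ : Measure ℝ)
    [IsProbabilityMeasure μ] (c : ℝ)
    (hμ : DomBy μ c) (σ R δ θ η κ g1 ρ τ Kf ζ ω1 W s e3 em e4 Kt ℓ : ℝ) (M : ℕ) (hσ : 0 < σ)
    (hR : 1 ≤ R) (hδ : 0 < δ) (hδ1 : δ ≤ 1 / 2) (hη : 0 < η) (hη1 : η ≤ 1)
    (ht1 : η * δ + ζ ≤ 1) (hζt : ζ ≤ η * δ)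
    (hκ : 0 < κ) (hκ2 : κ ≤ 1 / 2)
    (hζ : 0 < ζ) (hM : W + ζ ≤ ζ * M)
    (hB' : ∀ E, B' E → |E| ≤ W ∧ ∀ j : ℤ, |E - ζ * j| ≤ ζ → B (ζ * j))
    (hg : ∀ E, ∑ k : T d L, (JJ E δ k)⁻¹ ≤ g1 * NN d L) (hg0 : 0 ≤ g1)
    (hρ0 : 0 ≤ ρ) (hτ : 0 ≤ τ) (hKf : 0 ≤ Kf)
    (ρ' : ℝ) (hρ' : ρ' = 2 * (ρ + ζ * (η * δ)⁻¹) + 2 * (ζ * (η * δ)⁻¹))
    (h1 : 2 * (τ / (η * δ) + 2 * (κ + η)) * (Kf + ρ' / (η * δ)) +
      2 * Real.sqrt Kf * (2 * (Real.sqrt η * Real.sqrt g1) +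
        3 * (ρ' / Real.sqrt (η * δ))) + ρ' / (η * δ) ≤ 1)
    (hκ' : τ / (η * δ) + 2 * (κ + η) ≤ 1)
    (Bb : ℝ) (hB : Bb = Real.sqrt ((Kf + 1) / (η * δ)))
    (hs : s = (Real.sqrt η)⁻¹ * ((Real.sqrt δ)⁻¹ * (ρ' + τ * Bb) + η * (2 * Real.sqrt g1 +
      2 * (κ + η) * (Real.sqrt δ * Bb) + 2 * ((Real.sqrt δ)⁻¹ * ρ'))))
    (he3 : 2 * Real.sqrt Kf * s + s ^ 2 + 2 * ω1 + ζ * ((Kf + 1) / (η * δ)) ≤ e3)
    (hℓ0 : 0 < ℓ) (hL : 4 * ℓ + 4 < L) (hρℓ : 2 * d / ℓ * (η * δ)⁻¹ ≤ ρ)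
    (hmean : ∀ E1 E : ℝ, B E1 → B' E → |E1 - E| ≤ ζ → ∀ (p : Fin d → ℝ) (n : Fin d → ℤ),
      (∀ i, |p i - 2 * Real.pi * n i / L| ≤ 7 / L) → ∑ i, p i ^ 2 ≤ Kt →
      ‖∫ U, FP (d := d) (L := L) E1 δ θ η (fun i => ((n i : ℤ) : ZMod L)) U
        ∂(PP (T d L) (μ.map fun s => σ * s)) - ((Tgt E p : ℝ) : ℂ)‖ ≤ em)
    (he4 : e3 + em + (4 * d * ((η * δ)⁻¹) ^ 4 / ℓ ^ 2 + 28 * d * (ℓ / L) * (Kf + 1)) ≤ e4)
    (p : ℕ) (hp : p ≠ 0) (ε1 ε : ℝ)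
    (hgood : (PP (T d L) (μ.map fun s => σ * s)).real
      (GoodK (d := d) (L := L) B (μ.map fun s => σ * s) δ θ η τ ζ Kf ω1 M)ᶜ ≤ ε1)
    (hε : (3 * R) ^ d * ((8 * d / δ) * ((8 * p * g1 * c ^ 2 * σ ^ 2 / (δ * κ ^ 2)) ^ p *
      (L : ℝ) ^ d) + ε1) ≤ ε) :
    ∃ G : Set (Zd d → ℝ), MeasurableSet G ∧
      1 - ε ≤ (Measure.infinitePi fun _ : Zd d => μ).real G ∧
      ∀ ξ ∈ G, QLawK d B' Tgt σ R (η * δ) ζ Kt e4 ξ := by
  have hmeas : MeasurableSet (GoodK (d := d) (L := L) B (μ.map fun s => σ * s) δ θ η τ ζ Kf ω1 M) :=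
    goodK_meas B _ δ θ η τ ζ Kf ω1 M hη
  have ht : 0 < η * δ := by positivity
  have hGB : GB d L δ g1 := by
    intro E
    have e1 := hg E
    rw [inv_mul_le_iff₀ NN_pos]
    have e2 : ∑ k : T d L, (J E δ k)⁻¹ = ∑ k : T d L, (JJ E δ k)⁻¹ := rfl
    rw [e2]
    linarith
  obtain ⟨G1, hG1, hP1, hb⟩ := formE (d := d) (L := L) hd μ c hμ δ g1 hδ hδ1 hGB
    (κ / (2 * σ)) (by positivity) p hp
  have hsm : Measurable fun (V : T d L → ℝ) y => σ * V y := by fun_prop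
  obtain ⟨G2, hG2⟩ : ∃ G2, G2 = (fun (V : T d L → ℝ) y => σ * V y) ⁻¹'
    GoodK (d := d) (L := L) B (μ.map fun s => σ * s) δ θ η τ ζ Kf ω1 M := ⟨_, rfl⟩
  have hG2m : MeasurableSet G2 := by
    rw [hG2]
    exact hsm hmeas
  have hpm : IsProbabilityMeasure (μ.map fun s => σ * s) :=
    Measure.isProbabilityMeasure_map (by fun_prop)
  have hP2 : (Measure.pi fun _ : T d L => μ).real G2ᶜ ≤ ε1 := by
    have e1 : PP (T d L) (μ.map fun s => σ * s) =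
        (Measure.pi fun _ : T d L => μ).map (fun (V : T d L → ℝ) y => σ * V y) := by
      unfold PP
      rw [Measure.pi_map_pi (μ := fun _ : T d L => μ) (f := fun _ (s : ℝ) => σ * s)]
      intro i
      fun_prop
    rw [e1, map_measureReal_apply hsm hmeas.compl] at hgood
    rw [hG2]
    exact hgood
  have hG : MeasurableSet (G1 ∩ G2) := hG1.inter hG2m
  have hP : (3 * R) ^ d * (Measure.pi fun _ : T d L => μ).real (G1 ∩ G2)ᶜ ≤ ε := by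
    refine le_trans ?_ hε
    apply mul_le_mul_of_nonneg_left _ (by positivity)
    rw [Set.compl_inter]
    refine (measureReal_union_le _ _).trans (add_le_add ?_ hP2)
    refine hP1.trans ?_
    apply mul_le_mul_of_nonneg_left _ (by positivity)
    have e1 : 2 * p * g1 * δ⁻¹ * c ^ 2 / (κ / (2 * σ)) ^ 2 =
        8 * p * g1 * c ^ 2 * σ ^ 2 / (δ * κ ^ 2) := by
      field_simp
      ring
    rw [e1]
    exact le_refl _
  set Bx : Finset (Zd d) := LO.bx (0 : Zd d) ⌊R⌋₊ with hBx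
  set Rr : Zd d → (Zd d → ℝ) → (T d L → ℝ) := fun a ω y => ω (lf y + a) with hRr
  have hRm : ∀ a, Measurable (Rr a) := fun a => measurable_pi_iff.2 fun y => measurable_pi_apply _
  have hPa : ∀ a, (Measure.infinitePi fun _ : Zd d => μ).real (Rr a ⁻¹' (G1 ∩ G2))ᶜ =
      (Measure.pi fun _ : T d L => μ).real (G1 ∩ G2)ᶜ := by
    intro a
    have h1 : (Measure.infinitePi fun _ : Zd d => μ).real (Rr a ⁻¹' (G1 ∩ G2)ᶜ) =
        (Measure.pi fun _ : T d L => μ).real (G1 ∩ G2)ᶜ := by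
      rw [← Gen3.law_shift (d := d) (L := L) μ a, map_measureReal_apply (hRm a) hG.compl]
    exact h1
  have hm : MeasurableSet (⋂ a ∈ Bx, Rr a ⁻¹' (G1 ∩ G2)) :=
    Finset.measurableSet_biInter _ fun a _ => hRm a hG
  refine ⟨⋂ a ∈ Bx, Rr a ⁻¹' (G1 ∩ G2), hm, ?_, ?_⟩
  · have h2 := probReal_add_probReal_compl (μ := Measure.infinitePi fun _ : Zd d => μ) hm
    have h3 : (Measure.infinitePi fun _ : Zd d => μ).real (⋂ a ∈ Bx, Rr a ⁻¹' (G1 ∩ G2))ᶜ ≤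
        (3 * R) ^ d * (Measure.pi fun _ : T d L => μ).real (G1 ∩ G2)ᶜ := by
      have e1 : (⋂ a ∈ Bx, Rr a ⁻¹' (G1 ∩ G2))ᶜ = ⋃ a ∈ Bx, (Rr a ⁻¹' (G1 ∩ G2))ᶜ := by
        simp only [Set.compl_iInter]
      rw [e1]
      refine (measureReal_biUnion_finset_le _ _).trans
        ((Finset.sum_le_sum fun a _ => (hPa a).le).trans ?_)
      rw [Finset.sum_const, nsmul_eq_mul, hBx, LO.Em.card_bx]
      apply mul_le_mul_of_nonneg_right _ measureReal_nonneg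
      push_cast
      apply pow_le_pow_left₀ (by positivity)
      have := Nat.floor_le (show 0 ≤ R by linarith)
      linarith
    linarith
  · intro ξ hξ a ha E hBE' t' htt htt' ur ui hLS pv hpv
    obtain ⟨hE, hBj⟩ := hB' E hBE'
    have haB : a ∈ Bx := Gen3.norm_zd a R ha
    have hV : Rr a ξ ∈ G1 ∩ G2 := Set.mem_iInter₂.1 hξ a haB
    have hV2 := hV.2
    rw [hG2] at hV2
    have ht'0 : 0 < t' := ht.trans_le htt
    have hLS0 : LS d σ (fun x => ξ (x + a)) (Pi.single 0 1) (fun _ => 0) E t'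
        (fun x => ur (x + a)) (fun x => ui (x + a)) :=
      LS.shift (fr := Pi.single 0 1) (fi := fun _ => 0) a hLS
    obtain ⟨vr, vi, rr, ri, hs1, hv1, hv2, hfin⟩ :=
      tor_chi (L := L) ℓ hℓ0 hL ht'0 (by linarith) hd hLS0
    have hti : t'⁻¹ ≤ (η * δ)⁻¹ := inv_anti₀ ht htt
    have hform : ∀ (E : ℝ) (w : T d L → ℝ),
        |∑ x, (σ * ξ (lf x + a)) * w x ^ 2| ≤ κ * q (JJ E δ) w := by
      intro E w
      have e1 := hb _ hV.1 E w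
      have e2 : ∑ x, (σ * ξ (lf x + a)) * w x ^ 2 = σ * ∑ x, Rr a ξ x * w x ^ 2 := by
        rw [Finset.mul_sum]
        exact Finset.sum_congr rfl fun x _ => by rw [hRr]; ring
      rw [e2, abs_mul, abs_of_pos hσ]
      calc σ * |∑ x, Rr a ξ x * w x ^ 2| ≤ σ * (2 * (κ / (2 * σ)) * q (J E δ) w) :=
            mul_le_mul_of_nonneg_left e1 hσ.le
        _ = κ * q (J E δ) w := by
            field_simp
        _ = _ := rfl
    obtain ⟨i, hEi, hBi, hBq, hq⟩ := torK B (μ.map fun s => σ * s) δ θ η κ g1 ρ τ Kf ζ ω1 W t' M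
      hδ hη hη1 hκ hκ2 hζ hM (fun y => σ * ξ (lf y + a)) hV2 hform hg hg0 hρ0 hτ hKf ρ' hρ'
      h1 hκ' Bb s e3 hB hs he3 E hE hBj (by
        rw [abs_of_nonneg (by linarith)]
        linarith) vr vi rr ri hs1 (hv2.trans (le_trans (by gcongr) hρℓ)) (hv1.trans hti)
    -- the momenta
    have hLp : (0 : ℝ) < L := by
      linarith
    obtain ⟨n, hn⟩ : ∃ n : Fin d → ℤ, n = fun i => ⌊pv i * L / (2 * Real.pi)⌋ := ⟨_, rfl⟩
    have hπ := Real.pi_pos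
    have hpn : ∀ i, |pv i - 2 * Real.pi * n i / L| ≤ 7 / L := by
      intro i
      have a1 := Int.floor_le (pv i * L / (2 * Real.pi))
      have a2 := Int.lt_floor_add_one (pv i * L / (2 * Real.pi))
      have e1 : pv i - 2 * Real.pi * n i / L =
          2 * Real.pi / L * (pv i * L / (2 * Real.pi) - n i) := by
        field_simp
      rw [e1, abs_mul, abs_of_pos (by positivity), hn]
      have a3 : |pv i * L / (2 * Real.pi) - (⌊pv i * L / (2 * Real.pi)⌋ : ℝ)| ≤ 1 := by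
        rw [abs_le]
        constructor <;> linarith
      calc 2 * Real.pi / L * |pv i * L / (2 * Real.pi) - (⌊pv i * L / (2 * Real.pi)⌋ : ℝ)| ≤
            2 * Real.pi / L * 1 := by gcongr
        _ ≤ 7 / L := by
            rw [mul_one]
            apply div_le_div_of_nonneg_right _ hLp.le
            have := Real.pi_lt_d2
            linarith
    have c1 := hfin pv n (7 / L) (by positivity) hpn
    have c2 := hq (fun i => ((n i : ℤ) : ZMod L))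
    have c3 := hmean (ζ * i) E hBi hBE' (by rw [abs_sub_comm]; exact hEi) pv n hpn hpv
    have e5 : ∑' x, ph pv (x - a) * ((ur x ^ 2 + ui x ^ 2 : ℝ) : ℂ) =
        chiZ pv (fun x => ur (x + a)) (fun x => ui (x + a)) := by
      unfold chiZ
      rw [← (Equiv.addRight a).tsum_eq fun x => ph pv (x - a) * ((ur x ^ 2 + ui x ^ 2 : ℝ) : ℂ)]
      refine tsum_congr fun x => ?_
      simp only [Equiv.coe_addRight, add_sub_cancel_right]
    rw [e5]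
    obtain ⟨X, hX⟩ : ∃ X, X = chiZ pv (fun x => ur (x + a)) (fun x => ui (x + a)) := ⟨_, rfl⟩
    obtain ⟨Y, hY⟩ : ∃ Y, Y = chiT (fun i => ((n i : ℤ) : ZMod L)) vr vi := ⟨_, rfl⟩
    rw [← hX] at c1 ⊢
    rw [← hY] at c1 c2
    have c4 : ‖((t' : ℝ) : ℂ) * (X - Y)‖ ≤
        4 * d * ((η * δ)⁻¹) ^ 4 / ℓ ^ 2 + 28 * d * (ℓ / L) * (Kf + 1) := by
      rw [norm_mul, Complex.norm_real, Real.norm_of_nonneg ht'0.le]
      have b1 : t' * ‖X - Y‖ ≤ t' * (4 * d * (t'⁻¹) ^ 4 / ℓ ^ 2 +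
          d * (7 / L * (2 * ℓ)) * Bq vr vi) := mul_le_mul_of_nonneg_left c1 ht'0.le
      have b2 : t' * (4 * d * (t'⁻¹) ^ 4 / ℓ ^ 2) ≤ 4 * d * ((η * δ)⁻¹) ^ 4 / ℓ ^ 2 := by
        have h5 : t' ≤ 1 := by linarith
        have h6 : 0 ≤ t'⁻¹ := by positivity
        calc t' * (4 * d * (t'⁻¹) ^ 4 / ℓ ^ 2) ≤ 1 * (4 * d * ((η * δ)⁻¹) ^ 4 / ℓ ^ 2) := by
              gcongr
          _ = _ := one_mul _
      have b3 : t' * (d * (7 / L * (2 * ℓ)) * Bq vr vi) ≤ 28 * d * (ℓ / L) * (Kf + 1) := by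
        have h5 : t' ≤ 2 * (η * δ) := by linarith
        have h6 := Bq_nonneg vr vi
        calc t' * (d * (7 / L * (2 * ℓ)) * Bq vr vi) ≤
              (2 * (η * δ)) * (d * (7 / L * (2 * ℓ)) * ((Kf + 1) / (η * δ))) := by gcongr
          _ = _ := by
              field_simp
              ring
      rw [mul_add] at b1
      linarith
    have e6 : ((t' : ℝ) : ℂ) * X - ((Tgt E pv : ℝ) : ℂ) = ((t' : ℝ) : ℂ) * (X - Y) +
        (((t' : ℝ) : ℂ) * Y - ∫ U, FP (d := d) (L := L) (ζ * i) δ θ η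
          (fun i => ((n i : ℤ) : ZMod L)) U ∂(PP (T d L) (μ.map fun s => σ * s))) +
        (∫ U, FP (d := d) (L := L) (ζ * i) δ θ η (fun i => ((n i : ℤ) : ZMod L)) U
          ∂(PP (T d L) (μ.map fun s => σ * s)) - ((Tgt E pv : ℝ) : ℂ)) := by
      ring
    rw [e6]
    refine (norm_add_le _ _).trans ((add_le_add ((norm_add_le _ _).trans (add_le_add c4 c2))
      c3).trans ?_)
    linarith

end Pool.Agent.TH794.HK
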