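import Pool.Agent.TH794.HK.GeoK

/-! The mean of the twisted chain on the torus. -/

set_option autoImplicit false
set_option linter.unusedSectionVars false

open scoped BigOperators Matrix
open MeasureTheory

namespace Pool.Agent.TH794.HK

open Pool.Agent.TH794.QD
open Pool.Agent.W788.BK
open Pool.Agent.TH794.LL2
open Pool.Agent.W240.BK (ae_PP)
open Pool.Agent.W261.BK (nn nn_nonneg nn_sq nn_add nn_smul nn_le triple IB IM int_bl XX_cont)
open Pool.Agent.W788.MFP.Four (T e NN adj K ft Op q NN_pos e_zero)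

variable {d L : ℕ} [NeZero L]

/-- the twisted chain at the site -/
noncomputable def FP (E δ θ η : ℝ) (P0 : T d L) (V : T d L → ℝ) : ℂ :=
  star (w0 (d := d) (L := L) E δ) ⬝ᵥ (BT E δ θ η P0 V 0 1 *ᵥ w0 E δ)

/-- the mean of a covariant block -/
theorem bt_mean (E δ θ η a v2 Q : ℝ) (P0 Qs : T d L) (i j : Fin 3)
    (hδ : 0 < δ) (hη : 0 < η) (hη1 : η ≤ 1)
    (hadm : Adm (D0 E δ) (AA (d := d) (L := L) E δ θ) a v2 Q)
    (μ : Measure ℝ) [IsProbabilityMeasure μ]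
    (hcov : TCov Qs fun V : T d L → ℝ => BT E δ θ η P0 V i j) :
    Integrable (fun V => star (w0 (d := d) (L := L) E δ) ⬝ᵥ (BT E δ θ η P0 V i j *ᵥ w0 E δ))
      (PP (T d L) μ) ∧
    ∫ V, star (w0 (d := d) (L := L) E δ) ⬝ᵥ (BT E δ θ η P0 V i j *ᵥ w0 E δ) ∂(PP (T d L) μ) =
      mv (NN d L) fun k => (wt E δ Qs k : ℂ) *
        ∫ V, BT E δ θ η P0 V i j k (k + Qs) ∂(PP (T d L) μ) := by
  have hXh := hadm.hX0
  have hAh := hadm.hA
  have hH := adG3 hadm (TS E δ P0) η hη hη1 (TS_nsq E δ hδ P0)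
  obtain ⟨Z0, hZ0⟩ : ∃ Z0, Z0 = Z3 (D0 (d := d) (L := L) E δ) ((η : ℂ) • TS E δ P0) η := ⟨_, rfl⟩
  rw [← hZ0] at hH
  have hP' : IsProbabilityMeasure (PP (T d L) μ) := by
    unfold PP
    infer_instance
  have hR : IM (PP (T d L) μ) (fun V => GG Z0 (A3 (AA (d := d) (L := L) E δ θ)) V) := hH.im
  have e1 := int_bl hR (star (emb i (w0 (d := d) (L := L) E δ))) (emb j (w0 E δ))
  have e2 : ∀ V, star (emb i (w0 (d := d) (L := L) E δ)) ⬝ᵥ
      (GG Z0 (A3 (AA (d := d) (L := L) E δ θ)) V *ᵥ emb j (w0 E δ)) =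
      star (w0 (d := d) (L := L) E δ) ⬝ᵥ (BT E δ θ η P0 V i j *ᵥ w0 E δ) := by
    intro V
    rw [hZ0, GG_BT E δ θ η P0 V hη hXh hAh, form_emb]
  simp only [e2] at e1
  have hi1 := (hR.bl (star (emb i (w0 (d := d) (L := L) E δ))) (emb j (w0 E δ))).int
  simp only [e2] at hi1
  refine ⟨hi1, ?_⟩
  rw [← e1]
  obtain ⟨MB, hMB⟩ : ∃ MB : Fin 3 → Fin 3 → Matrix (T d L) (T d L) ℂ, MB = fun i j =>
    Matrix.of fun k p => ∫ V, BT E δ θ η P0 V i j k p ∂(PP (T d L) μ) := ⟨_, rfl⟩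
  have e4 : (Matrix.of fun i j => ∫ V, GG Z0 (A3 (AA (d := d) (L := L) E δ θ)) V i j
      ∂(PP (T d L) μ)) = blk MB := by
    ext ⟨i, k⟩ ⟨j, p⟩
    rw [blk_apply, hMB]
    simp only [Matrix.of_apply]
    refine integral_congr_ae (Filter.Eventually.of_forall fun V => ?_)
    simp only
    rw [hZ0, GG_BT E δ θ η P0 V hη hXh hAh]
    rfl
  rw [e4, form_emb]
  have hdiag : ∀ k p, p ≠ k + Qs → MB i j k p = 0 := by
    intro k p hkp
    rw [hMB]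
    simp only [Matrix.of_apply]
    exact hcov.off μ k p hkp
  have hMW : ∀ k, MB i j k (k + Qs) = ∫ V, BT E δ θ η P0 V i j k (k + Qs) ∂(PP (T d L) μ) := by
    intro k
    rw [hMB]
    rfl
  unfold dotProduct mv
  rw [Finset.mul_sum]
  refine Finset.sum_congr rfl fun k _ => ?_
  have e5 : (MB i j *ᵥ w0 (d := d) (L := L) E δ) k = MB i j k (k + Qs) * w0 E δ (k + Qs) := by
    unfold Matrix.mulVec dotProduct
    rw [Finset.sum_eq_single (k + Qs)]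
    · intro l _ hl
      simp only
      rw [hdiag k l hl, zero_mul]
    · intro h
      exact absurd (Finset.mem_univ _) h
  rw [e5, Pi.star_apply, hMW]
  unfold w0
  rw [RCLike.star_def, Complex.conj_ofReal]
  have h5 : (Real.sqrt (NN d L))⁻¹ * (Real.sqrt (NN d L))⁻¹ = (NN d L)⁻¹ := by
    rw [← mul_inv, Real.mul_self_sqrt (NN_pos (d := d) (L := L)).le]
  generalize (∫ V, BT E δ θ η P0 V i j k (k + Qs) ∂(PP (T d L) μ)) = W
  calc (((Real.sqrt (NN d L))⁻¹ * (Real.sqrt (JJ E δ k))⁻¹ : ℝ) : ℂ) *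
        (W * (((Real.sqrt (NN d L))⁻¹ * (Real.sqrt (JJ E δ (k + Qs)))⁻¹ : ℝ) : ℂ)) =
      ((((Real.sqrt (NN d L))⁻¹ * (Real.sqrt (NN d L))⁻¹) * wt E δ Qs k : ℝ) : ℂ) * W := by
        unfold wt
        push_cast
        ring
    _ = _ := by
        rw [h5]
        push_cast
        ring

theorem wt_zero (E δ : ℝ) (hδ : 0 < δ) (k : T d L) : wt E δ 0 k = (JJ E δ k)⁻¹ := by
  unfold wt
  rw [add_zero, ← mul_inv, Real.mul_self_sqrt (JJ_pos E δ hδ k).le]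

/-- the chain is dominated by the resolvent -/
theorem FP_le (E δ θ η : ℝ) (P0 : T d L) (V : T d L → ℝ) (hδ : 0 < δ) (hη : 0 < η)
    (h0 : (D0 (d := d) (L := L) E δ).IsHermitian)
    (hA : ∀ y, (AA (d := d) (L := L) E δ θ y).IsHermitian) :
    ‖FP E δ θ η P0 V‖ ≤ (star (w0 (d := d) (L := L) E δ) ⬝ᵥ
      (BT E δ θ η P0 V 1 1 *ᵥ w0 E δ)).im := by
  have e1 : BT E δ θ η P0 V 1 1 = RR (D0 E δ) (AA (d := d) (L := L) E δ θ) η V := rfl
  have e2 : BT E δ θ η P0 V 0 1 = (RR (D0 E δ) (AA (d := d) (L := L) E δ θ) η V)ᴴ *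
      ((η : ℂ) • TS E δ P0) * RR (D0 E δ) (AA (d := d) (L := L) E δ θ) η V := rfl
  have hw := (ward h0 hA hη V (w0 (d := d) (L := L) E δ)).1
  rw [e1, hw]
  unfold FP
  rw [e2]
  generalize RR (D0 E δ) (AA (d := d) (L := L) E δ θ) η V = R at hw ⊢
  have e3 : star (w0 (d := d) (L := L) E δ) ⬝ᵥ ((Rᴴ * ((η : ℂ) • TS E δ P0) * R) *ᵥ w0 E δ) =
      star (R *ᵥ w0 (d := d) (L := L) E δ) ⬝ᵥ (((η : ℂ) • TS E δ P0) *ᵥ (R *ᵥ w0 E δ)) := by
    rw [mul_assoc, ← Matrix.mulVec_mulVec, adjoint, Matrix.conjTranspose_conjTranspose,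
      Matrix.mulVec_mulVec]
  rw [e3]
  refine (cs_norm _ _).trans ?_
  have e4 : nsq (((η : ℂ) • TS E δ P0) *ᵥ (R *ᵥ w0 (d := d) (L := L) E δ)) ≤
      η ^ 2 * nsq (R *ᵥ w0 (d := d) (L := L) E δ) := by
    rw [Matrix.smul_mulVec, nsq_smul, Complex.norm_real, Real.norm_of_nonneg hη.le]
    exact mul_le_mul_of_nonneg_left (TS_nsq E δ hδ P0 _) (by positivity)
  have h0' := nsq_nonneg (R *ᵥ w0 (d := d) (L := L) E δ)
  calc Real.sqrt (nsq (R *ᵥ w0 (d := d) (L := L) E δ)) *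
        Real.sqrt (nsq (((η : ℂ) • TS E δ P0) *ᵥ (R *ᵥ w0 (d := d) (L := L) E δ))) ≤
      Real.sqrt (nsq (R *ᵥ w0 (d := d) (L := L) E δ)) *
        Real.sqrt (η ^ 2 * nsq (R *ᵥ w0 (d := d) (L := L) E δ)) := by gcongr
    _ = η * (Real.sqrt (nsq (R *ᵥ w0 (d := d) (L := L) E δ)) *
        Real.sqrt (nsq (R *ᵥ w0 (d := d) (L := L) E δ))) := by
        rw [Real.sqrt_mul (by positivity), Real.sqrt_sq hη.le]
        ring
    _ = _ := by rw [Real.mul_self_sqrt h0']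

/-- **the mean of the twisted chain** -/
theorem meanK (hES : S_ES) (hFA : S_FAC) (E δ θ η a v2 Q β s2 g ε e1 c0 : ℝ) (P0 : T d L)
    (hδ : 0 < δ) (hη : 0 < η) (hη1 : η ≤ 1)
    (hadm : Adm (D0 E δ) (AA (d := d) (L := L) E δ θ) a v2 Q)
    (μ : Measure ℝ) [IsProbabilityMeasure μ] (hβ : 0 < β) (hμ : ∀ᵐ s ∂μ, |s| ≤ β)
    (h0 : ∫ s, s ∂μ = 0) (h2 : ∫ s, s ^ 2 ∂μ = s2) (hs2 : 0 < s2)
    (hβa : β * a * (3 / η) ≤ 1) (hβv : β ^ 2 * v2 ≤ 1)
    (hε0 : 0 ≤ ε) (hε1 : ε ≤ 1 / 2) (he0 : 0 ≤ e1) (he1 : e1 ≤ 1 / 4)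
    (hε : 4 * β ^ 3 * a * v2 * (3 / η) ^ 3 +
      s2 * (2 * β * (3 * Q) * Real.sqrt v2 * (3 / η) ^ 4) ≤ ε)
    (hg : ∀ E' : ℝ, ∑ k : T d L, (JJ E' (η * δ) k)⁻¹ ≤ g * NN d L) (hg1 : 1 ≤ g)
    (hlow : s2 * (∑ P : T d L, (1 - hi θ P)) ≤ e1 * (η ^ 2 * δ ^ 2) * NN d L)
    (hc0 : c0 = 4 / 3 * (ε + e1 + (2 * η + 8 * s2 ^ 2 * g ^ 2 / δ ^ 2))) (hc01 : c0 ≤ 1)
    (hts : η * δ ≤ s2) (hPδ : Bt P0 + gam P0 ≤ δ) :
    ∃ m z : ℂ, 0 ≤ m.im ∧ ‖m‖ ≤ 2 * g ∧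
      z = (E : ℂ) + (s2 : ℂ) * m + ((η * δ : ℝ) : ℂ) * Complex.I ∧
      ‖m - gL d L z‖ ≤ c0 * g ∧
      ∀ ml : ℝ, 0 < ml → ml ≤ m.im →
        ‖∫ V, FP E δ θ η P0 V ∂(PP (T d L) μ) - (((gL d L z).im /
          (1 + s2 * (∑ i, (2 * sg i P0) ^ 2 * (gW (fun k : T d L => sg i k ^ 2) z).im) /
            (4 * (η * δ) * (η * δ + s2 * m.im) ^ 2)) : ℝ) : ℂ)‖ ≤
          80 * (c0 * g ^ 2 * s2 / (η * δ)) + 9 * g ^ 3 * (gam P0 / (2 * (η * δ * ml ^ 2)) +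
            Bt P0 ^ 3 / (8 * (η * δ * s2 ^ 2 * ml ^ 4))) + g * Bt P0 ^ 2 / (s2 ^ 2 * ml ^ 2) := by
  have hXh := hadm.hX0
  have hAh := hadm.hA
  have hH := adG3 hadm (TS E δ P0) η hη hη1 (TS_nsq E δ hδ P0)
  have hN := NN_pos (d := d) (L := L)
  have ht : 0 < η * δ := mul_pos hη hδ
  obtain ⟨M, hM⟩ : ∃ M : T d L → ℂ, M = fun k =>
    ∫ V, BT E δ θ η P0 V 1 1 k k ∂(PP (T d L) μ) := ⟨_, rfl⟩
  obtain ⟨Y, hY⟩ : ∃ Y : T d L → ℂ, Y = fun k =>
    ∫ V, BT E δ θ η P0 V 0 1 k (k + P0) ∂(PP (T d L) μ) := ⟨_, rfl⟩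
  have hMk : ∀ k, M k = ∫ V, RR (D0 E δ) (AA E δ θ) η V k k ∂(PP (T d L) μ) := by
    intro k
    rw [hM]
    rfl
  have hYk : ∀ k, Y k = ∫ V, BT E δ θ η P0 V 0 1 k (k + P0) ∂(PP (T d L) μ) := by
    intro k
    rw [hY]
  have heqM := fun k => (four_eq hES hFA E δ θ η a v2 Q β s2 ε (fun _ => 0) hδ hη hη1
    (fun k => by simp) hadm μ hβ hμ h0 h2 hs2.le hβa hβv hε M _ _ _
    (by
      funext k
      rw [hMk]
      rfl) rfl rfl rfl k).1
  have heqY := tw_eq hES hFA E δ θ η a v2 Q β s2 ε P0 hδ hη hη1 hadm μ hβ hμ h0 h2 hs2.le hβa hβv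
    hε M Y hMk hYk
  have him : ∀ k, 0 ≤ (M k).im := by
    intro k
    have e2 := integrable_RR hXh hAh hη μ k k
    have e3 : (M k).im = ∫ V, (RR (D0 E δ) (AA E δ θ) η V k k).im ∂(PP (T d L) μ) := by
      rw [hMk]
      have := Complex.imCLM.integral_comp_comm e2
      simp only [Complex.imCLM_apply] at this
      exact this.symm
    rw [e3]
    apply integral_nonneg
    intro V
    have e4 := (ward hXh hAh hη V (Pi.single k 1)).1
    rw [form_single] at e4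
    simp only [Pi.zero_apply]
    rw [e4]
    exact mul_nonneg hη.le (nsq_nonneg _)
  have hP' : IsProbabilityMeasure (PP (T d L) μ) := by
    unfold PP
    infer_instance
  have hbd : ∀ k, ‖M k‖ ≤ η⁻¹ := by
    intro k
    rw [hMk]
    refine (norm_integral_le_of_norm_le_const (C := η⁻¹)
      (Filter.Eventually.of_forall fun V => entry_bd hXh hAh hη V k k)).trans ?_
    rw [probReal_univ, mul_one]
  have hYb : ∀ k, ‖Y k‖ ≤ 3 / η := by
    intro k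
    rw [hYk]
    refine (norm_integral_le_of_norm_le_const (C := 3 / η)
      (Filter.Eventually.of_forall fun V => ?_)).trans ?_
    · have := hH.entry V (0, k) (1, k + P0)
      rw [GG_BT E δ θ η P0 V hη hXh hAh, blk_apply] at this
      exact this
    · rw [probReal_univ, mul_one]
  obtain ⟨m, hm1, hm2, hm3, hm4⟩ := core2 (NN d L) δ η s2 g ε e1 E adj (JJ E δ)
    (fun k p => hi θ (k - p)) (∑ P : T d L, (1 - hi θ P)) M NN_pos hδ hη hs2.le hε0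
    hε1 (by linarith) he0 he1 (fun k => rfl) him hbd (fun k p => hi_le_one θ _)
    (fun k => Equiv.sum_comp (Equiv.subLeft k) fun P : T d L => (1 - hi θ P)) hlow hg heqM
  obtain ⟨z, hz⟩ : ∃ z, z = (E : ℂ) + (s2 : ℂ) * m + ((η * δ : ℝ) : ℂ) * Complex.I := ⟨_, rfl⟩
  have hDz : ∀ k : T d L, ((adj k : ℝ) : ℂ) - z = ((adj k - E : ℝ) : ℂ) - (s2 : ℂ) * m -
      ((η * δ : ℝ) : ℂ) * Complex.I := by
    intro k
    rw [hz]
    push_cast
    ring
  have hmg : ‖m - gL d L z‖ ≤ c0 * g := by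
    rw [hc0]
    unfold gL
    simp only [hDz]
    exact hm4
  refine ⟨m, z, hm2, hm3, hz, hmg, ?_⟩
  intro ml hml hmlm
  -- the mean value of the resolvent
  have hm' : m = mv (NN d L) fun k => (((JJ E δ k)⁻¹ : ℝ) : ℂ) * M k := by
    rw [hm1]
    unfold mv
    simp only [Complex.ofReal_inv]
  obtain ⟨i11, v11⟩ := bt_mean E δ θ η a v2 Q P0 0 1 1 hδ hη hη1 hadm μ
    (TCov.of_cov (Cov.res (d := d) (L := L) E δ θ η))
  obtain ⟨i01, v01⟩ := bt_mean E δ θ η a v2 Q P0 P0 0 1 hδ hη hη1 hadm μ (cov01 E δ θ η P0)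
  have v11' : ∫ V, star (w0 (d := d) (L := L) E δ) ⬝ᵥ (BT E δ θ η P0 V 1 1 *ᵥ w0 E δ)
      ∂(PP (T d L) μ) = m := by
    rw [v11, hm']
    unfold mv
    congr 1
    refine Finset.sum_congr rfl fun k _ => ?_
    beta_reduce
    rw [wt_zero E δ hδ, add_zero, hM]
  obtain ⟨ν, hν⟩ : ∃ ν, ν = ∫ V, FP E δ θ η P0 V ∂(PP (T d L) μ) := ⟨_, rfl⟩
  have v01' : ν = mv (NN d L) fun k => (wt E δ P0 k : ℂ) * Y k := by
    rw [hν, hY]
    exact v01
  have hνg : ‖ν‖ ≤ 2 * g := by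
    rw [hν]
    refine (norm_integral_le_integral_norm _).trans ?_
    have h5 : ∫ V, ‖FP E δ θ η P0 V‖ ∂(PP (T d L) μ) ≤
        ∫ V, (star (w0 (d := d) (L := L) E δ) ⬝ᵥ
          (BT E δ θ η P0 V 1 1 *ᵥ w0 E δ)).im ∂(PP (T d L) μ) := by
      refine integral_mono i01.norm i11.im fun V => ?_
      exact FP_le E δ θ η P0 V hδ hη hXh hAh
    refine h5.trans ?_
    have h6 := Complex.imCLM.integral_comp_comm i11
    simp only [Complex.imCLM_apply] at h6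
    rw [h6, v11']
    exact (le_abs_self _).trans ((Complex.abs_im_le_norm m).trans hm3)
  -- the denominators
  obtain ⟨D, hD⟩ : ∃ D : T d L → ℂ, D = fun k => ((adj k : ℝ) : ℂ) - z := ⟨_, rfl⟩
  have hDk : ∀ k, D k = ((adj k - E : ℝ) : ℂ) - (s2 : ℂ) * m -
      ((η * δ : ℝ) : ℂ) * Complex.I := fun k => by rw [hD]; exact hDz k
  obtain ⟨ω, hω⟩ : ∃ ω, ω = η * δ + s2 * m.im := ⟨_, rfl⟩
  have hm0 : 0 < m.im := hml.trans_le hmlm
  have hω0 : 0 < ω := by rw [hω]; positivity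
  have hDx : ∀ k, D k = ((adj k - E - s2 * m.re : ℝ) : ℂ) - (ω : ℂ) * Complex.I := by
    intro k
    rw [hDk, hω]
    conv_lhs => rw [← Complex.re_add_im m]
    push_cast
    ring
  have hD0 : ∀ k, D k ≠ 0 := by
    intro k h
    have h2 := congrArg Complex.im h
    rw [hDx] at h2
    simp at h2
    exact hω0.ne' h2
  have hDim : ∀ k, ((D k)⁻¹).im = ω * ‖(D k)⁻¹‖ ^ 2 := by
    intro k
    have e1 : (D k).im = -ω := by rw [hDx]; simp
    rw [Complex.inv_im, e1, neg_neg, Complex.normSq_eq_norm_sq, norm_inv, inv_pow]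
    rfl
  have hrfl : ∀ i k, ((D (rfl' i k))⁻¹).im = ((D k)⁻¹).im := by
    intro i k
    rw [hD]
    simp only
    rw [adj_rfl]
  have hΓ : (gL d L z).im = rv (NN d L) fun k => ((D k)⁻¹).im := by
    have e1 : gL d L z = mv (NN d L) fun k => (D k)⁻¹ := by
      rw [hD]
      rfl
    rw [e1, mv_im]
  have hΓβ : (∑ i, (2 * sg i P0) ^ 2 * (gW (fun k : T d L => sg i k ^ 2) z).im) =
      rv (NN d L) fun k => bet P0 k ^ 2 * ((D k)⁻¹).im := by
    rw [bet_sq P0 _ hrfl]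
    refine Finset.sum_congr rfl fun i _ => ?_
    congr 1
    unfold gW
    rw [mv_im, hD]
    congr 1
    funext k
    rw [Complex.im_ofReal_mul]
  have hH2 : rv (NN d L) (fun k => ‖(D k)⁻¹‖ ^ 2) = (gL d L z).im / ω := by
    rw [hΓ, eq_div_iff hω0.ne', mul_comm, ← rv_mul]
    congr 1
    funext k
    rw [hDim]
  have hΓ0 : 0 ≤ (gL d L z).im := by
    rw [hΓ]
    refine rv_nonneg hN fun k => ?_
    rw [hDim]
    positivity
  have hG1 : rv (NN d L) (fun k => ‖(D k)⁻¹‖) ≤ g := by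
    have h5 := hg (E + s2 * m.re)
    unfold rv
    rw [inv_mul_le_iff₀ hN, mul_comm]
    refine le_trans (Finset.sum_le_sum fun k _ => ?_) h5
    rw [norm_inv]
    unfold JJ
    refine inv_anti₀ (Real.sqrt_pos.2 (by positivity)) ?_
    have e1 : D k = ((adj k - (E + s2 * m.re) : ℝ) : ℂ) + ((-ω : ℝ) : ℂ) * Complex.I := by
      rw [hDx]
      push_cast
      ring
    rw [e1, Complex.norm_add_mul_I]
    apply Real.sqrt_le_sqrt
    have h6 : (η * δ) ^ 2 ≤ ω ^ 2 := by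
      rw [hω]
      gcongr
      have := mul_nonneg hs2.le hm2
      linarith
    rw [neg_sq]
    linarith
  have hc00 : 0 ≤ c0 := by
    rw [hc0]
    positivity
  have h8 := core8 (NN d L) δ η s2 g ε e1 E c0 ((gL d L z).im / ω) adj (JJ E δ) (wt E δ P0)
    (fun k p => hi θ (k - p)) (∑ P : T d L, (1 - hi θ P)) (Equiv.addRight P0) M Y m ν hN hδ hη
    hs2.le hε0 he0 he1 (by linarith) (fun k => rfl) hbd hYb (fun k p => hi_le_one θ _)
    (fun k => Equiv.sum_comp (Equiv.subLeft k) fun P : T d L => (1 - hi θ P)) hlow hm' hm2 hm3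
    (fun k => rfl) (fun k => JJ_four E δ hδ P0 k hPδ) heqM heqY
    (by rw [hc0]; ring) hc01 D hDk v01' hνg hH2.le hG1
  obtain ⟨Θ, hΘ⟩ : ∃ Θ, Θ = mv (NN d L) (fun k => (starRingEnd ℂ) ((D k)⁻¹) *
    (D (Equiv.addRight P0 k))⁻¹) := ⟨_, rfl⟩
  rw [← hΘ] at h8
  have hth := theta (NN d L) ω g (Bt P0) (gam P0) (fun k => adj k - E - s2 * m.re) (bet P0)
    (Equiv.addRight P0) D hN hω0 hDx
    (fun k => by
      have h5 := shift1 P0 k
      have e1 : adj k - E - s2 * m.re - (adj ((Equiv.addRight P0) k) - E - s2 * m.re) -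
          bet P0 k = adj k - adj (k + P0) - bet P0 k := by
        rw [Equiv.coe_addRight]
        ring
      rw [e1]
      exact h5)
    (fun k => by
      have h5 := shift2 P0 k
      have e0 : (Equiv.addRight P0).symm k = k - P0 := by
        rw [Equiv.addRight_symm, Equiv.coe_addRight, sub_eq_add_neg]
      have e1 : adj ((Equiv.addRight P0).symm k) - E - s2 * m.re - (adj k - E - s2 * m.re) -
          bet P0 k = adj (k - P0) - adj k - bet P0 k := by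
        rw [e0]
        ring
      rw [e1]
      exact h5)
    (bet_le P0) hG1 (gam_nonneg P0) (Bt_nonneg P0) (bet_odd P0 _ hrfl) _ _ hΓ hΓβ
  rw [← hΘ] at hth
  have hcast : (((η * δ : ℝ) : ℂ) + (s2 : ℂ) * ν) = (((η * δ : ℝ) : ℂ)) + (s2 : ℂ) * ν := rfl
  have hΓβ0 : 0 ≤ ∑ i, (2 * sg i P0) ^ 2 * (gW (fun k : T d L => sg i k ^ 2) z).im := by
    rw [hΓβ]
    refine rv_nonneg hN fun k => ?_
    rw [hDim]
    positivity
  have hΓβB : ∑ i, (2 * sg i P0) ^ 2 * (gW (fun k : T d L => sg i k ^ 2) z).im ≤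
      Bt P0 ^ 2 * (gL d L z).im := by
    rw [hΓβ, hΓ, ← rv_mul]
    refine rv_mono hN fun k => ?_
    have h5 : bet P0 k ^ 2 ≤ Bt P0 ^ 2 := by
      rw [← sq_abs]
      exact pow_le_pow_left₀ (abs_nonneg _) (bet_le P0 k) 2
    have h6 : 0 ≤ ((D k)⁻¹).im := by
      rw [hDim]
      positivity
    exact mul_le_mul_of_nonneg_right h5 h6
  have hmΓ : |m.im - (gL d L z).im| ≤ c0 * g := by
    rw [← Complex.sub_im]
    exact (Complex.abs_im_le_norm _).trans hmg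
  have h9 := core9 (η * δ) ω s2 g c0 ε e1 ml (gL d L z).im
    (∑ i, (2 * sg i P0) ^ 2 * (gW (fun k : T d L => sg i k ^ 2) z).im) (Bt P0) (gam P0) m.im _ ν Θ
    ht hs2 hts hg1 hc00 (by
      rw [hc0]
      have : 0 ≤ 2 * η + 8 * s2 ^ 2 * g ^ 2 / δ ^ 2 := by positivity
      linarith) he1 (by
      rw [hc0]
      have : 0 ≤ 2 * η + 8 * s2 ^ 2 * g ^ 2 / δ ^ 2 := by positivity
      linarith) hω hml hmlm ((le_abs_self _).trans ((Complex.abs_im_le_norm m).trans hm3)) hΓ0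
    hΓβ0 hΓβB hmΓ hc01 hνg (Bt_nonneg P0) (gam_nonneg P0) rfl hth h8
  rw [← hν, ← hω]
  exact h9

end Pool.Agent.TH794.HK
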