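import Pool.Agent.TH794.QE.NumB

/-! The numerical conditions for the characteristic function. -/

set_option autoImplicit false

open Filter

namespace Pool.Agent.TH794.HK

open Pool.Agent.W788.BK.Num
open Pool.Agent.TH794.QD
open Pool.Agent.TH794.LL2 (hexle sqrt_ex)

theorem numS8 (d : ℕ) (A2 : ℝ) (hA20 : 0 < A2) :
    ∀ᶠ y : ℝ in atTop, ∀ A1 : ℝ, A1 = A2 * y → ∀ (g1 Kf η δ t kf ρ ζ τ ρ' B s ω1 : ℝ),
    1 ≤ A1 * y → 0 ≤ g1 → g1 ≤ A1 * y → 0 ≤ Kf → Kf ≤ 4 * (A1 * y) →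
    Real.exp (-(17 / 200) * y) ≤ η → η ≤ Real.exp (-(59 / 1000) * y) →
    δ = Real.exp (-(97 / 50) * y) → t = η * δ → kf = Real.exp (-(23 / 1000) * y) →
    ρ = 2 * d * Real.exp (-(119 / 40) * y) →
    ζ = Real.exp (-10 * y) → τ = Real.exp (-(209 / 100) * y) →
    ρ' = 2 * (ρ + ζ * t⁻¹) → B = Real.sqrt ((Kf + 1) / t) →
    s = (Real.sqrt η)⁻¹ * ((Real.sqrt δ)⁻¹ * (ρ' + τ * B) + η * (2 * Real.sqrt g1 +
      2 * (kf + η) * (Real.sqrt δ * B) + 2 * ((Real.sqrt δ)⁻¹ * ρ'))) →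
    ω1 = Real.exp (-(1 / 50) * y) →
    2 * Real.sqrt Kf * s + s ^ 2 + 2 * ω1 + ζ * ((Kf + 1) / t) ≤ Real.exp (-(1 / 60) * y) := by
  obtain ⟨C, hC⟩ : ∃ C : ℝ, C = 12 * d + 23 := ⟨_, rfl⟩
  have hd0 : (0 : ℝ) ≤ d := Nat.cast_nonneg d
  have hC0 : 0 ≤ C := by rw [hC]; positivity
  filter_upwards [eventually_ge_atTop 1,
    ev2 (2 * ((4 * C + C ^ 2 + 5) * A2 ^ 2)) (-(23 / 1000)) (-(1 / 60)) 4 (by norm_num),
    ev2 4 (-(1 / 50)) (-(1 / 60)) 0 (by norm_num)] with y hy1 n1 n2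
  simp only [pow_zero, mul_one] at n2
  intro A1 hA1 g1 Kf η δ t kf ρ ζ τ ρ' B s ω1 hP1 hg10 hg1 hKf0 hKf hη hη' hδ ht hkf hρ hζ hτ hρ'
    hB hs hω1
  obtain ⟨P, hP⟩ : ∃ P, P = A1 * y := ⟨_, rfl⟩
  rw [← hP] at hP1 hg1 hKf
  have hP0 : 0 < P := by linarith
  have hPP : P ≤ P ^ 2 := by nlinarith
  have hδ0 : 0 < δ := by rw [hδ]; positivity
  have hη0 : 0 < η := lt_of_lt_of_le (Real.exp_pos _) hη
  have ht0 : 0 < t := by rw [ht]; positivity
  have htl : Real.exp (-(81 / 40) * y) ≤ t := by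
    rw [ht, hδ]
    calc Real.exp (-(81 / 40) * y) = Real.exp (-(17 / 200) * y) * Real.exp (-(97 / 50) * y) := by
          rw [ex_mul]
          norm_num
      _ ≤ _ := by gcongr
  have htinv : t⁻¹ ≤ Real.exp (81 / 40 * y) := by
    have h1 := inv_anti₀ (Real.exp_pos _) htl
    rw [ex_inv] at h1
    norm_num at h1 ⊢
    exact h1
  obtain ⟨x, hx⟩ : ∃ x, x = Real.exp (-(23 / 1000) * y) := ⟨_, rfl⟩
  have hx0 : 0 < x := by rw [hx]; positivity
  have hxl : ∀ a : ℝ, a ≤ -(23 / 1000) → Real.exp (a * y) ≤ x := by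
    intro a ha
    rw [hx]
    exact hexle hy1 _ _ ha
  have hx1 : x ≤ 1 := by
    rw [hx]
    exact Real.exp_le_one_iff.2 (by linarith)
  -- the square roots
  have hsη0 : 0 < Real.sqrt η := Real.sqrt_pos.2 hη0
  have hsδ0 : 0 < Real.sqrt δ := Real.sqrt_pos.2 hδ0
  have hst0 : 0 < Real.sqrt t := Real.sqrt_pos.2 ht0
  have hsη2 : Real.sqrt η ^ 2 = η := Real.sq_sqrt hη0.le
  have hsδ2 : Real.sqrt δ ^ 2 = δ := Real.sq_sqrt hδ0.le
  have hst : Real.sqrt t = Real.sqrt η * Real.sqrt δ := by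
    rw [ht, Real.sqrt_mul hη0.le]
  obtain ⟨r, hr⟩ : ∃ r, r = (Real.sqrt t)⁻¹ := ⟨_, rfl⟩
  have hr0 : 0 < r := by rw [hr]; positivity
  have hr2 : r ^ 2 = t⁻¹ := by
    rw [hr, inv_pow, Real.sq_sqrt ht0.le]
  have hrr : r ≤ Real.exp (81 / 80 * y) := by
    have h1 : r ^ 2 ≤ Real.exp (81 / 80 * y) ^ 2 := by
      rw [hr2, ex_pow]
      refine htinv.trans (le_of_eq ?_)
      congr 1
      push_cast
      ring
    exact le_of_sq_le_sq h1 (Real.exp_pos _).le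
  obtain ⟨k, hk⟩ : ∃ k, k = Real.sqrt (Kf + 1) := ⟨_, rfl⟩
  have hk0 : 0 ≤ k := by rw [hk]; positivity
  have hk3 : k ≤ 3 * P := by
    rw [hk, Real.sqrt_le_left (by positivity)]
    nlinarith
  have hBk : B = k * r := by
    rw [hB, Real.sqrt_div (by linarith), hk, hr, div_eq_mul_inv]
  have hsK : Real.sqrt Kf ≤ 2 * P := by
    rw [Real.sqrt_le_left (by positivity)]
    nlinarith
  have hsg : Real.sqrt g1 ≤ P := by
    rw [Real.sqrt_le_left hP0.le]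
    nlinarith
  have hsη : Real.sqrt η ≤ x := by
    rw [Real.sqrt_le_left hx0.le]
    refine hη'.trans ?_
    rw [hx, ex_pow]
    apply hexle hy1
    norm_num
  have hkη : kf + η ≤ 2 * x := by
    have h1 : η ≤ x := hη'.trans (hxl _ (by norm_num))
    have h2 : kf = x := by rw [hkf, hx]
    linarith
  have hη1 : η ≤ 1 := (hη'.trans (hxl _ (by norm_num))).trans hx1
  have hkf0 : 0 < kf := by rw [hkf]; positivity
  -- the residual
  have hρ'1 : r * ρ' ≤ (4 * d + 2) * x := by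
    have h1 : ζ * t⁻¹ ≤ Real.exp (-(119 / 40) * y) := by
      calc ζ * t⁻¹ ≤ Real.exp (-10 * y) * Real.exp (81 / 40 * y) := by
            rw [hζ]
            gcongr
        _ = Real.exp (-(319 / 40) * y) := by
            rw [ex_mul]
            norm_num
        _ ≤ _ := hexle hy1 _ _ (by norm_num)
    have h2 : ρ' ≤ (4 * d + 2) * Real.exp (-(119 / 40) * y) := by
      rw [hρ', hρ]
      linarith
    calc r * ρ' ≤ Real.exp (81 / 80 * y) * ((4 * d + 2) * Real.exp (-(119 / 40) * y)) := by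
          have : 0 ≤ ρ' := by rw [hρ', hρ, hζ]; positivity
          gcongr
      _ = (4 * d + 2) * (Real.exp (81 / 80 * y) * Real.exp (-(119 / 40) * y)) := by ring
      _ = (4 * d + 2) * Real.exp (-(157 / 80) * y) := by
          rw [ex_mul]
          norm_num
      _ ≤ (4 * d + 2) * x := by
          have := hxl (-(157 / 80)) (by norm_num)
          gcongr
  have hρ'0 : 0 ≤ ρ' := by rw [hρ', hρ, hζ]; positivity
  have hτ1 : r ^ 2 * τ ≤ x := by
    rw [hr2, hτ]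
    calc t⁻¹ * Real.exp (-(209 / 100) * y) ≤ Real.exp (81 / 40 * y) *
          Real.exp (-(209 / 100) * y) := by gcongr
      _ = Real.exp (-(13 / 200) * y) := by
          rw [ex_mul]
          norm_num
      _ ≤ x := hxl _ (by norm_num)
  have hs1 : s = r * ρ' + r ^ 2 * τ * k + 2 * Real.sqrt η * Real.sqrt g1 +
      2 * (kf + η) * k + 2 * η * (r * ρ') := by
    have e1 : (Real.sqrt η)⁻¹ * (Real.sqrt δ)⁻¹ = r := by
      rw [hr, hst, mul_inv]
    have e2 : (Real.sqrt η)⁻¹ * η = Real.sqrt η := by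
      rw [inv_mul_eq_div, div_eq_iff hsη0.ne', ← sq, hsη2]
    have e3 : Real.sqrt η * (Real.sqrt δ * B) = k := by
      rw [hBk, ← mul_assoc, ← hst, hr]
      field_simp
    have e4 : Real.sqrt η * (Real.sqrt δ)⁻¹ = η * r := by
      rw [← e1, ← mul_assoc, mul_comm η, e2]
    rw [hs]
    calc (Real.sqrt η)⁻¹ * ((Real.sqrt δ)⁻¹ * (ρ' + τ * B) + η * (2 * Real.sqrt g1 +
        2 * (kf + η) * (Real.sqrt δ * B) + 2 * ((Real.sqrt δ)⁻¹ * ρ'))) =
        ((Real.sqrt η)⁻¹ * (Real.sqrt δ)⁻¹) * (ρ' + τ * B) + ((Real.sqrt η)⁻¹ * η) *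
          (2 * Real.sqrt g1 + 2 * (kf + η) * (Real.sqrt δ * B) + 2 * ((Real.sqrt δ)⁻¹ * ρ')) := by
          ring
      _ = r * (ρ' + τ * B) + Real.sqrt η * (2 * Real.sqrt g1 + 2 * (kf + η) * (Real.sqrt δ * B) +
          2 * ((Real.sqrt δ)⁻¹ * ρ')) := by rw [e1, e2]
      _ = r * (ρ' + τ * B) + 2 * Real.sqrt η * Real.sqrt g1 + 2 * (kf + η) *
          (Real.sqrt η * (Real.sqrt δ * B)) + 2 * (Real.sqrt η * (Real.sqrt δ)⁻¹) * ρ' := by ring
      _ = _ := by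
          rw [e3, e4, hBk]
          ring
  have hrρ0 : 0 ≤ r * ρ' := by positivity
  have hs0 : 0 ≤ s := by
    have hτ0 : 0 < τ := by rw [hτ]; positivity
    rw [hs1]
    positivity
  have hsC : s ≤ C * P * x := by
    have a1 : r ^ 2 * τ * k ≤ x * (3 * P) := by gcongr
    have a2 : 2 * Real.sqrt η * Real.sqrt g1 ≤ 2 * x * P := by gcongr
    have a3 : 2 * (kf + η) * k ≤ 2 * (2 * x) * (3 * P) := by gcongr
    have a4 : 2 * η * (r * ρ') ≤ 2 * 1 * (r * ρ') := by gcongr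
    have a5 : (4 * d + 2) * x ≤ (4 * d + 2) * x * P := by
      apply le_mul_of_one_le_right (by positivity) hP1
    rw [hs1, hC]
    have a6 : (12 * (d : ℝ) + 23) * P * x = 3 * ((4 * d + 2) * x * P) + x * (3 * P) +
      2 * x * P + 2 * (2 * x) * (3 * P) := by ring
    rw [a6]
    linarith
  have b1 : 2 * Real.sqrt Kf * s ≤ 4 * C * P ^ 2 * x := by
    calc 2 * Real.sqrt Kf * s ≤ 2 * (2 * P) * (C * P * x) := by gcongr
      _ = _ := by ring
  have b2 : s ^ 2 ≤ C ^ 2 * P ^ 2 * x := by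
    calc s ^ 2 ≤ (C * P * x) ^ 2 := by gcongr
      _ = C ^ 2 * P ^ 2 * (x * x) := by ring
      _ ≤ C ^ 2 * P ^ 2 * (x * 1) := by gcongr
      _ = _ := by ring
  have b3 : ζ * ((Kf + 1) / t) ≤ 5 * P ^ 2 * x := by
    calc ζ * ((Kf + 1) / t) = (Kf + 1) * (ζ * t⁻¹) := by ring
      _ ≤ (5 * P ^ 2) * (Real.exp (-10 * y) * Real.exp (81 / 40 * y)) := by
          have : Kf + 1 ≤ 5 * P ^ 2 := by linarith
          rw [hζ]
          gcongr
      _ = 5 * P ^ 2 * Real.exp (-(319 / 40) * y) := by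
          rw [ex_mul]
          norm_num
      _ ≤ _ := by
          have := hxl (-(319 / 40)) (by norm_num)
          gcongr
  have b4 : (4 * C + C ^ 2 + 5) * P ^ 2 * x ≤ 1 / 2 * Real.exp (-(1 / 60) * y) := by
    have e1 : P ^ 2 = A2 ^ 2 * y ^ 4 := by rw [hP, hA1]; ring
    rw [e1, hx]
    linarith
  have e5 : (4 * C + C ^ 2 + 5) * P ^ 2 * x = 4 * C * P ^ 2 * x + C ^ 2 * P ^ 2 * x +
    5 * P ^ 2 * x := by ring
  rw [hω1]
  linarith

/-- the momenta -/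
theorem numG8 (v Kp b : ℝ) (hv : 0 < v) (hKp : 0 ≤ Kp) :
    ∀ᶠ y : ℝ in atTop, ∀ (s2 t Lr w : ℝ), v * Real.exp (-2 * y) ≤ s2 →
    s2 ≤ (b * Real.exp (-1 * y)) ^ 2 →
    Real.exp (-(81 / 40) * y) ≤ t → t ≤ Real.exp (-(161 / 80) * y) → Real.exp (6 * y) ≤ Lr →
    w = Real.sqrt (t * s2) →
    w ^ 2 = t * s2 ∧ 0 < w ∧ ∀ p p' : ℝ, p ^ 2 ≤ Kp * (t * s2) → |p - p'| ≤ 7 / Lr →
      |p'| ≤ (Kp + 8) * w ∧ |Real.sin p' ^ 2 - p ^ 2| ≤ Real.exp (-1 * y) * (t * s2) := by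
  filter_upwards [eventually_ge_atTop 1,
    ev2 (49 / v) (-12) (-(161 / 40)) 0 (by norm_num),
    ev2 (28 * (Kp + 8) * (1 / v + 1)) (-6) (-(121 / 40)) 0 (by norm_num),
    ev2 (28 * (Kp + 8) * (1 / v + 1)) (-(159 / 40)) (-1) 0 (by norm_num),
    ev2 (2 * ((Kp + 8) ^ 4 * b ^ 2)) (-4) (-1) 0 (by norm_num)] with y hy1 n1 n2 n3 n4
  simp only [pow_zero, mul_one] at n1 n2 n3 n4
  intro s2 t Lr w hs hs' ht ht' hL hw
  have hs20 : 0 < s2 := lt_of_lt_of_le (by positivity) hs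
  have ht0 : 0 < t := lt_of_lt_of_le (Real.exp_pos _) ht
  have hLr0 : 0 < Lr := lt_of_lt_of_le (Real.exp_pos _) hL
  have hw2 : w ^ 2 = t * s2 := by rw [hw, Real.sq_sqrt (by positivity)]
  have hw0 : 0 < w := by rw [hw]; exact Real.sqrt_pos.2 (by positivity)
  have hwl : v * Real.exp (-(161 / 40) * y) ≤ w ^ 2 := by
    rw [hw2]
    calc v * Real.exp (-(161 / 40) * y) = Real.exp (-(81 / 40) * y) * (v * Real.exp (-2 * y)) := by
          rw [mul_left_comm, ex_mul]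
          norm_num
      _ ≤ _ := by gcongr
  have hLi : 7 / Lr ≤ 7 * Real.exp (-6 * y) := by
    rw [div_eq_mul_inv]
    apply mul_le_mul_of_nonneg_left _ (by norm_num)
    have h1 := inv_anti₀ (Real.exp_pos _) hL
    rw [ex_inv] at h1
    norm_num at h1 ⊢
    exact h1
  have h7w : 7 * Real.exp (-6 * y) ≤ w := by
    have h1 : (7 * Real.exp (-6 * y)) ^ 2 ≤ w ^ 2 := by
      refine le_trans ?_ hwl
      rw [mul_pow, ex_pow]
      have e1 : (((2 : ℕ) : ℝ) * -6 * y) = -12 * y := by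
        push_cast
        ring
      have h2 := mul_le_mul_of_nonneg_left n1 hv.le
      rw [← mul_assoc, mul_div_cancel₀ _ hv.ne'] at h2
      norm_num at h2 ⊢
      exact h2
    exact le_of_sq_le_sq h1 hw0.le
  refine ⟨hw2, hw0, fun p p' hp hpp => ?_⟩
  have hpw : |p| ≤ (Kp + 1) * w := by
    have h1 : |p| ^ 2 ≤ ((Kp + 1) * w) ^ 2 := by
      rw [sq_abs, mul_pow, hw2]
      refine hp.trans ?_
      apply mul_le_mul_of_nonneg_right _ (by positivity)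
      nlinarith
    exact le_of_sq_le_sq h1 (by positivity)
  have hpp2 : |p - p'| ≤ w := (hpp.trans hLi).trans h7w
  have hp' : |p'| ≤ (Kp + 2) * w := by
    have h1 : |p'| ≤ |p| + |p - p'| := by
      have := abs_sub_abs_le_abs_sub p' p
      rw [abs_sub_comm] at this
      linarith
    linarith
  have hp8 : |p'| ≤ (Kp + 8) * w := by
    linarith
  refine ⟨hp8, ?_⟩
  have a1 : |Real.sin p' ^ 2 - p' ^ 2| ≤ p' ^ 4 := by
    obtain ⟨q, hq⟩ : ∃ q, q = |p'| := ⟨_, rfl⟩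
    have hq0 : 0 ≤ q := by rw [hq]; exact abs_nonneg _
    have e1 : Real.sin p' ^ 2 = Real.sin q ^ 2 := by
      rw [hq]
      rcases abs_cases p' with h | h <;> rw [h.1]
      rw [Real.sin_neg, neg_sq]
    have e2 : p' ^ 2 = q ^ 2 := by rw [hq, sq_abs]
    have e3 : p' ^ 4 = q ^ 4 := by
      calc p' ^ 4 = (p' ^ 2) ^ 2 := by ring
        _ = _ := by rw [e2]; ring
    rw [e1, e2, e3]
    have s1 : |Real.sin q| ≤ q := by
      have := Real.abs_sin_le_abs (x := q)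
      rwa [abs_of_nonneg hq0] at this
    have s1' := abs_le.1 s1
    have s2' : Real.sin q ^ 2 ≤ q ^ 2 := by
      rw [← sq_abs (Real.sin q)]
      exact pow_le_pow_left₀ (abs_nonneg _) s1 2
    rw [abs_of_nonpos (by linarith), neg_sub]
    rcases le_or_gt q 1 with h1 | h1
    · have s3 : q - q ^ 3 / 6 ≤ Real.sin q := by
        rcases hq0.eq_or_lt with h0 | h0
        · rw [← h0]
          simp
        · exact (Real.sin_gt_sub_cube h0).le
      have h3 : 0 ≤ q - q ^ 3 / 6 := by nlinarith [sq_nonneg q]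
      have h4 : (q - q ^ 3 / 6) ^ 2 ≤ Real.sin q ^ 2 := pow_le_pow_left₀ h3 s3 2
      nlinarith [sq_nonneg (q ^ 2), sq_nonneg (q ^ 3)]
    · have h3 : q ^ 2 ≤ q ^ 4 := pow_le_pow_right₀ h1.le (by norm_num)
      nlinarith [sq_nonneg (Real.sin q)]
  have a2 : |p' ^ 2 - p ^ 2| ≤ 7 * Real.exp (-6 * y) * (2 * (Kp + 8) * w) := by
    have e1 : p' ^ 2 - p ^ 2 = (p' - p) * (p' + p) := by ring
    rw [e1, abs_mul]
    have h1 : |p' - p| ≤ 7 * Real.exp (-6 * y) := by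
      rw [abs_sub_comm]
      exact hpp.trans hLi
    have h2 : |p' + p| ≤ 2 * (Kp + 8) * w := by
      refine (abs_add_le _ _).trans ?_
      linarith
    gcongr
  have a3 : |Real.sin p' ^ 2 - p ^ 2| ≤ p' ^ 4 + 7 * Real.exp (-6 * y) * (2 * (Kp + 8) * w) := by
    have e1 : Real.sin p' ^ 2 - p ^ 2 = (Real.sin p' ^ 2 - p' ^ 2) + (p' ^ 2 - p ^ 2) := by ring
    rw [e1]
    exact (abs_add_le _ _).trans (add_le_add a1 a2)
  refine a3.trans ?_
  rw [← hw2]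
  have c1 : p' ^ 4 ≤ 1 / 2 * Real.exp (-1 * y) * w ^ 2 := by
    have h1 : p' ^ 4 ≤ ((Kp + 8) * w) ^ 4 := by
      have : p' ^ 4 = |p'| ^ 4 := by
        rw [show p' ^ 4 = (p' ^ 2) ^ 2 by ring, ← sq_abs p']
        ring
      rw [this]
      gcongr
    refine h1.trans ?_
    have h2 : w ^ 2 ≤ b ^ 2 * Real.exp (-4 * y) := by
      rw [hw2]
      calc t * s2 ≤ Real.exp (-(161 / 80) * y) * (b * Real.exp (-1 * y)) ^ 2 := by gcongr
        _ = b ^ 2 * Real.exp (-(321 / 80) * y) := by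
            rw [mul_pow, ex_pow, mul_left_comm, ex_mul]
            norm_num
        _ ≤ _ := by
            have := hexle hy1 (-(321 / 80)) (-4) (by norm_num)
            gcongr
    calc ((Kp + 8) * w) ^ 4 = (Kp + 8) ^ 4 * (w ^ 2) * w ^ 2 := by ring
      _ ≤ (Kp + 8) ^ 4 * (b ^ 2 * Real.exp (-4 * y)) * w ^ 2 := by gcongr
      _ = 1 / 2 * (2 * ((Kp + 8) ^ 4 * b ^ 2) * Real.exp (-4 * y)) * w ^ 2 := by ring
      _ ≤ 1 / 2 * Real.exp (-1 * y) * w ^ 2 := by gcongr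
  have c2 : 7 * Real.exp (-6 * y) * (2 * (Kp + 8) * w) ≤ 1 / 2 * Real.exp (-1 * y) * w ^ 2 := by
    have hwl2 : Real.exp (-(81 / 40) * y) ≤ (1 / v + 1) * w := by
      have h1 : Real.exp (-(81 / 40) * y) ^ 2 ≤ ((1 / v + 1) * w) ^ 2 := by
        rw [mul_pow]
        have h2 : 1 / v ≤ (1 / v + 1) ^ 2 := by
          have : 0 < 1 / v := by positivity
          nlinarith
        calc Real.exp (-(81 / 40) * y) ^ 2 = Real.exp (-(81 / 20) * y) := by
              rw [ex_pow]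
              norm_num
          _ ≤ Real.exp (-(161 / 40) * y) := hexle hy1 _ _ (by norm_num)
          _ = 1 / v * (v * Real.exp (-(161 / 40) * y)) := by field_simp
          _ ≤ (1 / v + 1) ^ 2 * w ^ 2 := by gcongr
      exact le_of_sq_le_sq h1 (by positivity)
    calc 7 * Real.exp (-6 * y) * (2 * (Kp + 8) * w) =
        1 / 2 * (28 * (Kp + 8) * (Real.exp (-(159 / 40) * y) * Real.exp (-(81 / 40) * y))) * w := by
          rw [ex_mul]
          norm_num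
          ring
      _ ≤ 1 / 2 * (28 * (Kp + 8) * (Real.exp (-(159 / 40) * y) * ((1 / v + 1) * w))) * w := by
          gcongr
      _ = 1 / 2 * (28 * (Kp + 8) * (1 / v + 1) * Real.exp (-(159 / 40) * y)) * w ^ 2 := by ring
      _ ≤ 1 / 2 * Real.exp (-1 * y) * w ^ 2 := by gcongr
  linarith

end Pool.Agent.TH794.HK
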