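import Pool.Agent.TH794.QE.NumB

/-! The error of the mean of the characteristic function. -/

set_option autoImplicit false

open Filter

namespace Pool.Agent.TH794.HK

open Pool.Agent.W788.BK.Num
open Pool.Agent.TH794.QD
open Pool.Agent.TH794.LL2 (hexle sqrt_ex)

theorem eT2 (D b m ml E1 t s2 w : ℝ) (hm : m = (ml ^ 2)⁻¹) (hml : 0 < ml) (ht0 : 0 < t)
    (hw2 : w ^ 2 = t * s2) (h2 : s2 ≤ b ^ 2 * E1) (h2' : 0 ≤ b ^ 2 * E1) :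
    (D * w) ^ 2 / (2 * (t * ml ^ 2)) ≤ D ^ 2 * b ^ 2 * m * E1 := by
  have hm0 : 0 < m := by rw [hm]; positivity
  have e1 : (D * w) ^ 2 / (2 * (t * ml ^ 2)) = 1 / 2 * (D ^ 2 * s2 * m) := by
    rw [mul_pow, hw2, hm]
    field_simp
  rw [e1]
  have h3 : D ^ 2 * s2 * m ≤ D ^ 2 * (b ^ 2 * E1) * m := by gcongr
  have h4 : 0 ≤ D ^ 2 * (b ^ 2 * E1) * m := by positivity
  linarith

theorem eT3 (D V1 m ml E1 t s2 w : ℝ) (hm : m = (ml ^ 2)⁻¹) (hml : 0 < ml) (ht0 : 0 < t)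
    (hs : 0 < s2) (hD : 0 ≤ D) (hw2 : w ^ 2 = t * s2) (h3 : w / s2 ≤ V1 * E1)
    (h3' : 0 ≤ V1 * E1) :
    (D * w) ^ 3 / (8 * (t * s2 ^ 2 * ml ^ 4)) ≤ D ^ 3 * V1 * m ^ 2 * E1 := by
  have hm0 : 0 < m := by rw [hm]; positivity
  have e1 : (D * w) ^ 3 / (8 * (t * s2 ^ 2 * ml ^ 4)) = 1 / 8 * (D ^ 3 * (w / s2) * m ^ 2) := by
    have e2 : (D * w) ^ 3 = D ^ 3 * (t * s2) * w := by
      rw [← hw2]
      ring
    rw [e2, hm]
    field_simp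
  rw [e1]
  have h4 : D ^ 3 * (w / s2) * m ^ 2 ≤ D ^ 3 * (V1 * E1) * m ^ 2 := by gcongr
  have h5 : 0 ≤ D ^ 3 * (V1 * E1) * m ^ 2 := by positivity
  linarith

theorem eT4 (D V1 m ml E1 t s2 w g P3 u : ℝ) (hm : m = (ml ^ 2)⁻¹) (hml : 0 < ml)
    (hs : 0 < s2) (hw2 : w ^ 2 = t * s2) (hu : u = t / s2) (h4 : u ≤ V1 * E1)
    (h4' : 0 ≤ V1 * E1) (hg0 : 0 ≤ g) (hg : g ≤ P3) :
    g * (D * w) ^ 2 / (s2 ^ 2 * ml ^ 2) ≤ D ^ 2 * V1 * m * P3 * E1 := by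
  have hm0 : 0 < m := by rw [hm]; positivity
  have e1 : g * (D * w) ^ 2 / (s2 ^ 2 * ml ^ 2) = g * (D ^ 2 * u * m) := by
    rw [mul_pow, hw2, hm, hu]
    field_simp
  rw [e1]
  calc g * (D ^ 2 * u * m) ≤ g * (D ^ 2 * (V1 * E1) * m) := by gcongr
    _ ≤ P3 * (D ^ 2 * (V1 * E1) * m) := by gcongr
    _ = _ := by ring

theorem eT8 (Kp V1 m E1 P X u cg : ℝ) (hKp : 0 ≤ Kp) (hm0 : 0 < m) (hE : 0 ≤ E1) (hP : 1 ≤ P)
    (hV : 0 ≤ V1) (hX : X ≤ E1) (hu : u ≤ V1 * E1) (hcg : cg ≤ E1) :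
    Kp * (X * m + 2 * (u + (X + cg)) * m) ≤ Kp * (m + 2 * (V1 + 2) * m) * P * E1 := by
  have h2 : X * m ≤ E1 * m := by gcongr
  have h3 : 2 * (u + (X + cg)) * m ≤ 2 * (V1 * E1 + (E1 + E1)) * m := by gcongr
  calc Kp * (X * m + 2 * (u + (X + cg)) * m) ≤ Kp * (E1 * m + 2 * (V1 * E1 + (E1 + E1)) * m) := by
        gcongr
    _ = Kp * (m + 2 * (V1 + 2) * m) * 1 * E1 := by ring
    _ ≤ _ := by gcongr

theorem errT (D b V1 m ml Kp d' P E1 g c0 t s2 w X ex u : ℝ) (hm : m = (ml ^ 2)⁻¹)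
    (hml : 0 < ml) (hD : 0 ≤ D) (hV : 0 ≤ V1) (hKp : 0 ≤ Kp) (hd : 0 ≤ d') (hP1 : 1 ≤ P)
    (hE0 : 0 ≤ E1) (hE1 : E1 ≤ 1) (hg0 : 0 < g) (hgP : g ≤ P) (ht0 : 0 < t) (hs0 : 0 < s2)
    (hw0 : 0 < w) (hw2 : w ^ 2 = t * s2) (hc0 : 0 ≤ c0) (h1 : c0 * g * s2 / t ≤ E1)
    (h2 : s2 ≤ b ^ 2 * E1) (h3 : w / s2 ≤ V1 * E1) (hu : u = t / s2) (h4 : u ≤ V1 * E1)
    (hX0 : 0 ≤ X) (hXE : X ≤ E1) (hex0 : 0 ≤ ex) (hex : ex ≤ E1) (hcg : c0 * g ≤ E1) :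
    80 * (c0 * g ^ 2 * s2 / t) + 9 * g ^ 3 * ((D * w) ^ 2 / (2 * (t * ml ^ 2)) +
      (D * w) ^ 3 / (8 * (t * s2 ^ 2 * ml ^ 4))) + g * (D * w) ^ 2 / (s2 ^ 2 * ml ^ 2) +
      (X + (3 * g + X) * (d' * (ex * (3 * g / ml ^ 2)) +
        Kp * (X / ml ^ 2 + 2 * (u + (X + c0 * g)) / ml ^ 2))) ≤
      (80 + 9 * (D ^ 2 * b ^ 2 * m + D ^ 3 * V1 * m ^ 2) + D ^ 2 * V1 * m + 1 +
        4 * (3 * d' * m + Kp * (m + 2 * (V1 + 2) * m))) * P ^ 3 * E1 := by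
  have hm0 : 0 < m := by rw [hm]; positivity
  have hP0 : 0 < P := by linarith
  have hPb : P ^ 2 ≤ P ^ 3 := pow_le_pow_right₀ hP1 (by norm_num)
  have hPa : P ≤ P ^ 3 := by
    calc P = P ^ 1 := (pow_one P).symm
      _ ≤ P ^ 3 := pow_le_pow_right₀ hP1 (by norm_num)
  have hPc : 1 ≤ P ^ 3 := one_le_pow₀ hP1
  have g1 : 80 * (c0 * g ^ 2 * s2 / t) ≤ 80 * P ^ 3 * E1 := by
    have e1 : c0 * g ^ 2 * s2 / t = g * (c0 * g * s2 / t) := by ring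
    have h0 : 0 ≤ c0 * g * s2 / t := by positivity
    rw [e1]
    calc 80 * (g * (c0 * g * s2 / t)) ≤ 80 * (P * E1) := by gcongr
      _ ≤ 80 * (P ^ 3 * E1) := by gcongr
      _ = _ := by ring
  have g2 := eT2 D b m ml E1 t s2 w hm hml ht0 hw2 h2 (by positivity)
  have g3 := eT3 D V1 m ml E1 t s2 w hm hml ht0 hs0 hD hw2 h3 (by positivity)
  have g4 := eT4 D V1 m ml E1 t s2 w g (P ^ 3) u hm hml hs0 hw2 hu h4 (by positivity) hg0.le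
    (hgP.trans hPa)
  have g5 : X ≤ P ^ 3 * E1 := by
    calc X ≤ 1 * E1 := by linarith
      _ ≤ P ^ 3 * E1 := by gcongr
  have g6 : 3 * g + X ≤ 4 * P := by linarith
  have hmi : ∀ z : ℝ, z / ml ^ 2 = z * m := fun z => by rw [hm, div_eq_mul_inv]
  have hu0 : 0 < u := by rw [hu]; positivity
  have g7 : d' * (ex * (3 * g * m)) ≤ 3 * d' * m * P * E1 := by
    calc d' * (ex * (3 * g * m)) ≤ d' * (E1 * (3 * P * m)) := by gcongr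
      _ = _ := by ring
  have g8 := eT8 Kp V1 m E1 P X u (c0 * g) hKp hm0 hE0 hP1 hV hXE h4 hcg
  have g9 : (3 * g + X) * (d' * (ex * (3 * g * m)) +
      Kp * (X * m + 2 * (u + (X + c0 * g)) * m)) ≤
      4 * (3 * d' * m + Kp * (m + 2 * (V1 + 2) * m)) * P ^ 3 * E1 := by
    have h0 : 0 ≤ d' * (ex * (3 * g * m)) + Kp * (X * m + 2 * (u + (X + c0 * g)) * m) := by
      positivity
    calc _ ≤ (4 * P) * (3 * d' * m * P * E1 + Kp * (m + 2 * (V1 + 2) * m) * P * E1) :=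
          mul_le_mul g6 (add_le_add g7 g8) h0 (by positivity)
      _ = 4 * (3 * d' * m + Kp * (m + 2 * (V1 + 2) * m)) * P ^ 2 * E1 := by ring
      _ ≤ _ := by gcongr
  have g10 : 9 * g ^ 3 * ((D * w) ^ 2 / (2 * (t * ml ^ 2)) +
      (D * w) ^ 3 / (8 * (t * s2 ^ 2 * ml ^ 4))) ≤
      9 * (D ^ 2 * b ^ 2 * m + D ^ 3 * V1 * m ^ 2) * P ^ 3 * E1 := by
    have h0 : 0 ≤ (D * w) ^ 2 / (2 * (t * ml ^ 2)) +
      (D * w) ^ 3 / (8 * (t * s2 ^ 2 * ml ^ 4)) := by positivity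
    have h5 : g ^ 3 ≤ P ^ 3 := pow_le_pow_left₀ hg0.le hgP 3
    calc _ ≤ 9 * P ^ 3 * (D ^ 2 * b ^ 2 * m * E1 + D ^ 3 * V1 * m ^ 2 * E1) :=
          mul_le_mul (by linarith) (add_le_add g2 g3) h0 (by positivity)
      _ = _ := by ring
  rw [hmi, hmi, hmi]
  have e2 : (80 + 9 * (D ^ 2 * b ^ 2 * m + D ^ 3 * V1 * m ^ 2) + D ^ 2 * V1 * m + 1 +
        4 * (3 * d' * m + Kp * (m + 2 * (V1 + 2) * m))) * P ^ 3 * E1 = 80 * P ^ 3 * E1 +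
      9 * (D ^ 2 * b ^ 2 * m + D ^ 3 * V1 * m ^ 2) * P ^ 3 * E1 + D ^ 2 * V1 * m * P ^ 3 * E1 +
      P ^ 3 * E1 + 4 * (3 * d' * m + Kp * (m + 2 * (V1 + 2) * m)) * P ^ 3 * E1 := by
    ring
  rw [e2]
  linarith only [g1, g10, g4, g5, g9]

/-- the size of the corrections -/
theorem numX8 (d : ℕ) (b A2 Ch ml : ℝ) (hb : 0 < b) (hA20 : 0 < A2)
    (hCh : 0 ≤ Ch) (hml : 0 < ml) :
    ∀ᶠ y : ℝ in atTop, ∀ A1 : ℝ, A1 = A2 * y → ∀ (s2 g cg t ζ X0 X Lr : ℝ),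
    0 < s2 → 1 ≤ g → g ≤ A1 * y →
    s2 ≤ (b * Real.exp (-1 * y)) ^ 2 → cg ≤ Real.exp (-(29 / 500) * y) →
    Real.exp (-(81 / 40) * y) ≤ t → t ≤ Real.exp (-(161 / 80) * y) → Real.exp (6 * y) ≤ Lr →
    ζ = Real.exp (-10 * y) → 0 ≤ X0 →
    X0 ≤ 56 * d / Lr / t ^ 2 → X = X0 + Ch * (s2 * (2 * g) + t + ζ) ^ (1 / 8 : ℝ) →
    X + cg ≤ ml ∧ s2 * (2 * g) + t ≤ 1 / 2 ∧ 0 ≤ X ∧ X ≤ Real.exp (-(1 / 5) * y) := by
  have hd0 : (0 : ℝ) ≤ d := Nat.cast_nonneg d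
  filter_upwards [eventually_ge_atTop 1,
    ev2 (2 * b ^ 2 * A2) (-2) (-(39 / 20)) 2 (by norm_num),
    ev2 4 (-(39 / 20)) (-(19 / 10)) 0 (by norm_num),
    ev2 (2 * (56 * d)) (-(39 / 20)) (-(1 / 5)) 0 (by norm_num),
    ev2 (2 * Ch) (-(19 / 80)) (-(1 / 5)) 0 (by norm_num),
    ev2 (2 / ml) (-(1 / 5)) 0 0 (by norm_num),
    ev2 (2 / ml) (-(29 / 500)) 0 0 (by norm_num),
    ev2 2 (-(19 / 10)) 0 0 (by norm_num)] with
    y hy1 n2 n3 n4 n5 n6 n7 n8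
  simp only [pow_zero, mul_one, zero_mul, Real.exp_zero] at n3 n4 n5 n6 n7 n8
  intro A1 hA1 s2 g cg t ζ X0 X Lr hs20 hg1 hgA hs' hcg ht ht' hL hζ hX00 hX0 hX
  have hP2 : A1 * y = A2 * y ^ 2 := by rw [hA1]; ring
  rw [hP2] at hgA
  have hg0 : 0 < g := by linarith
  have ht0 : 0 < t := lt_of_lt_of_le (Real.exp_pos _) ht
  have hLr0 : 0 < Lr := lt_of_lt_of_le (Real.exp_pos _) hL
  have htinv : t⁻¹ ≤ Real.exp (81 / 40 * y) := by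
    have h1 := inv_anti₀ (Real.exp_pos _) ht
    rw [ex_inv] at h1
    norm_num at h1 ⊢
    exact h1
  have hs2b : s2 ≤ b ^ 2 * Real.exp (-2 * y) := by
    refine hs'.trans (le_of_eq ?_)
    rw [mul_pow, ex_pow]
    norm_num
  have hζ0 : 0 < ζ := by rw [hζ]; positivity
  have hsum : s2 * (2 * g) + t + ζ ≤ Real.exp (-(19 / 10) * y) := by
    have h1 : s2 * (2 * g) ≤ Real.exp (-(39 / 20) * y) := by
      calc s2 * (2 * g) ≤ (b ^ 2 * Real.exp (-2 * y)) * (2 * (A2 * y ^ 2)) := by gcongr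
        _ = 2 * b ^ 2 * A2 * y ^ 2 * Real.exp (-2 * y) := by ring
        _ ≤ _ := n2
    have h2 : t ≤ Real.exp (-(39 / 20) * y) := ht'.trans (hexle hy1 _ _ (by norm_num))
    have h3 : ζ ≤ Real.exp (-(39 / 20) * y) := by
      rw [hζ]
      exact hexle hy1 _ _ (by norm_num)
    have h4 := Real.exp_pos (-(39 / 20) * y)
    linarith only [h1, h2, h3, h4, n3]
  have hsum0 : 0 ≤ s2 * (2 * g) + t + ζ := by positivity
  have h8 : (s2 * (2 * g) + t + ζ) ^ (1 / 8 : ℝ) ≤ Real.exp (-(19 / 80) * y) := by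
    calc (s2 * (2 * g) + t + ζ) ^ (1 / 8 : ℝ) ≤ (Real.exp (-(19 / 10) * y)) ^ (1 / 8 : ℝ) :=
          Real.rpow_le_rpow hsum0 hsum (by norm_num)
      _ = Real.exp (-(19 / 80) * y) := by
          rw [← Real.exp_mul]
          congr 1
          ring
  have hX0' : X0 ≤ 56 * d * Real.exp (-(39 / 20) * y) := by
    refine hX0.trans ?_
    have h1 : Lr⁻¹ ≤ Real.exp (-6 * y) := by
      have h1 := inv_anti₀ (Real.exp_pos _) hL
      rw [ex_inv] at h1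
      norm_num at h1 ⊢
      exact h1
    calc 56 * d / Lr / t ^ 2 = 56 * d * (Lr⁻¹ * (t⁻¹) ^ 2) := by
          rw [inv_pow]
          ring
      _ ≤ 56 * d * (Real.exp (-6 * y) * (Real.exp (81 / 40 * y)) ^ 2) := by gcongr
      _ = 56 * d * Real.exp (-(39 / 20) * y) := by
          rw [ex_pow, ex_mul]
          norm_num
  have hX1 : X ≤ Real.exp (-(1 / 5) * y) := by
    have h1 : Ch * (s2 * (2 * g) + t + ζ) ^ (1 / 8 : ℝ) ≤ Ch * Real.exp (-(19 / 80) * y) := by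
      gcongr
    rw [hX]
    linarith only [h1, hX0', n4, n5]
  refine ⟨?_, ?_, ?_, hX1⟩
  · have h1 := mul_le_mul_of_nonneg_left n6 hml.le
    have h2 := mul_le_mul_of_nonneg_left n7 hml.le
    have e1 : ml * (2 / ml * Real.exp (-(1 / 5) * y)) = 2 * Real.exp (-(1 / 5) * y) := by
      field_simp
    have e2 : ml * (2 / ml * Real.exp (-(29 / 500) * y)) = 2 * Real.exp (-(29 / 500) * y) := by
      field_simp
    rw [e1] at h1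
    rw [e2] at h2
    linarith only [h1, h2, hX1, hcg]
  · linarith only [hsum, n8, hζ0]
  · rw [hX]
    positivity

theorem numT8 (d : ℕ) (b v A2 Ch ml Kp : ℝ) (hb : 0 < b) (hv : 0 < v) (hA20 : 0 < A2)
    (hCh : 0 ≤ Ch) (hml : 0 < ml) (hKp : 0 ≤ Kp) :
    ∀ᶠ y : ℝ in atTop, ∀ A1 : ℝ, A1 = A2 * y → ∀ (s2 g c0 t b0 w ex ζ u X0 X Lr Cb : ℝ),
    1 ≤ g → g ≤ A1 * y → v * Real.exp (-2 * y) ≤ s2 →
    s2 ≤ (b * Real.exp (-1 * y)) ^ 2 → 0 ≤ c0 → c0 * g ≤ Real.exp (-(29 / 500) * y) →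
    c0 * g * s2 / t ≤ Real.exp (-(11 / 200) * y) →
    Real.exp (-(81 / 40) * y) ≤ t → t ≤ Real.exp (-(161 / 80) * y) → Real.exp (6 * y) ≤ Lr →
    w ^ 2 = t * s2 → 0 < w → Cb = 2 * d * (Kp + 8) → b0 = Cb * w →
    ex = Real.exp (-1 * y) → ζ = Real.exp (-10 * y) → u = t / s2 → 0 ≤ X0 →
    X0 ≤ 56 * d / Lr / t ^ 2 → X = X0 + Ch * (s2 * (2 * g) + t + ζ) ^ (1 / 8 : ℝ) →
    X + c0 * g ≤ ml ∧ s2 * (2 * g) + t ≤ 1 / 2 ∧ b0 + b0 ^ 2 ≤ Real.exp (-(97 / 50) * y) ∧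
    80 * (c0 * g ^ 2 * s2 / t) + 9 * g ^ 3 * (b0 ^ 2 / (2 * (t * ml ^ 2)) +
      b0 ^ 3 / (8 * (t * s2 ^ 2 * ml ^ 4))) + g * b0 ^ 2 / (s2 ^ 2 * ml ^ 2) +
      (X + (3 * g + X) * (d * (ex * (3 * g / ml ^ 2)) +
        Kp * (X / ml ^ 2 + 2 * (u + (X + c0 * g)) / ml ^ 2))) ≤ Real.exp (-(1 / 170) * y) := by
  have hd0 : (0 : ℝ) ≤ d := Nat.cast_nonneg d
  obtain ⟨V1, hV1⟩ : ∃ V1 : ℝ, V1 = v⁻¹ + 1 := ⟨_, rfl⟩
  obtain ⟨D, hD⟩ : ∃ D : ℝ, D = 2 * d * (Kp + 8) := ⟨_, rfl⟩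
  obtain ⟨m, hm⟩ : ∃ m : ℝ, m = (ml ^ 2)⁻¹ := ⟨_, rfl⟩
  have hvi : 0 < v⁻¹ := inv_pos.2 hv
  have hV10 : 0 < V1 := by rw [hV1]; linarith
  have hD0 : 0 ≤ D := by rw [hD]; positivity
  obtain ⟨Ct, hCt⟩ : ∃ Ct : ℝ, Ct = 80 + 9 * (D ^ 2 * b ^ 2 * m + D ^ 3 * V1 * m ^ 2) +
    D ^ 2 * V1 * m + 1 + 4 * (3 * d * m + Kp * (m + 2 * (V1 + 2) * m)) := ⟨_, rfl⟩
  filter_upwards [eventually_ge_atTop 1,
    ev2 (Ct * A2 ^ 3) (-(1 / 160)) (-(1 / 170)) 6 (by norm_num),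
    numX8 d b A2 Ch ml hb hA20 hCh hml,
    ev2 (2 * (D * b)) (-2) (-(97 / 50)) 0 (by norm_num),
    ev2 (D * b) (-2) 0 0 (by norm_num)] with
    y hy1 n1 hXX n9 n10
  simp only [pow_zero, mul_one, zero_mul, Real.exp_zero] at n9 n10
  intro A1 hA1 s2 g c0 t b0 w ex ζ u X0 X Lr Cb hg1 hgA hs hs' hc00 hcg hcgs ht ht' hL hw2 hw0
    hCb hb0 hex hζ hu hX00 hX0 hX
  rw [← hD] at hCb
  rw [hCb] at hb0
  have hs20 : 0 < s2 := lt_of_lt_of_le (by positivity) hs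
  obtain ⟨x1, x2, x3, x4⟩ := hXX A1 hA1 s2 g (c0 * g) t ζ X0 X Lr hs20 hg1 hgA hs' hcg ht ht' hL
    hζ hX00 hX0 hX
  obtain ⟨P, hP⟩ : ∃ P, P = A1 * y := ⟨_, rfl⟩
  rw [← hP] at hgA
  have hP1 : 1 ≤ P := hg1.trans hgA
  have hg0 : 0 < g := by linarith
  have ht0 : 0 < t := lt_of_lt_of_le (Real.exp_pos _) ht
  have hP2 : P = A2 * y ^ 2 := by rw [hP, hA1]; ring
  have hs2b : s2 ≤ b ^ 2 * Real.exp (-2 * y) := by
    refine hs'.trans (le_of_eq ?_)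
    rw [mul_pow, ex_pow]
    norm_num
  obtain ⟨E1, hE1⟩ : ∃ E1, E1 = Real.exp (-(1 / 160) * y) := ⟨_, rfl⟩
  have hE10 : 0 < E1 := by rw [hE1]; positivity
  have hE11 : E1 ≤ 1 := by
    rw [hE1]
    exact Real.exp_le_one_iff.2 (by linarith)
  have hxl : ∀ a : ℝ, a ≤ -(1 / 160) → Real.exp (a * y) ≤ E1 := by
    intro a ha
    rw [hE1]
    exact hexle hy1 _ _ ha
  refine ⟨x1, x2, ?_, ?_⟩
  · have hw : w ≤ b * Real.exp (-2 * y) := by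
      have h1 : w ^ 2 ≤ (b * Real.exp (-2 * y)) ^ 2 := by
        rw [hw2]
        calc t * s2 ≤ Real.exp (-(161 / 80) * y) * (b ^ 2 * Real.exp (-2 * y)) := by gcongr
          _ = b ^ 2 * Real.exp (-(321 / 80) * y) := by
              rw [mul_left_comm, ex_mul]
              norm_num
          _ ≤ b ^ 2 * Real.exp (-4 * y) := by
              have := hexle hy1 (-(321 / 80)) (-4) (by norm_num)
              gcongr
          _ = _ := by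
              rw [mul_pow, ex_pow]
              norm_num
      exact le_of_sq_le_sq h1 (by positivity)
    have h2 : b0 ≤ D * b * Real.exp (-2 * y) := by
      rw [hb0, mul_assoc]
      gcongr
    have h3 : b0 ≤ 1 := h2.trans n10
    have h4 : 0 ≤ b0 := by rw [hb0]; positivity
    have h5 : b0 ^ 2 ≤ b0 := by
      rw [sq]
      exact mul_le_of_le_one_left h4 h3
    linarith only [h2, h5, n9]
  · have hus : u ≤ V1 * E1 ^ 2 := by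
      have h1 : t ≤ v⁻¹ * E1 ^ 2 * s2 := by
        calc t ≤ Real.exp (-(161 / 80) * y) := ht'
          _ = v⁻¹ * Real.exp (-(1 / 160) * y) ^ 2 * (v * Real.exp (-2 * y)) := by
              rw [ex_pow]
              have e1 : v⁻¹ * Real.exp ((2 : ℕ) * -(1 / 160) * y) * (v * Real.exp (-2 * y)) =
                  (v⁻¹ * v) * (Real.exp ((2 : ℕ) * -(1 / 160) * y) * Real.exp (-2 * y)) := by ring
              rw [e1, inv_mul_cancel₀ hv.ne', one_mul, ex_mul]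
              norm_num
          _ ≤ v⁻¹ * E1 ^ 2 * s2 := by
              rw [hE1]
              gcongr
      rw [hu, div_le_iff₀ hs20]
      refine h1.trans ?_
      have : v⁻¹ ≤ V1 := by rw [hV1]; linarith
      gcongr
    have hu0 : 0 < u := by rw [hu]; positivity
    have hE2 : E1 ^ 2 ≤ E1 := by
      rw [sq]
      exact mul_le_of_le_one_left hE10.le hE11
    have huE : u ≤ V1 * E1 := hus.trans (by gcongr)
    have hws : w / s2 ≤ V1 * E1 := by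
      have h1 : (w / s2) ^ 2 ≤ (V1 * E1) ^ 2 := by
        rw [div_pow, hw2]
        have e1 : t * s2 / s2 ^ 2 = u := by
          rw [hu]
          field_simp
        rw [e1, mul_pow]
        refine hus.trans ?_
        have h3 : 1 ≤ V1 := by rw [hV1]; linarith
        have : V1 ≤ V1 ^ 2 := by
          rw [sq]
          exact le_mul_of_one_le_left hV10.le h3
        gcongr
      exact le_of_sq_le_sq h1 (by positivity)
    have h2' : s2 ≤ b ^ 2 * E1 := by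
      have := hxl (-2) (by norm_num)
      exact hs2b.trans (by gcongr)
    have hex0 : 0 ≤ ex := by rw [hex]; positivity
    have hexE : ex ≤ E1 := by
      rw [hex]
      exact hxl _ (by norm_num)
    have hfin := errT D b V1 m ml Kp d P E1 g c0 t s2 w X ex u hm hml hD0 hV10.le hKp hd0 hP1
      hE10.le hE11 hg0 hgA ht0 hs20 hw0 hw2 hc00 (hcgs.trans (hxl _ (by norm_num))) h2' hws hu huE
      x3 (x4.trans (hxl _ (by norm_num))) hex0 hexE (hcg.trans (hxl _ (by norm_num)))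
    rw [hb0]
    refine hfin.trans ?_
    rw [← hCt]
    have e1 : Ct * P ^ 3 * E1 = Ct * A2 ^ 3 * y ^ 6 * Real.exp (-(1 / 160) * y) := by
      rw [hP2, hE1]
      ring
    rw [e1]
    exact n1

end Pool.Agent.TH794.HK
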