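import Pool.Agent.TH794.QD.Num10

/-! The probability of the event. -/

set_option autoImplicit false

open Filter

namespace Pool.Agent.TH794.HK

open Pool.Agent.W788.BK.Num
open Pool.Agent.TH794.QD
open Pool.Agent.TH794.LL2 (hexle sqrt_ex)

theorem prob8 (d : ℕ) (b c A2 : ℝ) (hb : 0 < b) (hA20 : 0 < A2) :
    ∀ᶠ y : ℝ in atTop, ∀ A1 : ℝ, A1 = A2 * y → ∀ (Y ρ δ κ σ g1 τ β N cnt D1 D2 : ℝ) (L p M : ℕ),
    Y = Real.exp (y / 100) → ρ = Real.exp Y → (L : ℝ) ≤ Real.exp (7 * y) →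
    δ = Real.exp (-(97 / 50) * y) → κ = Real.exp (-(23 / 1000) * y) →
    σ = Real.exp (-1 * y) → 0 ≤ g1 → g1 ≤ A1 * y → p = ⌈Real.exp (1 / 80 * y)⌉₊ →
    N = (L : ℝ) ^ d → 0 < N → τ = Real.exp (-(209 / 100) * y) → β = b * Real.exp (-1 * y) →
    1 ≤ cnt → cnt ≤ 2 * Real.exp (-(11 / 5) * y) * N →
    D1 = Real.exp (-(37 / 500) * y) → D2 = Real.exp (-(1 / 5) * y) →
    (2 * M + 1 : ℝ) ≤ (6 * d + 5) * Real.exp (10 * y) →
    (3 * ρ) ^ d * ((8 * d / δ) * ((8 * p * g1 * c ^ 2 * σ ^ 2 / (δ * κ ^ 2)) ^ p *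
      (L : ℝ) ^ d) + (2 * N * Real.exp (-(τ ^ 2 * N / (2 * β ^ 2 * cnt))) +
      (2 * M + 1) * (2 * Real.exp (1 / 2 - 1 / Real.sqrt (2 * D2)) +
        N * (8 * Real.exp (-(Real.exp (-(1 / 50) * y) / (2 * D1))))))) ≤
      Real.exp (-Y) := by
  filter_upwards [eventually_ge_atTop 1,
    ev2 (48 * A2 * c ^ 2) (-(3 / 2000)) 0 2 (by norm_num),
    ev4 (12 * d + 12) 1 (1 / 80) (by norm_num) (by norm_num),
    ev4 (12 * d + 12) (1 / (4 * b ^ 2)) (1 / 50) (by positivity) (by norm_num),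
    ev4 (24 * d + 24) (1 / 2) (1 / 10) (by norm_num) (by norm_num),
    ev4 (32 * d + 24) (1 / 2) (27 / 500) (by norm_num) (by norm_num)] with
    y hy1 m1 m2 m3 m4 m5
  intro A1 hA1
  have hy10 : 0 < y := by linarith
  have hA10 : 0 < A1 := by rw [hA1]; positivity
  have m1 : (48 * A1 * c ^ 2) * y ^ 1 * Real.exp ((-(3 / 2000)) * y) ≤ Real.exp (0 * y) := by
    refine le_trans (mul_le_mul_of_nonneg_right ?_ (Real.exp_pos _).le) m1
    rw [hA1]
    exact le_of_eq (by ring)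
  simp only [pow_one, zero_mul, Real.exp_zero, one_mul] at m1 m2
  intro Y ρ δ κ σ g1 τ β N cnt D1 D2 L p M hY hρ hL hδ hκ hσ hg10 hg1 hp hNL hN0 hτ hβ hcnt1
    hcnt2 hD1 hD2 hM2
  obtain ⟨f1, f2⟩ := fac d y Y ρ L hρ hL
  have hY0 : 0 < Y := by rw [hY]; positivity
  have hdY : 0 ≤ d * Y := by positivity
  have hdy : 0 ≤ d * y := by positivity
  have hd0 : (0 : ℝ) ≤ d := Nat.cast_nonneg d
  have hρ0 : 0 < ρ := by rw [hρ]; positivity
  have h3ρ0 : 0 ≤ (3 * ρ) ^ d := by positivity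
  have hδ0 : 0 < δ := by rw [hδ]; positivity
  have hκ0 : 0 < κ := by rw [hκ]; positivity
  have hβ0 : 0 < β := by rw [hβ]; positivity
  have hδinv : δ⁻¹ = Real.exp (97 / 50 * y) := by
    rw [hδ, ex_inv]
    norm_num
  have hκinv : κ⁻¹ = Real.exp (23 / 1000 * y) := by
    rw [hκ, ex_inv]
    norm_num
  rw [← hY] at m2 m3 m4 m5
  have he1 := Real.exp_one_gt_d9
  have h2e : (2 : ℝ) ≤ Real.exp 1 := by linarith
  have h4e : (4 : ℝ) ≤ Real.exp 2 := by
    have : Real.exp 2 = Real.exp 1 * Real.exp 1 := by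
      rw [← Real.exp_add]
      norm_num
    rw [this]
    nlinarith
  -- first term
  have t1 : (3 * ρ) ^ d * ((8 * d / δ) * ((8 * p * g1 * c ^ 2 * σ ^ 2 / (δ * κ ^ 2)) ^ p *
      (L : ℝ) ^ d)) ≤ Real.exp (-Y - 2) := by
    obtain ⟨X, hX⟩ : ∃ X : ℝ, X = 8 * p * g1 * c ^ 2 * σ ^ 2 / (δ * κ ^ 2) := ⟨_, rfl⟩
    rw [← hX]
    have hX0 : 0 ≤ X := by rw [hX]; positivity
    have hp1 : Real.exp (1 / 80 * y) ≤ p := by
      rw [hp]
      exact Nat.le_ceil _
    have hp2 : (p : ℝ) ≤ 2 * Real.exp (1 / 80 * y) := by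
      have h1 := Nat.ceil_lt_add_one (show 0 ≤ Real.exp (1 / 80 * y) by positivity)
      rw [← hp] at h1
      have h2 : (1 : ℝ) ≤ Real.exp (1 / 80 * y) := Real.one_le_exp (by linarith)
      linarith
    have hX1 : X ≤ 1 / 3 := by
      calc X = 8 * p * g1 * c ^ 2 * σ ^ 2 * (δ⁻¹ * κ⁻¹ ^ 2) := by
            rw [hX, div_eq_mul_inv, mul_inv, inv_pow]
        _ ≤ 8 * (2 * Real.exp (1 / 80 * y)) * (A1 * y) * c ^ 2 * Real.exp (-1 * y) ^ 2 *
            (Real.exp (97 / 50 * y) * Real.exp (23 / 1000 * y) ^ 2) := by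
            rw [hδinv, hκinv, hσ]
            gcongr
        _ = 1 / 3 * (48 * A1 * c ^ 2 * y * (Real.exp (1 / 80 * y) * Real.exp (-1 * y) ^ 2 *
            (Real.exp (97 / 50 * y) * Real.exp (23 / 1000 * y) ^ 2))) := by ring
        _ = 1 / 3 * (48 * A1 * c ^ 2 * y * Real.exp (-(3 / 2000) * y)) := by
            rw [ex_pow, ex_pow, ex_mul, ex_mul, ex_mul]
            norm_num
        _ ≤ 1 / 3 := by linarith
    have hX2 : X ≤ Real.exp (-1) := by
      have h1 := Real.exp_one_lt_three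
      have h2 : (1 : ℝ) / 3 ≤ (Real.exp 1)⁻¹ := by
        rw [one_div]
        exact inv_anti₀ (Real.exp_pos _) h1.le
      rw [Real.exp_neg]
      linarith
    have hXp : X ^ p ≤ Real.exp (-Real.exp (1 / 80 * y)) := by
      calc X ^ p ≤ (Real.exp (-1)) ^ p := pow_le_pow_left₀ hX0 hX2 p
        _ = Real.exp (-(p : ℝ)) := by
          rw [← Real.exp_nat_mul]
          congr 1
          ring
        _ ≤ _ := Real.exp_le_exp.2 (neg_le_neg hp1)
    have h8 : 8 * d / δ ≤ Real.exp (8 * d) * Real.exp (97 / 50 * y) := by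
      rw [div_eq_mul_inv, hδinv]
      have := Real.add_one_le_exp (8 * (d : ℝ))
      have h9 : 8 * (d : ℝ) ≤ Real.exp (8 * d) := by linarith
      gcongr
    calc (3 * ρ) ^ d * ((8 * d / δ) * (X ^ p * (L : ℝ) ^ d)) ≤
        Real.exp (d * (2 + Y)) * ((Real.exp (8 * d) * Real.exp (97 / 50 * y)) *
          (Real.exp (-Real.exp (1 / 80 * y)) * Real.exp (7 * d * y))) := by gcongr
      _ = Real.exp (d * (2 + Y) + ((8 * d + 97 / 50 * y) +
          (-Real.exp (1 / 80 * y) + 7 * d * y))) := by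
          rw [← Real.exp_add, ← Real.exp_add, ← Real.exp_add, ← Real.exp_add]
      _ ≤ Real.exp (-Y - 2) := by
          apply Real.exp_le_exp.2
          clear hX hX0 hX1 hX2 hXp h8 hp1 hp2 f1 f2 h3ρ0
          linarith
  -- second term
  have t2 : (3 * ρ) ^ d * (2 * N * Real.exp (-(τ ^ 2 * N / (2 * β ^ 2 * cnt)))) ≤
      Real.exp (-Y - 2) := by
    have h1 : 1 / (4 * b ^ 2) * Real.exp (1 / 50 * y) ≤ τ ^ 2 * N / (2 * β ^ 2 * cnt) := by
      rw [le_div_iff₀ (by positivity)]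
      calc 1 / (4 * b ^ 2) * Real.exp (1 / 50 * y) * (2 * β ^ 2 * cnt) ≤
          1 / (4 * b ^ 2) * Real.exp (1 / 50 * y) * (2 * (b * Real.exp (-1 * y)) ^ 2 *
            (2 * Real.exp (-(11 / 5) * y) * N)) := by
            rw [hβ]
            gcongr
        _ = (Real.exp (1 / 50 * y) * Real.exp (-1 * y) ^ 2 * Real.exp (-(11 / 5) * y)) * N := by
            field_simp
            ring
        _ = τ ^ 2 * N := by
            rw [hτ, ex_pow, ex_pow, ex_mul, ex_mul]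
            norm_num
        _ ≤ _ := le_rfl
    have h2 : N ≤ Real.exp (7 * d * y) := by
      rw [hNL]
      exact f2
    calc (3 * ρ) ^ d * (2 * N * Real.exp (-(τ ^ 2 * N / (2 * β ^ 2 * cnt)))) ≤
        Real.exp (d * (2 + Y)) * (Real.exp 1 * Real.exp (7 * d * y) *
          Real.exp (-(1 / (4 * b ^ 2) * Real.exp (1 / 50 * y)))) := by gcongr
      _ = Real.exp (d * (2 + Y) + ((1 + 7 * d * y) +
          (-(1 / (4 * b ^ 2) * Real.exp (1 / 50 * y))))) := by
          rw [← Real.exp_add, ← Real.exp_add, ← Real.exp_add]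
      _ ≤ Real.exp (-Y - 2) := by
          apply Real.exp_le_exp.2
          clear f1 f2 h3ρ0 h2 hcnt1 hcnt2 hN0 hNL
          linarith
  have hM3 : (2 * M + 1 : ℝ) ≤ Real.exp (6 * d + 5) * Real.exp (10 * y) := by
    have := Real.add_one_le_exp (6 * (d : ℝ) + 5)
    refine hM2.trans (mul_le_mul_of_nonneg_right (by linarith) (Real.exp_pos _).le)
  have hM0 : (0 : ℝ) ≤ 2 * M + 1 := by positivity
  -- third term
  have t3 : (3 * ρ) ^ d * ((2 * M + 1) * (2 * Real.exp (1 / 2 - 1 / Real.sqrt (2 * D2)))) ≤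
      Real.exp (-Y - 2) := by
    have h1 : 1 / 2 * Real.exp (1 / 10 * y) ≤ 1 / Real.sqrt (2 * D2) := by
      have h4 : Real.sqrt (2 * D2) ≤ 2 * Real.exp (-(1 / 10) * y) := by
        rw [Real.sqrt_le_left (by positivity), mul_pow, ex_pow, hD2]
        have : 0 < Real.exp (-(1 / 5) * y) := by positivity
        norm_num
        norm_num at this
        linarith
      have h5 : 0 < Real.sqrt (2 * D2) := Real.sqrt_pos.2 (by rw [hD2]; positivity)
      rw [le_div_iff₀ h5]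
      calc 1 / 2 * Real.exp (1 / 10 * y) * Real.sqrt (2 * D2) ≤
          1 / 2 * Real.exp (1 / 10 * y) * (2 * Real.exp (-(1 / 10) * y)) := by gcongr
        _ = Real.exp (1 / 10 * y) * Real.exp (-(1 / 10) * y) := by ring
        _ = 1 := by
          rw [ex_mul]
          norm_num
    calc (3 * ρ) ^ d * ((2 * M + 1) * (2 * Real.exp (1 / 2 - 1 / Real.sqrt (2 * D2)))) ≤
        Real.exp (d * (2 + Y)) * ((Real.exp (6 * d + 5) * Real.exp (10 * y)) *
          (Real.exp 1 * Real.exp (1 / 2 - 1 / 2 * Real.exp (1 / 10 * y)))) := by gcongr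
      _ = Real.exp (d * (2 + Y) + ((6 * d + 5 + 10 * y) +
          (1 + (1 / 2 - 1 / 2 * Real.exp (1 / 10 * y))))) := by
          rw [← Real.exp_add, ← Real.exp_add, ← Real.exp_add, ← Real.exp_add]
      _ ≤ Real.exp (-Y - 2) := by
          apply Real.exp_le_exp.2
          clear f1 f2 h3ρ0 hM2 hM3 hM0
          linarith
  -- fourth term
  have t4 : (3 * ρ) ^ d * ((2 * M + 1) * (N * (8 * Real.exp (-(Real.exp (-(1 / 50) * y) /
      (2 * D1)))))) ≤ Real.exp (-Y - 2) := by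
    have h1 : 1 / 2 * Real.exp (27 / 500 * y) = Real.exp (-(1 / 50) * y) / (2 * D1) := by
      have hD1i : D1⁻¹ = Real.exp (37 / 500 * y) := by
        rw [hD1, ex_inv]
        norm_num
      have e1 : Real.exp (27 / 500 * y) = Real.exp (-(1 / 50) * y) * Real.exp (37 / 500 * y) := by
        rw [ex_mul]
        norm_num
      rw [e1, ← hD1i]
      field_simp
    have h2 : N ≤ Real.exp (7 * d * y) := by
      rw [hNL]
      exact f2
    have h8e : (8 : ℝ) ≤ Real.exp 3 := by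
      have : Real.exp 3 = Real.exp 2 * Real.exp 1 := by
        rw [← Real.exp_add]
        norm_num
      rw [this]
      nlinarith
    rw [← h1]
    calc (3 * ρ) ^ d * ((2 * M + 1) * (N * (8 * Real.exp (-(1 / 2 * Real.exp (27 / 500 * y)))))) ≤
        Real.exp (d * (2 + Y)) * ((Real.exp (6 * d + 5) * Real.exp (10 * y)) *
          (Real.exp (7 * d * y) * (Real.exp 3 * Real.exp (-(1 / 2 *
            Real.exp (27 / 500 * y)))))) := by gcongr
      _ = Real.exp (d * (2 + Y) + ((6 * d + 5 + 10 * y) +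
          (7 * d * y + (3 + (-(1 / 2 * Real.exp (27 / 500 * y))))))) := by
          rw [← Real.exp_add, ← Real.exp_add, ← Real.exp_add, ← Real.exp_add, ← Real.exp_add]
      _ ≤ Real.exp (-Y - 2) := by
          apply Real.exp_le_exp.2
          clear f1 f2 h3ρ0 hM2 hM3 hM0 h2
          linarith
  have h5 : Real.exp (-Y) = Real.exp 2 * Real.exp (-Y - 2) := by
    rw [← Real.exp_add]
    congr 1
    ring
  have h6 : 4 * Real.exp (-Y - 2) ≤ Real.exp (-Y) := by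
    rw [h5]
    gcongr
  have h7 : (3 * ρ) ^ d * ((8 * d / δ) * ((8 * p * g1 * c ^ 2 * σ ^ 2 / (δ * κ ^ 2)) ^ p *
      (L : ℝ) ^ d) + (2 * N * Real.exp (-(τ ^ 2 * N / (2 * β ^ 2 * cnt))) +
      (2 * M + 1) * (2 * Real.exp (1 / 2 - 1 / Real.sqrt (2 * D2)) +
        N * (8 * Real.exp (-(Real.exp (-(1 / 50) * y) / (2 * D1))))))) =
      (3 * ρ) ^ d * ((8 * d / δ) * ((8 * p * g1 * c ^ 2 * σ ^ 2 / (δ * κ ^ 2)) ^ p *
      (L : ℝ) ^ d)) + (3 * ρ) ^ d * (2 * N * Real.exp (-(τ ^ 2 * N / (2 * β ^ 2 * cnt)))) +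
      (3 * ρ) ^ d * ((2 * M + 1) * (2 * Real.exp (1 / 2 - 1 / Real.sqrt (2 * D2)))) +
      (3 * ρ) ^ d * ((2 * M + 1) * (N * (8 * Real.exp (-(Real.exp (-(1 / 50) * y) /
      (2 * D1)))))) := by ring
  rw [h7]
  linarith


end Pool.Agent.TH794.HK
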