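import Pool.Agent.TH794.QD.Mean6
import Pool.Agent.TH794.HK.CoreA

/-! The chain with a momentum transfer: covariance and the block equation. -/

set_option autoImplicit false
set_option linter.unusedSectionVars false

open scoped BigOperators Matrix
open MeasureTheory

namespace Pool.Agent.TH794.HK

open Pool.Agent.TH794.QD
open Pool.Agent.W788.BK
open Pool.Agent.TH794.LL2
open Pool.Agent.W788.MFP.Four (T e NN adj K ft Op q NN_pos e_zero e_comm e_add_left e_add e_neg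
  e_neg_left e_normSq sum_e)

variable {d L : ℕ} [NeZero L]

/-- the weight -/
noncomputable def wt (E δ : ℝ) (P0 k : T d L) : ℝ :=
  (Real.sqrt (JJ E δ k))⁻¹ * (Real.sqrt (JJ E δ (k + P0)))⁻¹

theorem wt_nonneg (E δ : ℝ) (P0 k : T d L) : 0 ≤ wt E δ P0 k := by
  unfold wt
  positivity

theorem JJ_ge (E δ : ℝ) (k : T d L) : δ ≤ JJ E δ k :=
  Real.le_sqrt_of_sq_le (by linarith [sq_nonneg (adj k - E)])

theorem wt_le (E δ : ℝ) (hδ : 0 < δ) (P0 k : T d L) : δ * wt E δ P0 k ≤ 1 := by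
  have h1 : Real.sqrt δ ≤ Real.sqrt (JJ E δ k) := Real.sqrt_le_sqrt (JJ_ge E δ k)
  have h2 : Real.sqrt δ ≤ Real.sqrt (JJ E δ (k + P0)) := Real.sqrt_le_sqrt (JJ_ge E δ (k + P0))
  have h3 : 0 < Real.sqrt δ := Real.sqrt_pos.2 hδ
  unfold wt
  calc δ * ((Real.sqrt (JJ E δ k))⁻¹ * (Real.sqrt (JJ E δ (k + P0)))⁻¹) ≤
        δ * ((Real.sqrt δ)⁻¹ * (Real.sqrt δ)⁻¹) := by gcongr
    _ = 1 := by
        rw [← mul_inv, Real.mul_self_sqrt hδ.le]
        exact mul_inv_cancel₀ hδ.ne'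

/-- the twist -/
noncomputable def TS (E δ : ℝ) (P0 : T d L) : Matrix (T d L) (T d L) ℂ :=
  Matrix.of fun k p => if p = k + P0 then ((δ * wt E δ P0 k : ℝ) : ℂ) else 0

theorem TS_mulVec (E δ : ℝ) (P0 : T d L) (w : T d L → ℂ) (k : T d L) :
    (TS E δ P0 *ᵥ w) k = ((δ * wt E δ P0 k : ℝ) : ℂ) * w (k + P0) := by
  unfold Matrix.mulVec dotProduct TS
  rw [Finset.sum_eq_single (k + P0)]
  · simp only [Matrix.of_apply, if_true]
  · intro l _ hl
    simp only [Matrix.of_apply]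
    rw [if_neg hl, zero_mul]
  · intro h
    exact absurd (Finset.mem_univ _) h

theorem TS_nsq (E δ : ℝ) (hδ : 0 < δ) (P0 : T d L) (w : T d L → ℂ) :
    nsq (TS E δ P0 *ᵥ w) ≤ nsq w := by
  unfold nsq
  rw [← Equiv.sum_comp (Equiv.addRight P0) fun k => ‖w k‖ ^ 2]
  refine Finset.sum_le_sum fun k _ => ?_
  rw [TS_mulVec, norm_mul, mul_pow, Complex.norm_real, Real.norm_eq_abs]
  apply mul_le_of_le_one_left (sq_nonneg _)
  apply pow_le_one₀ (abs_nonneg _)
  rw [abs_of_nonneg (mul_nonneg hδ.le (wt_nonneg _ _ _ _))]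
  exact wt_le E δ hδ P0 k

/-- twisted covariance -/
def TCov (Q : T d L) (F : (T d L → ℝ) → Matrix (T d L) (T d L) ℂ) : Prop :=
  ∀ (V : T d L → ℝ) (z k p : T d L), F (fun y => V (y - z)) k p = e (k - p + Q) z * F V k p

theorem TCov.of_cov {F : (T d L → ℝ) → Matrix (T d L) (T d L) ℂ} (hF : Cov F) : TCov 0 F := by
  intro V z k p
  rw [add_zero]
  exact hF V z k p

theorem TCov.mul {Q Q' : T d L} {F G : (T d L → ℝ) → Matrix (T d L) (T d L) ℂ} (hF : TCov Q F)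
    (hG : TCov Q' G) : TCov (Q + Q') fun V => F V * G V := by
  intro V z k p
  beta_reduce
  rw [Matrix.mul_apply, Matrix.mul_apply, Finset.mul_sum]
  refine Finset.sum_congr rfl fun l _ => ?_
  have h1 : e (k - l + Q) z * e (l - p + Q') z = e (k - p + (Q + Q')) z := by
    rw [← e_add_left]
    congr 1
    abel
  rw [hF, hG, ← h1]
  ring

theorem TCov.const (E δ : ℝ) (c : ℂ) (P0 : T d L) :
    TCov P0 fun _ : T d L → ℝ => (c • TS E δ P0 : Matrix (T d L) (T d L) ℂ) := by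
  intro V z k p
  beta_reduce
  rw [Matrix.smul_apply]
  unfold TS
  simp only [Matrix.of_apply]
  by_cases h : p = k + P0
  · rw [if_pos h, h]
    have h2 : k - (k + P0) + P0 = 0 := by abel
    have h3 : e (0 : T d L) z = 1 := by rw [e_comm, e_zero]
    rw [h2, h3, one_mul]
  · rw [if_neg h, smul_zero, mul_zero]

theorem TCov.zero (Q : T d L) :
    TCov Q fun _ : T d L → ℝ => (0 : Matrix (T d L) (T d L) ℂ) := by
  intro V z k p
  simp

/-- the mean of a twisted covariant matrix -/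
theorem TCov.off {Q : T d L} {F : (T d L → ℝ) → Matrix (T d L) (T d L) ℂ} (hF : TCov Q F)
    (μ : Measure ℝ) [IsProbabilityMeasure μ] (k p : T d L) (hkp : p ≠ k + Q) :
    ∫ V, F V k p ∂(PP (T d L) μ) = 0 := by
  have hinv : ∀ z : T d L, ∫ V, F V k p ∂(PP (T d L) μ) =
      e (k - p + Q) z * ∫ V, F V k p ∂(PP (T d L) μ) := by
    intro z
    have h1 := (measurePreserving_piCongrLeft (fun _ : T d L => μ) (Equiv.addRight z)).integral_comp'
      (fun V : T d L → ℝ => F V k p)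
    have h2 : ∀ V : T d L → ℝ, (MeasurableEquiv.piCongrLeft (fun _ : T d L => ℝ)
        (Equiv.addRight z)) V = fun y => V (y - z) := by
      intro V
      funext y
      have h3 := Equiv.piCongrLeft_apply_apply (fun _ : T d L => ℝ) (Equiv.addRight z) V (y - z)
      have h4 : (Equiv.addRight z) (y - z) = y := sub_add_cancel y z
      rw [h4] at h3
      exact h3
    simp only [h2] at h1
    have h3 : ∀ V : T d L → ℝ, F (fun y => V (y - z)) k p = e (k - p + Q) z * F V k p :=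
      fun V => hF V z k p
    simp only [h3] at h1
    rw [integral_const_mul] at h1
    exact h1.symm
  have hsum : ∑ z : T d L, ∫ V, F V k p ∂(PP (T d L) μ) =
      (∑ z : T d L, e z (k - p + Q)) * ∫ V, F V k p ∂(PP (T d L) μ) := by
    rw [Finset.sum_mul]
    refine Finset.sum_congr rfl fun z _ => ?_
    rw [e_comm z]
    exact hinv z
  have hne : k - p + Q ≠ 0 := by
    intro h
    apply hkp
    have h1 : p = k + Q - (k - p + Q) := by abel
    rw [h1, h, sub_zero]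
  rw [sum_e, if_neg hne, zero_mul, Finset.sum_const, nsmul_eq_mul] at hsum
  rcases mul_eq_zero.1 hsum with h | h
  · exfalso
    have : (Finset.univ : Finset (T d L)).card ≠ 0 := by
      rw [Finset.card_univ]; exact Fintype.card_ne_zero
    exact this (by exact_mod_cast h)
  · exact h

/-- the blocks of the inverse -/
noncomputable def BT (E δ θ η : ℝ) (P0 : T d L) (V : T d L → ℝ) (i j : Fin 3) :
    Matrix (T d L) (T d L) ℂ :=
  sel (sel (RR (D0 E δ) (AA E δ θ) η V)ᴴ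
      ((RR (D0 E δ) (AA E δ θ) η V)ᴴ * ((η : ℂ) • TS E δ P0) * RR (D0 E δ) (AA E δ θ) η V)
      ((RR (D0 E δ) (AA E δ θ) η V)ᴴ * ((η : ℂ) • TS E δ P0) * RR (D0 E δ) (AA E δ θ) η V *
        ((η : ℂ) • TS E δ P0) * RR (D0 E δ) (AA E δ θ) η V))
    (sel 0 (RR (D0 E δ) (AA E δ θ) η V)
      (RR (D0 E δ) (AA E δ θ) η V * ((η : ℂ) • TS E δ P0) * RR (D0 E δ) (AA E δ θ) η V))
    (sel 0 0 (RR (D0 E δ) (AA E δ θ) η V)) i j

/-- the unperturbed blocks -/
noncomputable def ZT (E δ η : ℝ) (P0 : T d L) (i j : Fin 3) : Matrix (T d L) (T d L) ℂ :=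
  sel (sel (D0 E δ + ((η : ℂ) * Complex.I) • 1) (-((η : ℂ) • TS E δ P0)) 0)
    (sel 0 (D0 E δ - ((η : ℂ) * Complex.I) • 1) (-((η : ℂ) • TS E δ P0)))
    (sel 0 0 (D0 E δ - ((η : ℂ) * Complex.I) • 1)) i j

theorem GG_BT (E δ θ η : ℝ) (P0 : T d L) (V : T d L → ℝ) (hη : 0 < η)
    (h0 : (D0 (d := d) (L := L) E δ).IsHermitian)
    (hA : ∀ y, (AA (d := d) (L := L) E δ θ y).IsHermitian) :
    GG (Z3 (D0 E δ) ((η : ℂ) • TS E δ P0) η) (A3 (AA (d := d) (L := L) E δ θ)) V =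
      blk (BT E δ θ η P0 V) := GG3 _ _ _ η h0 hA hη V

theorem sel_ZT (E δ η : ℝ) (P0 : T d L) :
    Z3 (D0 (d := d) (L := L) E δ) ((η : ℂ) • TS E δ P0) η = blk (ZT E δ η P0) := rfl

theorem cov01 (E δ θ η : ℝ) (P0 : T d L) :
    TCov P0 fun V : T d L → ℝ => BT E δ θ η P0 V 0 1 := by
  have hR := Cov.res (d := d) (L := L) E δ θ η
  have h1 := ((TCov.of_cov hR.conj).mul (TCov.const E δ (η : ℂ) P0)).mul (TCov.of_cov hR)
  rw [zero_add, add_zero] at h1
  exact h1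

theorem blk_mul_app {n : Type} [Fintype n] [DecidableEq n] (B C : Fin 3 → Fin 3 → Matrix n n ℂ)
    (i j : Fin 3) (k p : n) :
    (blk B * blk C) (i, k) (j, p) = ∑ l, (B i l * C l j) k p := by
  rw [blk_mul, blk_apply, Matrix.sum_apply]

/-- the self-energy of a twisted diagonal matrix -/
theorem Psi_tw (E δ θ : ℝ) (P0 : T d L) (B : Matrix (T d L) (T d L) ℂ)
    (hB : ∀ k p, p ≠ k + P0 → B k p = 0) (k : T d L) :
    Psi (AA (d := d) (L := L) E δ θ) B k (k + P0) =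
      (wt E δ P0 k : ℂ) * ∑ p, (((NN d L)⁻¹ * hi θ (k - p) * wt E δ P0 p : ℝ) : ℂ) *
        B p (p + P0) := by
  unfold Psi
  rw [Matrix.sum_apply]
  have h1 : ∀ y : T d L, (AA E δ θ y * B * AA E δ θ y : Matrix (T d L) (T d L) ℂ) k (k + P0) =
      ∑ p, (((NN d L)⁻¹ ^ 2 * hi θ (k - p) * (wt E δ P0 k * wt E δ P0 p) : ℝ) : ℂ) *
        B p (p + P0) := by
    intro y
    rw [Matrix.mul_apply]
    rw [← Equiv.sum_comp (Equiv.addRight P0)]
    refine Finset.sum_congr rfl fun p _ => ?_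
    have h2 : (AA E δ θ y * B : Matrix (T d L) (T d L) ℂ) k (p + P0) =
        AA E δ θ y k p * B p (p + P0) := by
      rw [Matrix.mul_apply, Finset.sum_eq_single p]
      · intro l _ hl
        rw [hB l (p + P0) (fun h => hl (add_right_cancel h).symm), mul_zero]
      · intro h
        exact absurd (Finset.mem_univ p) h
    rw [Equiv.coe_addRight, h2]
    have h3 : AA E δ θ y k p * AA E δ θ y (p + P0) (k + P0) =
        (((NN d L)⁻¹ ^ 2 * hi θ (k - p) * (wt E δ P0 k * wt E δ P0 p) : ℝ) : ℂ) := by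
      unfold AA wt
      simp only [Matrix.of_apply]
      have f0 : p + P0 - (k + P0) = p - k := by abel
      have f1 : hi θ (p - k) = hi θ (k - p) := by
        rw [← hi_neg, neg_sub]
      have f2 : e (p - k) y = (starRingEnd ℂ) (e (k - p) y) := by
        rw [← e_neg_left, neg_sub]
      have f3 := e_normSq (k - p) y
      have f6 := hi_sq θ (k - p)
      rw [f0, f1, f2]
      calc _ = (((NN d L)⁻¹ ^ 2 * hi θ (k - p) ^ 2 *
            (((Real.sqrt (JJ E δ k))⁻¹ * (Real.sqrt (JJ E δ (k + P0)))⁻¹) *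
            ((Real.sqrt (JJ E δ p))⁻¹ * (Real.sqrt (JJ E δ (p + P0)))⁻¹)) : ℝ) : ℂ) *
            (e (k - p) y * (starRingEnd ℂ) (e (k - p) y)) := by
            push_cast
            ring
        _ = _ := by rw [f3, f6, mul_one]
    rw [← h3]
    ring
  simp only [h1]
  rw [Finset.sum_const, nsmul_eq_mul, Finset.mul_sum, Finset.mul_sum]
  refine Finset.sum_congr rfl fun p _ => ?_
  have h3 : ((Finset.univ : Finset (T d L)).card : ℂ) = ((NN d L : ℝ) : ℂ) := by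
    rw [Finset.card_univ, ← Pool.Agent.W788.MFP.Four.card_T]
    push_cast
    rfl
  rw [h3]
  have hN : ((NN d L : ℝ) : ℂ) ≠ 0 := by
    exact_mod_cast (NN_pos (d := d) (L := L)).ne'
  push_cast
  field_simp

/-- **the equation of the twisted two-resolvent average** -/
theorem tw_eq (hES : S_ES) (hFA : S_FAC) (E δ θ η a v2 Q β s2 ε : ℝ) (P0 : T d L)
    (hδ : 0 < δ) (hη : 0 < η) (hη1 : η ≤ 1)
    (hadm : Adm (D0 E δ) (AA (d := d) (L := L) E δ θ) a v2 Q)
    (μ : Measure ℝ) [IsProbabilityMeasure μ] (hβ : 0 < β) (hμ : ∀ᵐ s ∂μ, |s| ≤ β)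
    (h0 : ∫ s, s ∂μ = 0) (h2 : ∫ s, s ^ 2 ∂μ = s2) (hs2 : 0 ≤ s2)
    (hβa : β * a * (3 / η) ≤ 1) (hβv : β ^ 2 * v2 ≤ 1)
    (hε : 4 * β ^ 3 * a * v2 * (3 / η) ^ 3 +
      s2 * (2 * β * (3 * Q) * Real.sqrt v2 * (3 / η) ^ 4) ≤ ε) (M Y : T d L → ℂ)
    (hM : ∀ k, M k = ∫ V, RR (D0 E δ) (AA E δ θ) η V k k ∂(PP (T d L) μ))
    (hY : ∀ k, Y k = ∫ V, BT E δ θ η P0 V 0 1 k (k + P0) ∂(PP (T d L) μ)) (k : T d L) :
    ‖((((adj k - E) / JJ E δ k : ℝ) : ℂ) + (η : ℂ) * Complex.I) * Y k -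
      ((η * δ * wt E δ P0 k : ℝ) : ℂ) * M (k + P0) -
      (s2 : ℂ) * ((starRingEnd ℂ) (Ps E δ θ M k) * Y k +
        (wt E δ P0 k : ℂ) * (∑ p, (((NN d L)⁻¹ * hi θ (k - p) * wt E δ P0 p : ℝ) : ℂ) * Y p) *
          M (k + P0))‖ ≤ ε := by
  have hH := adG3 hadm (TS E δ P0) η hη hη1 (TS_nsq E δ hδ P0)
  have hXh := hadm.hX0
  have hAh := hadm.hA
  obtain ⟨MB, hMB⟩ : ∃ MB : Fin 3 → Fin 3 → Matrix (T d L) (T d L) ℂ, MB = fun i j =>
    Matrix.of fun k p => MG (Z3 (D0 E δ) ((η : ℂ) • TS E δ P0) η) (A3 (AA E δ θ)) μ (i, k) (j, p) :=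
    ⟨_, rfl⟩
  have hMG : MG (Z3 (D0 E δ) ((η : ℂ) • TS E δ P0) η) (A3 (AA (d := d) (L := L) E δ θ)) μ =
      blk MB := by
    rw [hMB]
    ext ⟨i, k⟩ ⟨j, p⟩
    rfl
  have hMBi : ∀ i j k p, MB i j k p = ∫ V, BT E δ θ η P0 V i j k p ∂(PP (T d L) μ) := by
    intro i j k p
    rw [hMB]
    simp only [Matrix.of_apply]
    unfold MG
    rw [Matrix.of_apply]
    refine integral_congr_ae (Filter.Eventually.of_forall fun V => ?_)
    simp only
    rw [GG_BT E δ θ η P0 V hη hXh hAh]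
    rfl
  have d11 : ∀ k p, k ≠ p → MB 1 1 k p = 0 := by
    intro k p hkp
    rw [hMBi]
    exact (Cov.res (d := d) (L := L) E δ θ η).off μ k p hkp
  have d00 : ∀ k p, k ≠ p → MB 0 0 k p = 0 := by
    intro k p hkp
    rw [hMBi]
    exact (Cov.res (d := d) (L := L) E δ θ η).conj.off μ k p hkp
  have d01 : ∀ k p, p ≠ k + P0 → MB 0 1 k p = 0 := by
    intro k p hkp
    rw [hMBi]
    exact (cov01 E δ θ η P0).off μ k p hkp
  have d21 : MB 2 1 = 0 := by
    ext k p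
    rw [hMBi, Matrix.zero_apply]
    have h1 : ∀ V, BT E δ θ η P0 V 2 1 k p = 0 := fun V => rfl
    simp [h1]
  have m11 : ∀ k, MB 1 1 k k = M k := by
    intro k
    rw [hMBi, hM]
    rfl
  have m00 : ∀ k, MB 0 0 k k = (starRingEnd ℂ) (M k) := by
    intro k
    rw [hMBi, hM, ← integral_conj]
    rfl
  have m01 : ∀ k, MB 0 1 k (k + P0) = Y k := by
    intro k
    rw [hMBi, hY]
  have e1 := thirdG hFA hH μ β s2 hβ hμ h0 h2 hβa (Pi.single (0, k) 1) (Pi.single (1, k + P0) 1)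
    (nsq_single _) (nsq_single _)
  have e2 := fluctG hES hH μ β hβ hμ hβv (Pi.single (0, k) 1) (Pi.single (1, k + P0) 1)
    (nsq_single _) (nsq_single _)
  rw [form_single] at e1 e2
  rw [hMG, sel_ZT] at e1
  rw [hMG, psi_blk] at e2
  rw [Matrix.sub_apply, Matrix.sub_apply, Matrix.smul_apply, smul_eq_mul,
    blk_mul_app, Fin.sum_univ_three, d21, mul_zero, Matrix.zero_apply, add_zero] at e1
  rw [Matrix.sub_apply, blk_mul_app, Fin.sum_univ_three, d21, mul_zero, Matrix.zero_apply,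
    add_zero] at e2
  have z0 : (ZT E δ η P0 0 0 * MB 0 1) k (k + P0) =
      ((((adj k - E) / JJ E δ k : ℝ) : ℂ) + (η : ℂ) * Complex.I) * Y k := by
    have h1 : ZT E δ η P0 0 0 = Matrix.diagonal fun k => ((((adj k - E) / JJ E δ k : ℝ) : ℂ) +
        (η : ℂ) * Complex.I) := by
      change (D0 E δ + ((η : ℂ) * Complex.I) • (1 : Matrix (T d L) (T d L) ℂ)) = _
      unfold D0
      rw [Matrix.smul_one_eq_diagonal, Matrix.diagonal_add]
    rw [h1, Matrix.diagonal_mul, m01]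
  have z1 : (ZT E δ η P0 0 1 * MB 1 1) k (k + P0) =
      -(((η * δ * wt E δ P0 k : ℝ) : ℂ) * M (k + P0)) := by
    have h1 : ZT E δ η P0 0 1 = -((η : ℂ) • TS E δ P0) := rfl
    rw [h1, Matrix.mul_apply, Finset.sum_eq_single (k + P0)]
    · rw [Matrix.neg_apply, Matrix.smul_apply, m11]
      unfold TS
      simp only [Matrix.of_apply, if_true, smul_eq_mul]
      push_cast
      ring
    · intro l _ hl
      rw [d11 _ _ hl, mul_zero]
    · intro h
      exact absurd (Finset.mem_univ _) h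
  have p0 : (Psi (AA (d := d) (L := L) E δ θ) (MB 0 0) * MB 0 1) k (k + P0) =
      (starRingEnd ℂ) (Ps E δ θ M k) * Y k := by
    rw [Matrix.mul_apply, Finset.sum_eq_single k]
    · rw [Psi_diag E δ θ hδ (MB 0 0) d00 k, m01]
      congr 1
      unfold Ps
      rw [map_sum]
      refine Finset.sum_congr rfl fun p _ => ?_
      rw [map_mul, Complex.conj_ofReal, m00]
    · intro l _ hl
      rw [d01 l (k + P0) (fun h => hl (add_right_cancel h).symm), mul_zero]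
    · intro h
      exact absurd (Finset.mem_univ _) h
  have p1 : (Psi (AA (d := d) (L := L) E δ θ) (MB 0 1) * MB 1 1) k (k + P0) =
      (wt E δ P0 k : ℂ) * (∑ p, (((NN d L)⁻¹ * hi θ (k - p) * wt E δ P0 p : ℝ) : ℂ) * Y p) *
          M (k + P0) := by
    rw [Matrix.mul_apply, Finset.sum_eq_single (k + P0)]
    · rw [Psi_tw E δ θ P0 (MB 0 1) d01 k, m11]
      simp only [m01]
    · intro l _ hl
      rw [d11 _ _ hl, mul_zero]
    · intro h
      exact absurd (Finset.mem_univ _) h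
  have o2 : (1 : Matrix (Fin 3 × T d L) (Fin 3 × T d L) ℂ) (0, k) (1, k + P0) = 0 :=
    Matrix.one_apply_ne fun h3 => absurd (Prod.ext_iff.1 h3).1
      (show ¬((0 : Fin 3) = 1) by decide)
  rw [z0, z1, o2] at e1
  rw [p0, p1] at e2
  obtain ⟨X, hX⟩ : ∃ X, X = SG (Z3 (D0 E δ) ((η : ℂ) • TS E δ P0) η)
    (A3 (AA (d := d) (L := L) E δ θ)) μ (0, k) (1, k + P0) := ⟨_, rfl⟩
  rw [sel_ZT] at hX
  rw [← hX] at e1
  rw [sel_ZT, ← hX] at e2
  obtain ⟨YY, hYY⟩ : ∃ YY, YY = (starRingEnd ℂ) (Ps E δ θ M k) * Y k +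
      (wt E δ P0 k : ℂ) * (∑ p, (((NN d L)⁻¹ * hi θ (k - p) * wt E δ P0 p : ℝ) : ℂ) * Y p) *
          M (k + P0) := ⟨_, rfl⟩
  rw [← hYY] at e2 ⊢
  have e4 : ((((adj k - E) / JJ E δ k : ℝ) : ℂ) + (η : ℂ) * Complex.I) * Y k -
      ((η * δ * wt E δ P0 k : ℝ) : ℂ) * M (k + P0) - (s2 : ℂ) * YY =
      (((((adj k - E) / JJ E δ k : ℝ) : ℂ) + (η : ℂ) * Complex.I) * Y k +
        -(((η * δ * wt E δ P0 k : ℝ) : ℂ) * M (k + P0)) - (s2 : ℂ) * X - 0) +
        (s2 : ℂ) * (X - YY) := by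
    ring
  rw [e4]
  refine (norm_add_le _ _).trans (le_trans (add_le_add e1 ?_) hε)
  rw [norm_mul, Complex.norm_real, Real.norm_of_nonneg hs2]
  exact mul_le_mul_of_nonneg_left e2 hs2

end Pool.Agent.TH794.HK
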